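import Mathlib

/-!
Siegel's lemma with a weight for every unknown.
-/

set_option autoImplicit false

namespace Pool.Agent.Lib.MP_4ffbf9_nt.QH

open Finset

theorem wsiegel {α β : Type} [Fintype α] [Fintype β] (A : Matrix α β ℤ) (w : β → ℕ) (a B : ℕ)
    (hw : ∀ j, w j ≤ a) (hA : ∀ i j, |A i j| ≤ 2 ^ w j) (hB : Fintype.card β < 2 ^ B)
    (h : ∑ j, w j + Fintype.card α * (a + B) < Fintype.card β * a) :
    ∃ t : β → ℤ, t ≠ 0 ∧ A.mulVec t = 0 ∧ ∀ j, |t j| * 2 ^ w j ≤ 2 ^ a := by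
  classical
  let f : (∀ j : β, Fin (2 ^ (a - w j))) → (α → ZMod (2 ^ (a + B))) := fun t i =>
    ((A.mulVec (fun j => ((t j : ℕ) : ℤ)) i : ℤ) : ZMod (2 ^ (a + B)))
  have hs : ∑ j, (a - w j) + ∑ j, w j = Fintype.card β * a := by
    rw [← sum_add_distrib, sum_congr rfl fun j _ => Nat.sub_add_cancel (hw j), sum_const,
      card_univ, smul_eq_mul]
  have hc : Fintype.card (α → ZMod (2 ^ (a + B))) < Fintype.card (∀ j : β, Fin (2 ^ (a - w j))) := by
    rw [Fintype.card_fun, ZMod.card, Fintype.card_pi]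
    simp only [Fintype.card_fin]
    rw [prod_pow_eq_pow_sum, ← pow_mul]
    refine Nat.pow_lt_pow_right (by norm_num) ?_
    rw [mul_comm]
    omega
  obtain ⟨t, t', hne, heq⟩ := Fintype.exists_ne_map_eq_of_card_lt f hc
  have hb : ∀ j, |((t j : ℕ) : ℤ) - ((t' j : ℕ) : ℤ)| * 2 ^ w j ≤ 2 ^ a := by
    intro j
    have h1 : ((t j : ℕ) : ℤ) < 2 ^ (a - w j) := by exact_mod_cast (t j).2
    have h2 : ((t' j : ℕ) : ℤ) < 2 ^ (a - w j) := by exact_mod_cast (t' j).2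
    have h3 : |((t j : ℕ) : ℤ) - ((t' j : ℕ) : ℤ)| ≤ 2 ^ (a - w j) :=
      abs_le.2 ⟨by omega, by omega⟩
    calc _ ≤ (2 : ℤ) ^ (a - w j) * 2 ^ w j := by gcongr
      _ = _ := by rw [← pow_add, Nat.sub_add_cancel (hw j)]
  refine ⟨fun j => ((t j : ℕ) : ℤ) - ((t' j : ℕ) : ℤ), fun h0 => hne (funext fun j => ?_),
    funext fun i => ?_, hb⟩
  · have := congrFun h0 j
    simp only [Pi.zero_apply] at this
    exact Fin.ext (by omega)
  · have h1 := (ZMod.intCast_eq_intCast_iff_dvd_sub _ _ _).1 (congrFun heq i).symm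
    have h2 : A.mulVec (fun j => ((t j : ℕ) : ℤ) - ((t' j : ℕ) : ℤ)) i =
        A.mulVec (fun j => ((t j : ℕ) : ℤ)) i - A.mulVec (fun j => ((t' j : ℕ) : ℤ)) i := by
      simp only [Matrix.mulVec, dotProduct, mul_sub, sum_sub_distrib]
    rw [← h2] at h1
    refine Int.eq_zero_of_abs_lt_dvd h1 ?_
    simp only [Matrix.mulVec, dotProduct]
    refine (abs_sum_le_sum_abs _ _).trans_lt ?_
    have h3 : (Fintype.card β : ℤ) < 2 ^ B := by exact_mod_cast hB
    calc ∑ j, |A i j * (((t j : ℕ) : ℤ) - ((t' j : ℕ) : ℤ))| ≤ ∑ _j : β, (2 : ℤ) ^ a := by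
          refine sum_le_sum fun j _ => le_trans ?_ (hb j)
          rw [abs_mul, mul_comm]
          exact mul_le_mul_of_nonneg_left (hA i j) (abs_nonneg _)
      _ = Fintype.card β * 2 ^ a := by rw [sum_const, card_univ, nsmul_eq_mul]
      _ < 2 ^ B * 2 ^ a := by gcongr
      _ = _ := by push_cast; ring

end Pool.Agent.Lib.MP_4ffbf9_nt.QH
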