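import Mathlib
import Pool.Agent.Lib.MP_4ffbf9_nt.SP.Defs

/-!
Divisibility by powers of `y` away from `z`, and the trailing coefficient of a polynomial with a
multiple zero at `(y / z, x / z)`.
-/

set_option autoImplicit false

namespace Pool.Agent.Lib.MP_4ffbf9_nt.QH

open MvPolynomial Finset Pool.Agent.Subspace Pool.Agent.Lib.MP_4ffbf9_nt.SP

/-- `q` is `y ^ e` times an integer over a power of `z`. -/
def Dv (y z e : ℕ) (q : ℚ) : Prop := ∃ (M : ℤ) (B : ℕ), (M : ℚ) * y ^ e = z ^ B * q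

variable {y z : ℕ}

theorem Dv.zero (e : ℕ) : Dv y z e 0 := ⟨0, 0, by simp⟩

theorem Dv.int (m : ℤ) : Dv y z 0 m := ⟨m, 0, by simp⟩

theorem Dv.mono {e e' : ℕ} {q : ℚ} (h : Dv y z e q) (he : e' ≤ e) : Dv y z e' q := by
  obtain ⟨M, B, h⟩ := h
  obtain ⟨k, rfl⟩ := Nat.exists_eq_add_of_le he
  exact ⟨M * y ^ k, B, by rw [← h]; push_cast; ring⟩

theorem Dv.add {e : ℕ} {q q' : ℚ} (h : Dv y z e q) (h' : Dv y z e q') : Dv y z e (q + q') := by
  obtain ⟨M, B, h⟩ := h
  obtain ⟨M', B', h'⟩ := h'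
  refine ⟨M * z ^ B' + M' * z ^ B, B + B', ?_⟩
  push_cast
  linear_combination (z : ℚ) ^ B' * h + (z : ℚ) ^ B * h'

theorem Dv.mul {e e' : ℕ} {q q' : ℚ} (h : Dv y z e q) (h' : Dv y z e' q') :
    Dv y z (e + e') (q * q') := by
  obtain ⟨M, B, h⟩ := h
  obtain ⟨M', B', h'⟩ := h'
  refine ⟨M * M', B + B', ?_⟩
  push_cast
  linear_combination ((M' : ℚ) * y ^ e') * h + ((z : ℚ) ^ B * q) * h'

theorem Dv.sum {ι : Type*} {e : ℕ} (s : Finset ι) {f : ι → ℚ} (h : ∀ i ∈ s, Dv y z e (f i)) :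
    Dv y z e (∑ i ∈ s, f i) :=
  sum_induction f _ (fun _ _ => Dv.add) (Dv.zero e) h

theorem Dv.dvd (hc : Nat.Coprime y z) {e : ℕ} {N : ℤ} (h : Dv y z e N) : (y : ℤ) ^ e ∣ N := by
  obtain ⟨M, B, h⟩ := h
  have h1 : M * y ^ e = z ^ B * N := by exact_mod_cast h
  exact (Nat.isCoprime_iff_coprime.2 hc).pow.dvd_of_dvd_mul_left (h1 ▸ Dvd.intro_left _ rfl)

/-- Weighted divisibility of all coefficients. -/
def Yv (y z n : ℕ) (s : ℚ) (w A : ℕ) (Q : Q2) : Prop :=
  ∀ ν : Fin 2 →₀ ℕ, Dv y z (w - (n * ν 0 + ν 1)) (s ^ A * coeff ν Q)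

variable {n : ℕ} {s : ℚ}

theorem Yv.add {w A : ℕ} {P Q : Q2} (h : Yv y z n s w A P) (h' : Yv y z n s w A Q) :
    Yv y z n s w A (P + Q) := fun ν => by
  rw [coeff_add, mul_add]; exact (h ν).add (h' ν)

theorem Yv.sum {ι : Type*} {w A : ℕ} (t : Finset ι) {f : ι → Q2}
    (h : ∀ i ∈ t, Yv y z n s w A (f i)) : Yv y z n s w A (∑ i ∈ t, f i) :=
  sum_induction f _ (fun _ _ => Yv.add) (fun _ => by simpa using Dv.zero _) h

theorem Yv.mul {w A w' A' : ℕ} {P Q : Q2} (h : Yv y z n s w A P) (h' : Yv y z n s w' A' Q) :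
    Yv y z n s (w + w') (A + A') (P * Q) := fun ν => by
  classical
  rw [coeff_mul, mul_sum]
  refine Dv.sum _ fun p hp => ?_
  have e := mem_antidiagonal.1 hp
  have := ((h p.1).mul (h' p.2)).mono (e' := w + w' - (n * ν 0 + ν 1)) (by
    rw [← e]
    simp only [Finsupp.add_apply, mul_add]
    omega)
  rwa [show s ^ A * coeff p.1 P * (s ^ A' * coeff p.2 Q) =
    s ^ (A + A') * (coeff p.1 P * coeff p.2 Q) by ring] at this

theorem Yv.mono {w A w' : ℕ} {P : Q2} (h : Yv y z n s w A P) (hw : w' ≤ w) :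
    Yv y z n s w' A P := fun ν => (h ν).mono (by omega)

theorem Yv.monomial {w A : ℕ} (ρ : Fin 2 →₀ ℕ) {q : ℚ}
    (h : Dv y z (w - (n * ρ 0 + ρ 1)) (s ^ A * q)) : Yv y z n s w A (monomial ρ q) := fun ν => by
  classical
  rw [coeff_monomial]
  split_ifs with e
  · exact e ▸ h
  · simpa using Dv.zero _

theorem Yv.C {w A : ℕ} {q : ℚ} (h : Dv y z w (s ^ A * q)) : Yv y z n s w A (C q) :=
  Yv.monomial 0 (by simpa using h)

theorem Yv.pow {w A : ℕ} {P : Q2} (h : Yv y z n s w A P) (k : ℕ) :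
    Yv y z n s (w * k) (A * k) (P ^ k) := by
  induction k with
  | zero => simpa using Yv.C (q := 1) (A := 0) (by simpa using Dv.int (y := y) (z := z) 1)
  | succ k ih => rw [pow_succ, mul_add, mul_add, mul_one, mul_one]; exact ih.mul h

theorem Yv.X (i : Fin 2) : Yv y z n s 0 0 (X i) :=
  Yv.monomial _ (by simpa using Dv.int (y := y) (z := z) 1)

theorem Dv.div (hz : 0 < z) (x : ℕ) : Dv y z 0 ((x : ℚ) / z) :=
  ⟨x, 1, by have : (z : ℚ) ≠ 0 := by positivity
            simp; field_simp⟩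

theorem Yv.shift (hz : 0 < z) (x : ℕ) (V : R2) : Yv y z n s 0 0 (shift (pt x y z) (toQ V)) := by
  induction V using MvPolynomial.induction_on with
  | C a =>
    rw [map_C, Subspace.shift, aeval_C]
    exact Yv.C (by simpa using Dv.int a)
  | add P Q hP hQ => rw [map_add, map_add]; exact hP.add hQ
  | mul_X P i hP =>
    rw [map_mul, map_mul, map_X, shift_X]
    refine hP.mul (w' := 0) (A' := 0) (Yv.add (Yv.C ?_) (Yv.X i))
    fin_cases i <;> simpa [pt] using Dv.div hz _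

theorem van_of_X_mul {p : Fin 2 → ℚ} (hp : p 0 ≠ 0) {μ : ℕ} {G : Q2} (h : Van p μ (X 0 * G)) :
    Van p μ G := by
  classical
  have key : ∀ (k : ℕ) (ν : Fin 2 →₀ ℕ), ν 0 = k → ν 0 + ν 1 < μ → coeff ν (shift p G) = 0 := by
    intro k
    induction k using Nat.strong_induction_on with
    | _ k ih =>
      intro ν hk hν
      have h1 := h ν hν
      rw [map_mul, shift_X, add_mul, coeff_add, coeff_C_mul, coeff_X_mul'] at h1
      split_ifs at h1 with h0
      · have h2 : ν 0 ≠ 0 := Finsupp.mem_support_iff.1 h0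
        rw [ih (k - 1) (by omega) (ν - Finsupp.single 0 1) (by simp [hk]) (by simp; omega),
          add_zero] at h1
        exact (mul_eq_zero.1 h1).resolve_left hp
      · rw [add_zero] at h1
        exact (mul_eq_zero.1 h1).resolve_left hp
  exact fun ν hν => key _ ν rfl hν

theorem van_of_pow_mul {p : Fin 2 → ℚ} (hp : p 0 ≠ 0) {μ : ℕ} {G : Q2} (k : ℕ)
    (h : Van p μ (X 0 ^ k * G)) : Van p μ G := by
  induction k with
  | zero => simpa using h
  | succ k ih => exact ih (van_of_X_mul hp (by rwa [← mul_assoc, ← pow_succ']))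

theorem coeff_kill (V : R2) (ν : Fin 2 →₀ ℕ) :
    coeff ν (aeval ![0, X 1] V : R2) = if ν 0 = 0 then coeff ν V else 0 := by
  classical
  induction V using MvPolynomial.induction_on' with
  | add P Q hP hQ => rw [map_add, coeff_add, hP, hQ, coeff_add]; split_ifs <;> simp
  | monomial ρ a =>
    rw [aeval_monomial, Finsupp.prod_fintype _ _ fun _ => pow_zero _, Fin.prod_univ_two]
    simp only [Matrix.cons_val_zero, Matrix.cons_val_one, algebraMap_eq, coeff_monomial]
    by_cases h0 : ρ 0 = 0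
    · have e : ρ = Finsupp.single 1 (ρ 1) := by ext i; fin_cases i <;> simp [h0]
      rw [h0, pow_zero, one_mul, C_mul_X_pow_eq_monomial, ← e, coeff_monomial]
      split_ifs with h1 h2
      · rfl
      · exact absurd (h1 ▸ h0) h2
      · rfl
      · rfl
    · rw [zero_pow h0, zero_mul, mul_zero, coeff_zero]
      split_ifs with h1 h2
      · exact absurd (h2 ▸ h1) h0
      · rfl
      · rfl

/-- The trailing coefficient. -/
theorem exists_trail {x μ N : ℕ} (hy : 0 < y) (hz : 0 < z) {V : R2} (hV : V ≠ 0)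
    (hD : DegLe 1 N V) (hv : Van (pt x y z) μ (toQ V)) :
    ∃ R : R2, R ≠ 0 ∧ DegLe 0 0 R ∧ DegLe 1 N R ∧ l1 R ≤ l1 V ∧
      ∀ u : ℚ, Yv y z n s μ 0 (shift ![u, (x : ℚ) / z] (toQ R)) := by
  classical
  obtain ⟨ν₀, hν₀, hmin⟩ := exists_min_image V.support (fun ν => ν 0) (support_nonempty.2 hV)
  obtain ⟨V', hc, hl⟩ := exists_slice V (φ := fun ν : Fin 2 →₀ ℕ => ν + Finsupp.single 0 (ν₀ 0))
    (add_left_injective _)
  have e : V = X 0 ^ ν₀ 0 * V' := by
    ext ν
    rw [X_pow_eq_monomial, coeff_monomial_mul']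
    split_ifs with h
    · rw [one_mul, hc, tsub_add_cancel_of_le h]
    · by_contra h1
      exact h (Finsupp.single_le_iff.2 (hmin ν (MvPolynomial.mem_support_iff.2 h1)))
  have hv' : Van (pt x y z) μ (toQ V') := by
    refine van_of_pow_mul (by simp only [pt, Matrix.cons_val_zero]; positivity) (ν₀ 0) ?_
    rwa [e, map_mul, map_pow, map_X] at hv
  have hs : ∀ ν ∈ (aeval ![0, X 1] V' : R2).support, ν 0 = 0 ∧ ν ∈ V'.support := by
    intro ν hν
    rw [MvPolynomial.mem_support_iff, coeff_kill] at hν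
    split_ifs at hν with h
    · exact ⟨h, MvPolynomial.mem_support_iff.2 hν⟩
    · exact absurd rfl hν
  refine ⟨aeval ![0, X 1] V', fun h => ?_, fun ν hν => (hs ν hν).1.le, fun ν hν => ?_, ?_,
    fun u => ?_⟩
  · have h1 := coeff_kill V' (ν₀ - Finsupp.single 0 (ν₀ 0))
    rw [h, coeff_zero, if_pos (by simp), hc,
      tsub_add_cancel_of_le (Finsupp.single_le_iff.2 le_rfl)] at h1
    exact MvPolynomial.mem_support_iff.1 hν₀ h1.symm
  · have h1 := (hs ν hν).2
    rw [MvPolynomial.mem_support_iff, hc] at h1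
    simpa using hD _ (MvPolynomial.mem_support_iff.2 h1)
  · refine le_trans ?_ hl
    refine le_trans (le_of_eq (sum_congr rfl fun ν hν => ?_)) (sum_norm_coeff_le_l1 V' _)
    rw [coeff_kill, if_pos (hs ν hν).1]
  · have h1 : ∀ W : R2, shift ![u, (x : ℚ) / z] (toQ (aeval ![0, X 1] W)) =
        aeval ![C (-((y : ℚ) / z)), X 1] (shift (pt x y z) (toQ W)) := by
      intro W
      induction W using MvPolynomial.induction_on with
      | C a => simp only [Subspace.shift, aeval_C, algebraMap_eq, map_C]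
      | add P Q hP hQ => rw [map_add, map_add, map_add, hP, hQ, map_add, map_add, map_add]
      | mul_X P i hP =>
        rw [map_mul, map_mul, map_mul, hP, map_mul, map_mul, map_mul, aeval_X, map_X, shift_X,
          map_add, aeval_C, aeval_X]
        congr 1
        fin_cases i <;> simp [pt]
    rw [h1]
    set G := shift (pt x y z) (toQ V') with hG
    rw [G.as_sum, map_sum]
    refine Yv.sum _ fun ρ hρ => ?_
    have h2 : μ ≤ ρ 0 + ρ 1 := by
      by_contra h
      exact MvPolynomial.mem_support_iff.1 hρ (hv' ρ (by omega))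
    rw [aeval_monomial, Finsupp.prod_fintype _ _ fun _ => pow_zero _, Fin.prod_univ_two]
    simp only [Matrix.cons_val_zero, Matrix.cons_val_one, algebraMap_eq]
    rw [← map_pow, ← mul_assoc, ← map_mul, C_mul_X_pow_eq_monomial]
    refine Yv.monomial _ ?_
    have h3 := Yv.shift (n := n) (s := s) (y := y) hz x V' ρ
    have h4 : Dv y z (ρ 0) ((-((y : ℚ) / z)) ^ ρ 0) := ⟨(-1) ^ ρ 0, ρ 0, by
      have : (z : ℚ) ≠ 0 := by positivity
      push_cast
      rw [← mul_pow, ← mul_pow]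
      congr 1
      field_simp⟩
    rw [← mul_assoc]
    exact (h3.mul h4).mono (by simp; omega)

end Pool.Agent.Lib.MP_4ffbf9_nt.QH
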