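import Mathlib
import Pool.Agent.Lib.MP_4ffbf9_nt.H.Poly
import Pool.Agent.Lib.MP_4ffbf9_nt.QH.Yv
import Pool.Agent.Lib.MP_4ffbf9_nt.QH.WSiegel

/-!
The second auxiliary polynomial `∑ (U - 1) ^ k * R ^ (s k) * h k`.
-/

set_option autoImplicit false

namespace Pool.Agent.Lib.MP_4ffbf9_nt.QH

open MvPolynomial Finset Pool.Agent.Subspace Pool.Agent.Lib.MP_4ffbf9_nt.SP
  Pool.Agent.Lib.MP_4ffbf9_nt.H

theorem count2 {e κ n N v u d D K S S₁ cT cB W : ℕ} (he : 1 ≤ e) (hκ : 1 ≤ κ) (hn : e ≤ n)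
    (hv : 8 * N + 32 ≤ v) (hu : u = v * n) (hd : d = 16 * e * v) (hD : D = 16 * e * u)
    (hK : K + 3 * u = D) (h1 : 2 * n * S₁ ≤ 2 * n * (12 * u) + (12 * u) ^ 2)
    (h2 : S ≤ e * S₁ + N * (d + 1)) (h3 : 2 * n * cT ≤ 2 * n * K + K ^ 2)
    (h4 : cB + S = (d + 1) * (D + 1)) (h5 : W ≤ (D + 1) * ((d + 1) * d + κ * S)) :
    W + (cT + cT) * (200 * κ * D + (2 * d + n + 1)) < cB * (200 * κ * D) := by
  have n1 : 1 ≤ n := he.trans hn
  have uv : v ≤ u := by rw [hu]; exact Nat.le_mul_of_pos_right _ n1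
  have nu : n ≤ u := by rw [hu]; exact Nat.le_mul_of_pos_left _ (by omega)
  have evu : e * v ≤ u := by rw [hu, mul_comm]; exact Nat.mul_le_mul_left _ hn
  have a1 : S₁ ≤ 12 * u + 72 * (u * v) := by
    refine Nat.le_of_mul_le_mul_left (h1.trans (le_of_eq ?_)) (by omega : 0 < 2 * n)
    rw [hu]; ring
  obtain ⟨f, rfl⟩ : ∃ f, e = f + 1 := ⟨e - 1, by omega⟩
  have hK' : K = (16 * f + 13) * u := by rw [hD] at hK; nlinarith
  have a2 : cT + cT ≤ 2 * K + (16 * f + 13) ^ 2 * (u * v) := by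
    refine Nat.le_of_mul_le_mul_left (?_ : n * (cT + cT) ≤ _) (by omega : 0 < n)
    calc n * (cT + cT) = 2 * n * cT := by ring
      _ ≤ _ := h3
      _ = _ := by rw [hK', hu]; ring
  set e := f + 1 with hef
  obtain ⟨P, hP⟩ : ∃ P, P = e * (u * v) := ⟨_, rfl⟩
  have P0 : 0 < P := by rw [hP]; exact Nat.mul_pos he (Nat.mul_pos (by omega) (by omega))
  have b1 : 32 * (e * u) ≤ P := by
    rw [hP, ← mul_assoc e, mul_comm 32]; exact Nat.mul_le_mul_left _ (by omega)
  have b2 : N * (d + 1) ≤ 3 * P := by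
    have : 1 ≤ e * v := Nat.mul_pos he (by omega)
    calc N * (d + 1) ≤ N * (24 * (e * v)) := Nat.mul_le_mul_left _ (by rw [hd]; nlinarith)
      _ = 3 * (e * (8 * N * v)) := by ring
      _ ≤ 3 * P := by rw [hP]; gcongr; omega
  have b3 : S ≤ 76 * P := by
    have : e * S₁ ≤ 12 * (e * u) + 72 * P := by
      rw [hP]; exact (Nat.mul_le_mul_left e a1).trans (le_of_eq (by ring))
    omega
  have b4 : 256 * e * P ≤ cB + S := by
    rw [h4, hP, hd, hD]; nlinarith
  have b5 : cT + cT + 87 * P ≤ P + 256 * e * P := by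
    have t1 : 2 * K ≤ P := by rw [hK'] ; nlinarith
    have t2 : (16 * f + 13) ^ 2 * (u * v) + 87 * P ≤ 256 * e * P := by
      rw [hP, hef]; nlinarith [Nat.zero_le (f * (u * v))]
    omega
  have b6 : cT + cT + 10 * P ≤ cB := by omega
  have D1 : 1 ≤ D := by rw [hD]; nlinarith
  have b7 : W ≤ 1176 * (κ * D * P) := by
    have t1 : (d + 1) * d ≤ 512 * P := by
      have : 1 ≤ d := by rw [hd]; nlinarith
      calc (d + 1) * d ≤ 2 * d * d := Nat.mul_le_mul_right _ (by omega)
        _ = 512 * (e * (e * v * v)) := by rw [hd]; ring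
        _ ≤ 512 * P := by rw [hP]; gcongr
    calc W ≤ (2 * D) * (κ * (512 * P) + κ * (76 * P)) := by
          refine h5.trans (Nat.mul_le_mul (by omega) (add_le_add (t1.trans ?_) (by gcongr)))
          exact Nat.le_mul_of_pos_left _ hκ
      _ = _ := by ring
  have b8 : (cT + cT) * (2 * d + n + 1) ≤ 771 * (κ * D * P) := by
    have t1 : cT + cT ≤ 257 * (e * P) := by nlinarith
    have t2 : e * (2 * d + n + 1) ≤ 3 * D := by
      have : e * (e * v) ≤ e * u := Nat.mul_le_mul_left _ evu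
      have : e * n ≤ e * u := Nat.mul_le_mul_left _ nu
      have : e * 1 ≤ e * u := Nat.mul_le_mul_left _ (by omega)
      rw [hd, hD]; nlinarith
    calc _ ≤ 257 * (e * P) * (2 * d + n + 1) := Nat.mul_le_mul_right _ t1
      _ = 257 * P * (e * (2 * d + n + 1)) := by ring
      _ ≤ 257 * P * (κ * (3 * D)) := Nat.mul_le_mul_left _ (t2.trans (Nat.le_mul_of_pos_left _ hκ))
      _ = _ := by ring
  have b9 : 0 < κ * D * P := by positivity
  calc _ = (cT + cT) * (200 * κ * D) + (W + (cT + cT) * (2 * d + n + 1)) := by ring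
    _ < (cT + cT) * (200 * κ * D) + 2000 * (κ * D * P) := by omega
    _ = (cT + cT + 10 * P) * (200 * κ * D) := by ring
    _ ≤ _ := Nat.mul_le_mul_right _ b6

theorem lift_eq {R : R2} (h : DegLe 0 0 R) :
    (aeval ![1 + Polynomial.X, Polynomial.C (X 1)] R : Polynomial R2) = Polynomial.C R := by
  have e : aeval ![0, X 1] R = R := by
    ext ν
    rw [coeff_kill]
    split_ifs with h0
    · rfl
    · by_contra h1
      exact h0 (Nat.le_zero.1 (h ν (MvPolynomial.mem_support_iff.2 (Ne.symm h1))))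
  rw [← e]
  generalize R = W
  induction W using MvPolynomial.induction_on with
  | C a => simp
  | add P Q hP hQ => rw [map_add, map_add, hP, hQ, map_add]
  | mul_X P i hP =>
    rw [map_mul, map_mul, hP, map_mul, aeval_X]
    congr 1
    fin_cases i <;> simp

theorem degLe_mul {i : Fin 2} {a b : ℕ} {P Q : R2} (h : DegLe i a P) (h' : DegLe i b Q) :
    DegLe i (a + b) (P * Q) := by
  rw [degLe_iff] at h h' ⊢
  exact (h.mul h').mono (by push_cast; linarith)

theorem degLe_pow {i : Fin 2} {a : ℕ} {P : R2} (h : DegLe i a P) (k : ℕ) :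
    DegLe i (a * k) (P ^ k) := by
  rw [degLe_iff] at h ⊢
  exact (h.pow k).mono (by rw [nsmul_eq_mul]; push_cast; linarith)

theorem degLe_X (i j : Fin 2) : DegLe i (if i = j then 1 else 0) (X j : R2) := by
  intro ν hν
  rw [support_X, mem_singleton] at hν
  rw [hν, Finsupp.single_apply]
  split_ifs <;> omega

theorem degLe_sub_one (i : Fin 2) : DegLe i (if i = 0 then 1 else 0) (X 0 - 1 : R2) := by
  have := degLe_X i 0
  rw [degLe_iff] at this ⊢
  exact this.sub ((idxGe_C _ (1 : ℤ)).mono (by split_ifs <;> simp))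

theorem aux2 {e κ n N μ v : ℕ} (he : 1 ≤ e) (hκ : 1 ≤ κ) (hn : e ≤ n) (hμ : 1 ≤ μ)
    (hN : N ≤ e * μ) (hv : 8 * N + 32 ≤ v) {R : R2} (hR : R ≠ 0) (h0 : DegLe 0 0 R)
    (h1 : DegLe 1 N R) (hl : l1 R ≤ 2 ^ (κ * N)) {u d D K : ℕ} (hu : u = v * n)
    (hd : d = 16 * e * v) (hD : D = 16 * e * u) (hK : K + 3 * u = D) :
    ∃ F : R2, F ≠ 0 ∧ DegLe 0 d F ∧ DegLe 1 D F ∧ (∀ ν ∈ F.support, K ≤ n * ν 0 + ν 1) ∧
      (∀ ν ∈ F.support, K ≤ n * (d - ν 0) + (D - ν 1)) ∧ l1 F ≤ 2 ^ (203 * κ * D) ∧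
      ∀ (y z : ℕ) (s : ℤ) (p : Fin 2 → ℚ), Yv y z n s n 1 (shift p (toQ (X 0 - 1))) →
        Yv y z n s μ 0 (shift p (toQ R)) → Yv y z n s 0 0 (shift p (toQ (X 1))) →
        Yv y z n s (12 * u) d (shift p (toQ F)) := by
  classical
  have n1 : 1 ≤ n := he.trans hn
  have uv : v ≤ u := by rw [hu]; exact Nat.le_mul_of_pos_right _ n1
  have nu : n ≤ u := by rw [hu]; exact Nat.le_mul_of_pos_left _ (by omega)
  have eu : u ≤ e * u := Nat.le_mul_of_pos_left _ he
  have dD : d ≤ D := by rw [hd, hD]; gcongr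
  let s : ℕ → ℕ := fun k => (12 * u - n * k) / μ + 1
  have hs1 : ∀ k, N * s k ≤ e * (12 * u - n * k) + N := fun k => by
    simp only [s, mul_add, mul_one]
    refine add_le_add_left ((Nat.mul_le_mul_right _ hN).trans ?_) _
    rw [mul_assoc]
    exact Nat.mul_le_mul_left _ (Nat.mul_div_le _ _)
  have hs2 : ∀ k, N * s k ≤ D := fun k => by
    have : e * (12 * u - n * k) ≤ e * (12 * u) := Nat.mul_le_mul_left _ (Nat.sub_le _ _)
    have := hs1 k
    rw [hD]; nlinarith
  have hs3 : ∀ k, 12 * u ≤ n * k + μ * s k := fun k => by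
    have := Nat.lt_mul_div_succ (12 * u - n * k) hμ
    simp only [s]; omega
  let β := (k : Fin (d + 1)) × Fin (D + 1 - N * s k)
  let T := {t : Fin (d + 1) × Fin (D + 1) // n * (t.1 : ℕ) + (t.2 : ℕ) < K}
  let mo : β → R2 := fun b => (X 0 - 1) ^ (b.1 : ℕ) * R ^ s b.1 * X 1 ^ (b.2 : ℕ)
  let w : β → ℕ := fun b => b.1 + κ * (N * s b.1)
  let A : Matrix (T ⊕ T) β ℤ := fun i b =>
    Sum.elim (fun t : T => coeff (ex t.1.1 t.1.2) (mo b))
      (fun t : T => coeff (ex (d - t.1.1) (D - t.1.2)) (mo b)) i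
  have hmo : ∀ b, l1 (mo b) ≤ 2 ^ w b := fun b => by
    have t1 : l1 (X 0 - 1 : R2) ≤ 2 := by
      rw [sub_eq_add_neg]
      exact (l1_add_le _ _).trans (by rw [l1_neg, l1_X, l1_one]; norm_num)
    have t2 : l1 (X 1 ^ (b.2 : ℕ) : R2) ≤ 1 := (l1_pow_le _ _).trans (by rw [l1_X, one_pow])
    refine (l1_mul_le _ _).trans ((mul_le_of_le_one_right (l1_nonneg _) t2).trans
      ((l1_mul_le _ _).trans ?_))
    simp only [w]
    rw [pow_add (2 : ℝ), ← mul_assoc κ, pow_mul (2 : ℝ)]
    exact mul_le_mul ((l1_pow_le _ _).trans (pow_le_pow_left₀ (l1_nonneg _) t1 _))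
      ((l1_pow_le _ _).trans (pow_le_pow_left₀ (l1_nonneg _) hl _)) (l1_nonneg _) (by positivity)
  have hβ : Fintype.card β + ∑ k ∈ range (d + 1), N * s k = (d + 1) * (D + 1) := by
    rw [Fintype.card_sigma, ← Fin.sum_univ_eq_sum_range (fun k => N * s k), ← sum_add_distrib,
      sum_congr rfl (g := fun _ => D + 1) fun k _ => (by
        rw [Fintype.card_fin]; exact Nat.sub_add_cancel ((hs2 k).trans (Nat.le_succ D)))]
    simp
  have hB : Fintype.card β < 2 ^ (2 * d + n + 1) := by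
    have t1 : D + 1 ≤ (d + 1) * (n + 1) := by
      have : D = d * n := by rw [hd, hD, hu]; ring
      nlinarith
    have t2 := Nat.lt_two_pow_self (n := d)
    have t3 := Nat.lt_two_pow_self (n := n)
    calc Fintype.card β ≤ (d + 1) * (D + 1) := by omega
      _ ≤ 2 ^ d * (2 ^ d * 2 ^ n) := Nat.mul_le_mul t2 (t1.trans (Nat.mul_le_mul t2 t3))
      _ = 2 ^ (2 * d + n) := by ring
      _ < _ := Nat.pow_lt_pow_right (by norm_num) (Nat.lt_succ_self _)
  obtain ⟨t, ht0, ht, htb⟩ := wsiegel A w (200 * κ * D) (2 * d + n + 1)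
    (fun b => by
      have t1 := b.1.2
      have t2 : κ * (N * s b.1) ≤ κ * D := Nat.mul_le_mul_left _ (hs2 _)
      have t3 : D ≤ κ * D := Nat.le_mul_of_pos_left _ hκ
      simp only [w]; nlinarith)
    (fun i b => by
      have key : ∀ ν, |coeff ν (mo b)| ≤ 2 ^ w b := fun ν => by
        have := (norm_coeff_le_l1 (mo b) ν).trans (hmo b)
        rw [Int.norm_eq_abs] at this
        exact_mod_cast this
      rcases i with i | i <;> exact key _) hB
    (by
      rw [Fintype.card_sum]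
      refine count2 (S := ∑ k ∈ range (d + 1), N * s k)
        (S₁ := ∑ k ∈ range (d + 1), (12 * u - n * k)) he hκ hn hv hu hd hD hK
        ((Nat.le_add_right _ _).trans (tri_sum n (12 * u) d)) ?_ ?_ hβ ?_
      · refine (sum_le_sum fun k _ => hs1 k).trans (le_of_eq ?_)
        rw [sum_add_distrib, mul_sum, sum_const, card_range, smul_eq_mul, mul_comm N]
      · have t1 := tri_card n1 K d D
        have t2 : (0 : ℝ) < 2 * n := by positivity
        rw [div_add' _ _ _ t2.ne', le_div_iff₀ t2] at t1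
        have t3 : (2 * n * Fintype.card T : ℝ) ≤ 2 * n * K + K ^ 2 := by linarith
        exact_mod_cast t3
      · rw [Fintype.sum_sigma]
        calc _ ≤ ∑ k : Fin (d + 1), (D + 1) * (d + κ * (N * s k)) := by
              refine sum_le_sum fun k _ => ?_
              simp only [w, sum_const, card_univ, Fintype.card_fin, smul_eq_mul]
              exact Nat.mul_le_mul (Nat.sub_le _ _) (by have := k.2; omega)
          _ = _ := by
              rw [← mul_sum, sum_add_distrib, ← mul_sum,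
                Fin.sum_univ_eq_sum_range (fun k => N * s k)]
              simp)
  set F : R2 := ∑ b, C (t b) * mo b with hF
  have hdeg : ∀ i, DegLe i (if i = 0 then d else D) F := fun i => by
    rw [degLe_iff]
    refine idxGe_sum _ fun b _ => IdxGe.C_mul ?_ _
    rw [← degLe_iff]
    intro ν hν
    have t1 := b.1.2
    have t2 := b.2.2
    have t3 := hs2 b.1
    fin_cases i
    · have := degLe_mul (degLe_mul (degLe_pow (degLe_sub_one 0) b.1) (degLe_pow h0 (s b.1)))
        (degLe_pow (degLe_X 0 1) b.2) ν hν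
      simp at this ⊢
      omega
    · have := degLe_mul (degLe_mul (degLe_pow (degLe_sub_one 1) b.1) (degLe_pow h1 (s b.1)))
        (degLe_pow (degLe_X 1 1) b.2) ν hν
      simp at this ⊢
      omega
  have hk : DegLe 0 d F := hdeg 0
  have hD' : DegLe 1 D F := hdeg 1
  refine ⟨F, fun h => ht0 (funext fun b => ?_), hk, hD', fun ν hν => ?_, fun ν hν => ?_, ?_,
    fun y z s' p y1 y2 y3 => ?_⟩
  · have t1 := congrArg (fun G : R2 => Polynomial.coeff
      (aeval ![1 + Polynomial.X, Polynomial.C (X 1)] G : Polynomial R2) b.1) h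
    simp only [hF, mo, map_sum, map_mul, map_pow, map_sub, lift_eq h0, aeval_X, aeval_C, map_one,
      Matrix.cons_val_zero, Matrix.cons_val_one, add_sub_cancel_left, map_zero,
      Polynomial.coeff_zero, Polynomial.finsetSum_coeff] at t1
    have t2 : ∀ c : β, (algebraMap ℤ (Polynomial R2) (t c) * (Polynomial.X ^ (c.1 : ℕ) *
        Polynomial.C R ^ s c.1 * Polynomial.C (X 1) ^ (c.2 : ℕ))).coeff b.1 =
        if b.1 = c.1 then R ^ s c.1 * monomial (Finsupp.single 1 (c.2 : ℕ)) (t c) else 0 := by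
      intro c
      rw [show algebraMap ℤ (Polynomial R2) (t c) * (Polynomial.X ^ (c.1 : ℕ) *
        Polynomial.C R ^ s c.1 * Polynomial.C (X 1) ^ (c.2 : ℕ)) = Polynomial.C (R ^ s c.1 *
          monomial (Finsupp.single 1 (c.2 : ℕ)) (t c)) * Polynomial.X ^ (c.1 : ℕ) by
        rw [← C_mul_X_pow_eq_monomial]; simp; ring, Polynomial.coeff_C_mul_X_pow]
      simp only [Fin.ext_iff]
    rw [sum_congr rfl fun c _ => t2 c, Fintype.sum_sigma, sum_eq_single b.1
      (fun k _ hk => sum_eq_zero fun j _ => if_neg (Ne.symm hk)) (by simp)] at t1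
    simp only [if_true, ← mul_sum] at t1
    have t3 := congrArg (coeff (Finsupp.single 1 (b.2 : ℕ)))
      ((mul_eq_zero.1 t1).resolve_left (pow_ne_zero _ hR))
    rw [coeff_sum, sum_eq_single b.2 (fun j _ hj => by
      rw [coeff_monomial, if_neg fun h' => hj (Fin.ext (Finsupp.single_injective _ h'))])
      (by simp), coeff_monomial, if_pos rfl] at t3
    exact t3
  · by_contra hlt
    push Not at hlt
    have t1 := congrFun ht (Sum.inl ⟨(⟨ν 0, Nat.lt_succ_iff.mpr (hk ν hν)⟩,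
      ⟨ν 1, Nat.lt_succ_iff.mpr (hD' ν hν)⟩), hlt⟩)
    refine MvPolynomial.mem_support_iff.mp hν ?_
    rw [hF, coeff_sum]
    simp only [coeff_C_mul]
    simpa only [A, Matrix.mulVec, dotProduct, ex_self, mul_comm, Sum.elim_inl,
      Pi.zero_apply] using t1
  · by_contra hlt
    push Not at hlt
    have t1 := congrFun ht (Sum.inr ⟨(⟨d - ν 0, by omega⟩, ⟨D - ν 1, by omega⟩), hlt⟩)
    refine MvPolynomial.mem_support_iff.mp hν ?_
    rw [hF, coeff_sum]
    simp only [coeff_C_mul]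
    simpa only [A, Matrix.mulVec, dotProduct, ex_self, mul_comm, Sum.elim_inr, Pi.zero_apply,
      Nat.sub_sub_self (hk ν hν), Nat.sub_sub_self (hD' ν hν)] using t1
  · have t1 : (Fintype.card β : ℝ) ≤ 2 ^ (2 * d + n + 1) := by exact_mod_cast hB.le
    have t2 : 2 * d + n + 1 ≤ 3 * κ * D := by
      have : D ≤ κ * D := Nat.le_mul_of_pos_left _ hκ
      have : n + 1 ≤ D := by rw [hD]; nlinarith
      nlinarith
    calc l1 F ≤ ∑ b, l1 (C (t b) * mo b) := l1_sum_le _ _
      _ ≤ ∑ _b : β, (2 : ℝ) ^ (200 * κ * D) := by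
          refine sum_le_sum fun b _ => (l1_mul_le _ _).trans ?_
          rw [l1_C, Int.norm_eq_abs]
          refine (mul_le_mul_of_nonneg_left (hmo b) (abs_nonneg _)).trans ?_
          exact_mod_cast htb b
      _ ≤ 2 ^ (3 * κ * D) * 2 ^ (200 * κ * D) := by
          rw [sum_const, card_univ, nsmul_eq_mul]
          exact mul_le_mul_of_nonneg_right (t1.trans (pow_le_pow_right₀ one_le_two t2))
            (by positivity)
      _ = _ := by ring
  · rw [hF, map_sum, map_sum]
    refine Yv.sum _ fun b _ => ?_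
    simp only [mo, map_mul, map_pow]
    have t1 : Yv y z n s' 0 (d - b.1) (shift p (toQ (C (t b)))) := by
      rw [map_C, Subspace.shift, aeval_C]
      exact Yv.C (by simpa using Dv.int (y := y) (z := z) (s' ^ (d - b.1) * t b))
    have t2 := t1.mul (((y1.pow b.1).mul (y2.pow (s b.1))).mul (y3.pow b.2))
    have t3 := b.1.2
    rw [show d - b.1 + (1 * b.1 + 0 * s b.1 + 0 * b.2) = d by omega] at t2
    exact t2.mono (by have := hs3 b.1; omega)

end Pool.Agent.Lib.MP_4ffbf9_nt.QH
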