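import Mathlib
import Pool.Agent.Lib.MP_4ffbf9_nt.SP.AuxN

/-!
Solutions with cofactors up to `(2 ^ β) ^ n` (the two proofs are those of the folder SP).
-/

set_option autoImplicit false

namespace Pool.Agent.Lib.MP_4ffbf9_nt.QH

open MvPolynomial Pool.Agent.Subspace Pool.Agent.Lib.MP_4ffbf9_nt.SP

/-- A solution with pairwise coprime roots of comparable size and `a, c ≤ (2 ^ β) ^ n`. -/
structure Sb (β n a b c x y z : ℕ) : Prop where
  eq : a * x ^ n + b * y ^ n = c * z ^ n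
  ha : 0 < a
  hb : 0 < b
  hc : 0 < c
  hx : 0 < x
  hy : 0 < y
  hz : 0 < z
  a_le : a ≤ (2 ^ β) ^ n
  c_le : c ≤ (2 ^ β) ^ n
  cxy : Nat.Coprime x y
  cxz : Nat.Coprime x z
  cyz : Nat.Coprime y z
  x_le : x ≤ 2 * z
  le_x : z ≤ 2 * x
  y_le : y ≤ 2 * z
  le_y : z ≤ 2 * y

theorem uu_le {β n a b c x y z : ℕ} (hs : Sb β n a b c x y z) :
    |((uu n a c x z : ℚ) : ℝ)| ≤ 1 := by
  have hc : (0 : ℝ) < c := by exact_mod_cast hs.hc
  have hz : (0 : ℝ) < z := by exact_mod_cast hs.hz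
  have he : (a : ℝ) * x ^ n + b * y ^ n = c * z ^ n := by exact_mod_cast hs.eq
  have hp : (0 : ℝ) < c * z ^ n := by positivity
  have h1 : (0 : ℝ) ≤ a * x ^ n := by positivity
  have h2 : (0 : ℝ) ≤ b * y ^ n := by positivity
  unfold uu
  push_cast
  rw [abs_div, abs_neg, abs_of_nonneg h1, abs_of_pos hp, div_le_one hp]
  linarith

/-- Step 2. -/
theorem GG_ne' {J β n a b c x y z : ℕ} {K : ℝ} {P : Fin (400 * J ^ 2 + 7) → R2}
    {cc : (Fin 2 →₀ ℕ) → Polynomial ℤ} (hJ : 1 ≤ J) (hn : 1 ≤ n) (hK : 1 ≤ K)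
    (h : Aux J n K P cc) (hs : Sb β n a b c x y z) (hz : 2 ^ β * K < z) :
    GG P (uu n a c x z) ≠ 0 := by
  intro h0
  obtain ⟨ν, hν⟩ := h.ne
  have hc := coeff_GG hJ h (uu n a c x z) ν
  rw [h0, coeff_zero] at hc
  have ha : (0 : ℚ) < a := by exact_mod_cast hs.ha
  have hb : (0 : ℚ) < b := by exact_mod_cast hs.hb
  have hcc : (0 : ℚ) < c := by exact_mod_cast hs.hc
  have hx : (0 : ℚ) < x := by exact_mod_cast hs.hx
  have hy : (0 : ℚ) < y := by exact_mod_cast hs.hy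
  have hz' : (0 : ℚ) < z := by exact_mod_cast hs.hz
  have heq : (a : ℚ) * x ^ n + b * y ^ n = c * z ^ n := by exact_mod_cast hs.eq
  have hu : uu n a c x z * (c * z ^ n) = -(a * x ^ n) := by
    unfold uu
    field_simp
  have hu0 : uu n a c x z ≠ 0 := fun e => by
    rw [e] at hu
    have : (0 : ℚ) < a * x ^ n := by positivity
    linarith
  have hu1 : uu n a c x z + 1 ≠ 0 := fun e => by
    rw [eq_neg_of_add_eq_zero_left e] at hu
    have : (0 : ℚ) < b * y ^ n := by positivity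
    linarith
  have hroot : Polynomial.aeval (uu n a c x z) (cc ν) = 0 :=
    (mul_eq_zero.1 hc.symm).resolve_left
      (mul_ne_zero (pow_ne_zero _ hu0) (pow_ne_zero _ hu1))
  have hd := den_dvd_of_is_root hroot
  set d : ℤ := (IsFractionRing.den ℤ (uu n a c x z) : ℤ) with hdd
  have hnum : uu n a c x z * (d : ℚ) = (IsFractionRing.num ℤ (uu n a c x z) : ℚ) :=
    (IsFractionRing.num_mul_den_eq_num_iff_eq (A := ℤ) (x := uu n a c x z)).2 rfl
  have hint : ((a : ℤ) * d) * x ^ n = -(IsFractionRing.num ℤ (uu n a c x z) * c) * z ^ n := by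
    have : (((a : ℤ) * d * x ^ n : ℤ) : ℚ) =
        ((-(IsFractionRing.num ℤ (uu n a c x z) * c) * z ^ n : ℤ) : ℚ) := by
      push_cast
      rw [← hnum]
      linear_combination (d : ℚ) * hu
    exact_mod_cast this
  have hcop : IsCoprime ((z : ℤ) ^ n) ((x : ℤ) ^ n) :=
    (Nat.isCoprime_iff_coprime.2 hs.cxz.symm).pow
  have hdv : (z : ℤ) ^ n ∣ a * (cc ν).leadingCoeff :=
    (hcop.dvd_of_dvd_mul_right (hint ▸ Dvd.intro_left _ rfl)).trans (mul_dvd_mul_left _ hd)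
  have hne : (a : ℤ) * (cc ν).leadingCoeff ≠ 0 :=
    mul_ne_zero (by exact_mod_cast hs.ha.ne') (Polynomial.leadingCoeff_ne_zero.2 hν)
  have hle : (z : ℤ) ^ n ≤ |(a : ℤ) * (cc ν).leadingCoeff| :=
    Int.le_of_dvd (abs_pos.2 hne) ((dvd_abs _ _).2 hdv)
  have hle' : (z : ℝ) ^ n ≤ a * |((cc ν).leadingCoeff : ℝ)| := by
    have : (((z : ℤ) ^ n : ℤ) : ℝ) ≤ ((|(a : ℤ) * (cc ν).leadingCoeff| : ℤ) : ℝ) := by
      exact_mod_cast hle
    simpa [abs_mul] using this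
  have h2 : (a : ℝ) ≤ (2 ^ β) ^ n := by exact_mod_cast hs.a_le
  have h3 : (a : ℝ) * |((cc ν).leadingCoeff : ℝ)| ≤ (2 ^ β * K) ^ n := by
    rw [mul_pow]
    exact mul_le_mul h2 (h.size ν _) (abs_nonneg _) (by positivity)
  have h4 : (2 ^ β * K) ^ n < (z : ℝ) ^ n := pow_lt_pow_left₀ hz (by positivity) (by omega)
  linarith

end Pool.Agent.Lib.MP_4ffbf9_nt.QH
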