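import Mathlib
import Pool.Agent.Lib.MP_4ffbf9_nt.SP.AuxS
import Pool.Agent.Lib.MP_4ffbf9_nt.SP.AuxD
import Pool.Agent.Lib.MP_4ffbf9_nt.SP.AuxA
import Pool.Agent.Lib.MP_4ffbf9_nt.QH.Sb

/-!
The first auxiliary polynomial with explicit constants and vanishing order `5 J n` (the proofs are
those of the folder SP).
-/

set_option autoImplicit false

namespace Pool.Agent.Lib.MP_4ffbf9_nt.QH

open MvPolynomial Pool.Agent.Subspace Pool.Agent.Lib.MP_4ffbf9_nt.SP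

theorem aux_exists' (J : ℕ) (hJ : 1 ≤ J) (n : ℕ) (hn : 1 ≤ n) :
    ∃ (P : Fin (400 * J ^ 2 + 7) → R2) (cc : (Fin 2 →₀ ℕ) → Polynomial ℤ),
      Aux J n (2 ^ (8 * (200 * J ^ 2) + 8)) P cc := by
  classical
  obtain ⟨m, hm⟩ : ∃ m, m = 200 * J ^ 2 := ⟨_, rfl⟩
  have hm1 : 200 ≤ m := by rw [hm]; nlinarith
  rw [show (2 : ℝ) ^ (8 * (200 * J ^ 2) + 8) = 2 ^ (8 * m + 8) by rw [hm]]
  obtain ⟨D, hD⟩ : ∃ D, D = n * m := ⟨_, rfl⟩
  have hmD : m ≤ D := by rw [hD]; exact Nat.le_mul_of_pos_left _ hn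
  let up : Fin D × Fin D × Fin 9 → Polynomial ℤ := fun b =>
    Polynomial.X ^ al J n b.2.1 * (Polynomial.X + 1) ^ al J n b.1 * Polynomial.X ^ (b.2.2 : ℕ)
  have hup : ∀ b l, |(((up b).coeff l : ℤ) : ℝ)| ≤ 2 ^ D := fun b l =>
    (abs_coeff_up _ _ _ _).trans (pow_le_pow_right₀ (by norm_num)
      (((Nat.sub_le _ _).trans (Nat.sub_le _ _)).trans (hm ▸ hmD)))
  let A : Matrix (Fin (400 * J ^ 2 + 7) × Fin (20 * J * n) × Fin (20 * J * n))
      (Fin D × Fin D × Fin 9) ℤ := fun e b =>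
    coeff (ex2 e.2.1 e.2.2) (shift (fun _ => (1 : ℤ)) (monomial (ex2 b.1 b.2.1) ((up b).coeff e.1)))
  have hcard : Fintype.card (Fin D × Fin D × Fin 9) = 9 * D ^ 2 := by simp; ring
  have hD2 : ((9 * D ^ 2 : ℕ) : ℝ) ≤ 2 ^ (2 * D + 4) := by
    have h1 : D ≤ 2 ^ D := Nat.lt_two_pow_self.le
    have h2 : 9 * D ^ 2 ≤ 2 ^ (2 * D + 4) := by
      calc 9 * D ^ 2 ≤ 16 * (2 ^ D) ^ 2 := Nat.mul_le_mul (by norm_num) (Nat.pow_le_pow_left h1 2)
        _ = 2 ^ (2 * D + 4) := by ring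
    exact_mod_cast h2
  obtain ⟨p, hp0, hp, hpB⟩ := siegel_half A (B := 2 ^ (3 * D))
    (by
      rw [hcard]
      simp only [Fintype.card_prod, Fintype.card_fin]
      have : (400 * J ^ 2 + 7) * (20 * J * n * (20 * J * n)) = (2 * m + 7) * (2 * m) * n ^ 2 := by
        rw [hm]; ring
      rw [this, hD]
      calc 2 * ((2 * m + 7) * (2 * m) * n ^ 2) = (8 * m + 28) * m * n ^ 2 := by ring
        _ ≤ (9 * m) * m * n ^ 2 := by gcongr; omega
        _ = 9 * (n * m) ^ 2 := by ring)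
    (by rw [hcard]; have : 0 < D := by omega
        positivity) (one_le_pow₀ (by norm_num))
    (fun e b => (abs_coeff_shift_monomial _ _ _).trans (by
      calc (2 : ℝ) ^ (ex2 b.1 b.2.1 0 + ex2 b.1 b.2.1 1) * |(((up b).coeff e.1 : ℤ) : ℝ)|
          ≤ 2 ^ (2 * D) * 2 ^ D := by
            refine mul_le_mul (pow_le_pow_right₀ (by norm_num) ?_) (hup _ _) (abs_nonneg _)
              (by positivity)
            have := b.1.2
            have := b.2.1.2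
            simp only [ex2_zero, ex2_one]; omega
        _ = 2 ^ (3 * D) := by ring))
  have hpB' : ∀ b, |(p b : ℝ)| ≤ 2 ^ (5 * D + 4) := fun b => (hpB b).trans (by
    rw [hcard]
    calc _ ≤ (2 : ℝ) ^ (2 * D + 4) * 2 ^ (3 * D) := by gcongr
      _ = _ := by ring)
  have hK : (2 : ℝ) ^ (8 * D + 8) ≤ (2 ^ (8 * m + 8)) ^ n := by
    rw [← pow_mul]
    refine pow_le_pow_right₀ (by norm_num) ?_
    rw [hD]; nlinarith
  let cc : (Fin 2 →₀ ℕ) → Polynomial ℤ := fun ν =>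
    if h : ν 0 < D ∧ ν 1 < D then
      ∑ e : Fin 9, Polynomial.C (p (⟨ν 0, h.1⟩, ⟨ν 1, h.2⟩, e)) * Polynomial.X ^ (e : ℕ) else 0
  have hcc : ∀ (i j : Fin D) (e : Fin 9), (cc (ex2 i j)).coeff e = p (i, j, e) := by
    intro i j e
    simp only [cc, ex2_zero, ex2_one, Fin.is_lt, and_self, dif_pos, Fin.eta,
      Polynomial.finsetSum_coeff, Polynomial.coeff_C_mul_X_pow]
    rw [Finset.sum_eq_single e (fun e' _ h => if_neg fun h' => h (Fin.ext h'.symm)) (by simp)]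
    simp
  have hdeg : ∀ ν, (cc ν).natDegree ≤ 8 := by
    intro ν
    simp only [cc]
    split_ifs
    · refine Polynomial.natDegree_sum_le_of_forall_le _ _ fun e _ =>
        (Polynomial.natDegree_C_mul_X_pow_le _ _).trans (by have := e.2; omega)
    · simp
  refine ⟨fun l => ∑ b, C (p b) * monomial (ex2 b.1 b.2.1) ((up b).coeff l), cc,
    ?_, ?_, hdeg, ?_, ?_, ?_, ?_⟩
  · obtain ⟨b, hb⟩ := Function.ne_iff.mp hp0
    refine ⟨ex2 b.1 b.2.1, fun h => hb ?_⟩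
    have := hcc b.1 b.2.1 b.2.2
    rw [h] at this
    simpa using this.symm
  · intro ν hν i
    by_cases h : ν 0 < D ∧ ν 1 < D
    · rw [← hm, ← hD]; fin_cases i
      · exact h.1
      · exact h.2
    · exact absurd (dif_neg h) hν
  · intro ν e
    refine le_trans ?_ hK
    by_cases h : ν 0 < D ∧ ν 1 < D
    · by_cases he : e < 9
      · have := hcc ⟨ν 0, h.1⟩ ⟨ν 1, h.2⟩ ⟨e, he⟩
        simp only [ex2_eta] at this
        rw [this]
        exact (hpB' _).trans (pow_le_pow_right₀ (by norm_num) (by omega))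
      · rw [Polynomial.coeff_eq_zero_of_natDegree_lt (by have := hdeg ν; omega)]
        simp
    · have : cc ν = 0 := dif_neg h
      rw [this]; simp
  · intro ν l
    simp only [coeff_sum, coeff_C_mul, coeff_monomial]
    by_cases h : ν 0 < D ∧ ν 1 < D
    · have hc : cc ν = _ := dif_pos h
      rw [hc, Finset.mul_sum, Polynomial.finsetSum_coeff, Fintype.sum_prod_type,
        Finset.sum_eq_single ⟨ν 0, h.1⟩ _ (by simp), Fintype.sum_prod_type,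
        Finset.sum_eq_single ⟨ν 1, h.2⟩ _ (by simp)]
      · refine Finset.sum_congr rfl fun e _ => ?_
        simp only [ex2_eta, if_true, up]
        rw [mul_left_comm, Polynomial.coeff_C_mul]
      · intro j _ hj
        refine Finset.sum_eq_zero fun e _ => ?_
        rw [if_neg, mul_zero]
        intro h'
        exact hj (Fin.ext (congrArg (fun t => t 1) h'))
      · intro i _ hi
        refine Finset.sum_eq_zero fun e _ => ?_
        rw [if_neg, mul_zero]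
        intro h'
        exact hi (Fin.ext (congrArg (fun t => t 0) h'))
    · have hc : cc ν = 0 := dif_neg h
      rw [hc, mul_zero, Polynomial.coeff_zero]
      refine Finset.sum_eq_zero fun b _ => ?_
      rw [if_neg, mul_zero]
      intro h'
      exact h (by rw [← h']; exact ⟨b.1.2, b.2.1.2⟩)
  · intro l
    refine le_trans ?_ hK
    refine (l1_sum_le _ _).trans ?_
    calc ∑ b, l1 (C (p b) * monomial (ex2 b.1 b.2.1) ((up b).coeff l))
        ≤ ∑ _b : Fin D × Fin D × Fin 9, (2 : ℝ) ^ (5 * D + 4) * 2 ^ D := by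
          refine Finset.sum_le_sum fun b _ => (l1_mul_le _ _).trans ?_
          rw [l1_C, l1_monomial, Int.norm_eq_abs, Int.norm_eq_abs]
          exact mul_le_mul (hpB' b) (hup _ _) (abs_nonneg _) (by positivity)
      _ ≤ 2 ^ (2 * D + 4) * (2 ^ (5 * D + 4) * 2 ^ D) := by
          rw [Finset.sum_const, Finset.card_univ, hcard, nsmul_eq_mul]; gcongr
      _ = _ := by ring
  · intro l ν hν
    have := congrFun hp (l, ⟨ν 0, by omega⟩, ⟨ν 1, by omega⟩)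
    simp only [Matrix.mulVec, dotProduct, A, ex2_eta, Pi.zero_apply] at this
    rw [map_sum, coeff_sum, ← this]
    refine Finset.sum_congr rfl fun b _ => ?_
    rw [map_mul, ← algebraMap_eq, AlgHom.commutes, algebraMap_eq, coeff_C_mul, mul_comm]

theorem GG_small' {J β n a b c x y z : ℕ} {K : ℝ} {P : Fin (400 * J ^ 2 + 7) → R2}
    {cc : (Fin 2 →₀ ℕ) → Polynomial ℤ} (hJ : 1 ≤ J) (hn : 1 ≤ n) (hK : 1 ≤ K)
    (h : Aux J n K P cc) (hs : Sb β n a b c x y z) (hx : Near J x z) (hy : Near J y z)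
    (ν : Fin 2 →₀ ℕ) (hν : ν 0 + ν 1 ≤ 5 * (J * n)) :
    |((coeff ν (shift (pt x y z) (GG P (uu n a c x z))) : ℚ) : ℝ)| * (z : ℝ) ^ (15 * n) ≤
      (400 * J ^ 2 + 7) * (16 ^ (200 * J ^ 2) * K) ^ n := by
  have hz : (1 : ℝ) ≤ z := by exact_mod_cast hs.hz
  obtain ⟨η, h0, hη, hp⟩ : ∃ η : ℝ, 0 ≤ η ∧ η ^ J * z ≤ 1 ∧
      ∀ i, |((pt x y z i : ℚ) : ℝ) - 1| ≤ η := by
    refine ⟨max |(y : ℝ) / z - 1| |(x : ℝ) / z - 1|, le_max_of_le_left (abs_nonneg _), ?_,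
      fun i => ?_⟩
    · rcases max_choice |(y : ℝ) / z - 1| |(x : ℝ) / z - 1| with e | e
      · rw [e]
        exact hy
      · rw [e]
        exact hx
    · fin_cases i
      · simp [pt]
      · simp [pt]
  have h1 : η ≤ 1 := by
    have h2 : η ^ J ≤ 1 := by
      have h3 : η ^ J * 1 ≤ η ^ J * z := mul_le_mul_of_nonneg_left hz (by positivity)
      linarith
    exact (pow_le_one_iff_of_nonneg h0 (by omega)).mp h2
  have hu := uu_le hs
  have ht : ν 0 + ν 1 + J * (15 * n) ≤ 20 * J * n := by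
    nlinarith
  have hl : ∀ l : Fin (400 * J ^ 2 + 7),
      |((uu n a c x z : ℚ) : ℝ) ^ (l : ℕ) *
        coeff ν (shift (fun i => ((pt x y z i : ℚ) : ℝ)) (map (Int.castRingHom ℝ) (P l)))| *
          (z : ℝ) ^ (15 * n) ≤ (16 ^ (200 * J ^ 2) * K) ^ n := fun l => by
    have h2 := auxA_one (P l) (h.degLe l) (h.van l) _ h0 h1 hp ν ht
    have h3 : |((uu n a c x z : ℚ) : ℝ)| ^ (l : ℕ) ≤ 1 := pow_le_one₀ (abs_nonneg _) hu
    have h4 : η ^ (J * (15 * n)) * (z : ℝ) ^ (15 * n) ≤ 1 := by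
      rw [pow_mul, ← mul_pow]
      exact pow_le_one₀ (by positivity) hη
    have h5 := h.l1_le l
    have h6 := l1_nonneg (P l)
    rw [abs_mul, abs_pow]
    calc |((uu n a c x z : ℚ) : ℝ)| ^ (l : ℕ) *
          |coeff ν (shift (fun i => ((pt x y z i : ℚ) : ℝ)) (map (Int.castRingHom ℝ) (P l)))| *
            (z : ℝ) ^ (15 * n)
        ≤ 1 * (16 ^ (n * (200 * J ^ 2)) * l1 (P l) * η ^ (J * (15 * n))) * (z : ℝ) ^ (15 * n) :=
          mul_le_mul_of_nonneg_right (mul_le_mul h3 h2 (abs_nonneg _) zero_le_one)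
            (by positivity)
      _ = 16 ^ (n * (200 * J ^ 2)) * l1 (P l) * (η ^ (J * (15 * n)) * (z : ℝ) ^ (15 * n)) := by
          ring
      _ ≤ 16 ^ (n * (200 * J ^ 2)) * K ^ n * 1 :=
          mul_le_mul (mul_le_mul_of_nonneg_left h5 (by positivity)) h4 (by positivity)
            (by positivity)
      _ = (16 ^ (200 * J ^ 2) * K) ^ n := by
          rw [mul_one, mul_pow, ← pow_mul, mul_comm n]
  rw [auxA_coeff_GG]
  refine (mul_le_mul_of_nonneg_right (Finset.abs_sum_le_sum_abs _ _) (by positivity)).trans ?_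
  rw [Finset.sum_mul]
  refine (Finset.sum_le_sum fun l _ => hl l).trans ?_
  rw [Finset.sum_const, Finset.card_univ, Fintype.card_fin, nsmul_eq_mul]
  push_cast
  exact le_rfl

theorem GG_dvd' {J β n a b c x y z : ℕ} {K : ℝ} {P : Fin (400 * J ^ 2 + 7) → R2}
    {cc : (Fin 2 →₀ ℕ) → Polynomial ℤ} (hJ : 1 ≤ J) (hn : 1 ≤ n)
    (h : Aux J n K P cc) (hs : Sb β n a b c x y z) (ν : Fin 2 →₀ ℕ) :
    ∃ N : ℤ, (N : ℚ) = ((c : ℚ) * z ^ n) ^ (400 * J ^ 2 + 6) *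
        (z : ℚ) ^ (n * (400 * J ^ 2) - ν 0 - ν 1) *
        coeff ν (shift (pt x y z) (GG P (uu n a c x z))) ∧
      (x : ℤ) ^ (n * (200 * J ^ 2 - 1) - ν 1) * (y : ℤ) ^ (n * (200 * J ^ 2 - 1) - ν 0) *
        (z : ℤ) ^ (n * (400 * J ^ 2 - 2)) ∣ N := by
  obtain ⟨m, hm⟩ : ∃ m, 200 * J ^ 2 = m + 4 := ⟨200 * J ^ 2 - 4, by
    have : 1 ≤ J ^ 2 := Nat.one_le_pow _ _ hJ
    omega⟩
  have hm2 : 400 * J ^ 2 = 2 * m + 8 := by omega
  have hz : (z : ℚ) ≠ 0 := by have := hs.hz; positivity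
  have hc : (c : ℚ) ≠ 0 := by have := hs.hc; positivity
  have hu1 : uu n a c x z + 1 = (b : ℚ) * y ^ n / ((c : ℚ) * z ^ n) := by
    have he : (a : ℚ) * x ^ n + b * y ^ n = c * z ^ n := by exact_mod_cast hs.eq
    rw [uu]; field_simp; linear_combination -he
  rw [coeff_shift_D, Finset.mul_sum]
  refine Finset.sum_induction _ (fun q : ℚ => ∃ N : ℤ, (N : ℚ) = q ∧
    (x : ℤ) ^ (n * (200 * J ^ 2 - 1) - ν 1) * (y : ℤ) ^ (n * (200 * J ^ 2 - 1) - ν 0) *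
        (z : ℤ) ^ (n * (400 * J ^ 2 - 2)) ∣ N) ?_ ⟨0, by simp, dvd_zero _⟩ ?_
  · rintro q1 q2 ⟨N1, e1, d1⟩ ⟨N2, e2, d2⟩
    exact ⟨N1 + N2, by rw [Int.cast_add, e1, e2], dvd_add d1 d2⟩
  intro ρ hρ
  by_cases hle : ν ≤ ρ
  swap
  · exact ⟨0, by simp [binom_eq_zero hle], dvd_zero _⟩
  have hcc : cc ρ ≠ 0 := by
    intro h0
    rw [MvPolynomial.mem_support_iff, coeff_GG hJ h, h0] at hρ
    simp at hρ
  have hw : ((c : ℤ) * z ^ n) ≠ 0 := by
    have := hs.hz; have := hs.hc; positivity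
  obtain ⟨T, hT⟩ := aeval_int_D (h.deg ρ) (-((a : ℤ) * x ^ n)) _ hw
  push_cast at hT
  obtain ⟨r0, h0⟩ : ∃ r, ρ 0 = ν 0 + r := Nat.exists_eq_add_of_le (hle 0)
  obtain ⟨r1, h1⟩ : ∃ r, ρ 1 = ν 1 + r := Nat.exists_eq_add_of_le (hle 1)
  have key : ∀ i, i < n * (m + 4) → ∃ q A s t, al J n i = A ∧ A + q = m + 3 ∧ i = n * q + s ∧
      s + t = n := by
    intro i hi
    have h2 : i / n < m + 4 := Nat.div_lt_of_lt_mul hi
    have h3 : i % n < n := Nat.mod_lt _ hn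
    exact ⟨i / n, _, i % n, n - i % n, rfl, by rw [al, hm]; omega, (Nat.div_add_mod i n).symm,
      by omega⟩
  obtain ⟨q0, A0, s0, t0, a0, b0, c0, d0⟩ := key (ρ 0) (hm ▸ h.supp ρ hcc 0)
  obtain ⟨q1, A1, s1, t1, a1, b1, c1, d1⟩ := key (ρ 1) (hm ▸ h.supp ρ hcc 1)
  have f0 : n * A0 + n * q0 = n * m + 3 * n := by rw [← mul_add, b0]; ring
  have f1 : n * A1 + n * q1 = n * m + 3 * n := by rw [← mul_add, b1]; ring
  have g1 : n * (200 * J ^ 2 - 1) = n * m + 3 * n := by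
    rw [hm, show m + 4 - 1 = m + 3 by omega]; ring
  have g2 : n * (400 * J ^ 2 - 2) = 2 * (n * m) + 6 * n := by
    rw [hm2, show 2 * m + 8 - 2 = 2 * m + 6 by omega]; ring
  have g3 : n * (400 * J ^ 2) = 2 * (n * m) + 8 * n := by rw [hm2]; ring
  refine ⟨binom ρ ν * T * (-a) ^ A1 * b ^ A0 * c ^ (q0 + q1) *
    (x ^ (n * A1 + r1) * y ^ (n * A0 + r0) * z ^ (n * q0 + n * q1 + (n * A0 + n * A1 + t0 + t1))),
    ?_, Dvd.dvd.mul_left ?_ _⟩
  · have e1 : n * (400 * J ^ 2) - ν 0 - ν 1 = r0 + r1 + (n * A0 + n * A1 + t0 + t1) := by omega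
    have e2 : 400 * J ^ 2 + 6 = A1 + A0 + 8 + (q0 + q1) := by omega
    rw [coeff_GG hJ h, a0, a1, hu1, e1, e2, h0, h1, Nat.add_sub_cancel_left,
      Nat.add_sub_cancel_left]
    push_cast
    rw [hT]
    simp only [pt, uu, Matrix.cons_val_zero, Matrix.cons_val_one, neg_div]
    generalize Polynomial.aeval (-((a : ℚ) * x ^ n / (c * z ^ n))) (cc ρ) = V
    simp only [neg_pow ((a : ℚ) * x ^ n / (c * z ^ n)), neg_pow (a : ℚ), div_pow, mul_pow, pow_add,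
      pow_mul]
    field_simp
  · refine mul_dvd_mul (mul_dvd_mul ?_ ?_) ?_ <;> refine pow_dvd_pow _ ?_ <;> omega

theorem GG_van' {J : ℕ} (hJ : 1 ≤ J) {K : ℝ} (hK : 1 ≤ K) {β n a b c x y z : ℕ}
    {P : Fin (400 * J ^ 2 + 7) → R2} {cc : (Fin 2 →₀ ℕ) → Polynomial ℤ} (hn : 1 ≤ n)
    (hA : Aux J n K P cc) (hs : Sb β n a b c x y z)
    (hz : 2 ^ (400 * J ^ 2) * (2 ^ β) ^ (400 * J ^ 2 + 6) *
      ((400 * J ^ 2 + 7) * (16 ^ (200 * J ^ 2) * K)) < (z : ℝ))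
    (hx : Near J x z) (hy : Near J y z) :
    Van (pt x y z) (5 * (J * n)) (GG P (uu n a c x z)) := by
  obtain ⟨m, hm⟩ : ∃ m, J ^ 2 = m + 1 := ⟨J ^ 2 - 1, by have := Nat.one_le_pow 2 J hJ; omega⟩
  rw [show 400 * J ^ 2 + 6 = 400 * m + 406 by omega, show 400 * J ^ 2 = 400 * m + 400 by omega] at hz
  set T : ℝ := 2 ^ (400 * m + 400) * (2 ^ β) ^ (400 * m + 406) *
    ((400 * J ^ 2 + 7) * (16 ^ (200 * J ^ 2) * K)) with hT
  intro ν hν
  by_contra hne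
  obtain ⟨N, hN, hd⟩ := GG_dvd' hJ hn hA hs ν
  have hsm := GG_small' hJ hn hK hA hs hx hy ν hν.le
  set t : ℚ := coeff ν (shift (pt x y z) (GG P (uu n a c x z))) with ht
  have hz0 : (0 : ℝ) < z := by exact_mod_cast hs.hz
  have hz1 : (1 : ℝ) ≤ z := by exact_mod_cast hs.hz
  have hN0 : N ≠ 0 := by
    have h1 : (c : ℚ) ≠ 0 := by exact_mod_cast hs.hc.ne'
    have h2 : (z : ℚ) ≠ 0 := by exact_mod_cast hs.hz.ne'
    intro h
    rw [h, Int.cast_zero] at hN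
    exact absurd hN.symm (by positivity)
  have h1 : (x : ℝ) ^ (n * (200 * J ^ 2 - 1) - ν 1) * (y : ℝ) ^ (n * (200 * J ^ 2 - 1) - ν 0) *
      (z : ℝ) ^ (n * (400 * J ^ 2 - 2)) ≤ |(N : ℝ)| := by
    exact_mod_cast Int.le_of_dvd (abs_pos.2 hN0) ((dvd_abs _ _).2 hd)
  have h2 : |(N : ℝ)| = ((c : ℝ) * z ^ n) ^ (400 * J ^ 2 + 6) *
      (z : ℝ) ^ (n * (400 * J ^ 2) - ν 0 - ν 1) * |(t : ℝ)| := by
    have : (N : ℝ) = ((c : ℝ) * z ^ n) ^ (400 * J ^ 2 + 6) *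
      (z : ℝ) ^ (n * (400 * J ^ 2) - ν 0 - ν 1) * (t : ℝ) := by exact_mod_cast hN
    rw [this, abs_mul, abs_of_nonneg (by positivity)]
  have e1 : 200 * J ^ 2 - 1 = 200 * m + 199 := by omega
  have e0 : 5 * (J * n) ≤ n * (200 * J ^ 2 - 1) := by
    have : J ≤ m + 1 := by nlinarith
    rw [e1]; nlinarith
  obtain ⟨i, hi⟩ : ∃ i, n * (200 * J ^ 2 - 1) = ν 1 + i := Nat.exists_eq_add_of_le (by omega)
  obtain ⟨j, hj⟩ : ∃ j, n * (200 * J ^ 2 - 1) = ν 0 + j := Nat.exists_eq_add_of_le (by omega)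
  have e2 : 400 * J ^ 2 - 2 = 400 * m + 398 := by omega
  have e3 : n * (400 * J ^ 2) - ν 0 - ν 1 = i + j + 2 * n := by
    rw [e1] at hi hj
    have : n * (400 * J ^ 2) = ν 0 + ν 1 + (i + j + 2 * n) := by rw [hm]; nlinarith
    omega
  have e4 : i + j ≤ n * (400 * m + 400) := by rw [e1] at hi hj; nlinarith
  rw [show n * (200 * J ^ 2 - 1) - ν 1 = i by omega, show n * (200 * J ^ 2 - 1) - ν 0 = j by omega,
    e2, h2, e3, show 400 * J ^ 2 + 6 = 400 * m + 406 by omega] at h1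
  have hx2 : (z : ℝ) ≤ 2 * x := by exact_mod_cast hs.le_x
  have hy2 : (z : ℝ) ≤ 2 * y := by exact_mod_cast hs.le_y
  have hc2 : (c : ℝ) ≤ (2 ^ β) ^ n := by exact_mod_cast hs.c_le
  have h3 : (z : ℝ) ^ (i + j) ≤ 2 ^ (n * (400 * m + 400)) * (x ^ i * y ^ j) := by
    calc (z : ℝ) ^ (i + j) = z ^ i * z ^ j := pow_add _ _ _
      _ ≤ (2 * x) ^ i * (2 * y) ^ j := by gcongr
      _ = 2 ^ (i + j) * (x ^ i * y ^ j) := by ring
      _ ≤ _ := by gcongr; norm_num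
  have h4 : (400 * (J : ℝ) ^ 2 + 7) ≤ (400 * (J : ℝ) ^ 2 + 7) ^ n :=
    le_self_pow₀ (by nlinarith [sq_nonneg (J : ℝ)]) (by omega)
  have h5 : (z : ℝ) ^ (i + j + n * (400 * m + 408)) * z ^ (5 * n) ≤
      (z : ℝ) ^ (i + j + n * (400 * m + 408)) * T ^ n := by
    calc _ = (z : ℝ) ^ (i + j) * z ^ (n * (400 * m + 398)) * z ^ (15 * n) := by ring
      _ ≤ 2 ^ (n * (400 * m + 400)) * (x ^ i * y ^ j * z ^ (n * (400 * m + 398))) * z ^ (15 * n) := by
        rw [← mul_assoc]; gcongr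
      _ ≤ 2 ^ (n * (400 * m + 400)) * ((((2 : ℝ) ^ β) ^ n * z ^ n) ^ (400 * m + 406) *
          (z : ℝ) ^ (i + j + 2 * n) * |(t : ℝ)|) * z ^ (15 * n) := by
        gcongr _ * ?_ * _
        refine h1.trans ?_
        gcongr
      _ = (z : ℝ) ^ (i + j + n * (400 * m + 408)) *
          ((2 ^ (400 * m + 400) * (2 ^ β) ^ (400 * m + 406)) ^ n *
          (|(t : ℝ)| * z ^ (15 * n))) := by
        generalize (2 : ℝ) ^ β = w'
        generalize (2 : ℝ) = w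
        ring
      _ ≤ (z : ℝ) ^ (i + j + n * (400 * m + 408)) *
          ((2 ^ (400 * m + 400) * (2 ^ β) ^ (400 * m + 406)) ^ n *
          ((400 * (J : ℝ) ^ 2 + 7) ^ n * (16 ^ (200 * J ^ 2) * K) ^ n)) := by
        gcongr _ * (_ * ?_)
        refine hsm.trans ?_
        gcongr
      _ = _ := by simp only [hT, mul_pow]
  have h6 := le_of_mul_le_mul_left h5 (by positivity)
  have h7 : T ^ n < (z : ℝ) ^ n :=
    pow_lt_pow_left₀ hz (by positivity) (by omega)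
  exact absurd (h6.trans_lt h7) (not_lt.2 (pow_le_pow_right₀ hz1 (by omega)))

end Pool.Agent.Lib.MP_4ffbf9_nt.QH
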