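import Mathlib
import Pool.Agent.Shared.Subspace.Roth

/-!
Roth's lemma in two variables with an explicit constant (the inductive step is the one of
`Pool.Agent.Subspace.roth_lemma`).
-/

set_option autoImplicit false

namespace Pool.Agent.Lib.MP_4ffbf9_nt.QH

open MvPolynomial Finsupp Pool.Agent.Subspace

/-- The statement of Roth's lemma in `s` variables with parameters `θ`, `σ`. -/
def RothSt (s : ℕ) (θ σ : ℝ) : Prop :=
  ∀ (d : Fin s → ℕ) (x : Fin s → ℚ) (P : MvPolynomial (Fin s) ℤ), P ≠ 0 → (∀ h, 0 < d h) →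
    (∀ h h', h < h' → (d h : ℝ) ≤ σ * d h') → (∀ h, DegLe h (d h) P) →
    (∀ h, Real.log (l1 P) + ∑ h', (d h' : ℝ) ≤ σ * d h * Real.log (x h).den) →
    ¬ IdxGe (fun h => 1 / (d h : ℝ)) θ (shift x (map (Int.castRingHom ℚ) P))

theorem roth_step {s : ℕ} {t σ₁ σ : ℝ} (ht0 : 0 < t) (ht1 : t ≤ 1) (hσ₁ : 0 < σ₁) (hσ0 : 0 < σ)
    (hσa : σ ≤ σ₁ / 3) (hσb : σ ≤ t ^ 2 / 192) (IH : RothSt s (t ^ 2 / 64) σ₁) :
    RothSt (s + 1) t σ := by
  classical
  have hinj : Function.Injective (Int.castRingHom ℚ) := (Int.castRingHom ℚ).injective_int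
  intro d x P hP hd hdd hdeg hht hI
  set φ := Int.castRingHom ℚ
  set Pq := map φ P with hPq
  have hPq0 : Pq ≠ 0 := fun h => hP (map_injective _ hinj (by simpa using h))
  have hdegq : DegLe 0 (d 0) Pq := fun ν hν => hdeg 0 ν (support_map_subset φ P hν)
  obtain ⟨r, hr, f, g, hf, hg, hfg⟩ := exists_indep_decomp (tensL (R := ℚ) (s := s)) (d 0 + 1)
    (fun l => (finSuccEquiv ℚ s Pq).coeff l) (fun l => monomial (single 0 (l : ℕ)) 1)
  have hfg' : ∑ j, tens (f j) (g j) = Pq := hfg.trans (decomp_first Pq hdegq)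
  have hr0 : 0 < r := by
    rcases Nat.eq_zero_or_pos r with h | h
    · subst h
      exact absurd hfg'.symm (by simpa using hPq0)
    · exact h
  obtain ⟨μ, hμ, hU⟩ := wronskian f hf
  obtain ⟨μ', hμ', hV⟩ := wronskian g hg
  have hμ'1 : ∀ l, μ' l = single 0 (μ' l 0) := fun l => Finsupp.ext fun i => by
    rw [Subsingleton.elim i 0, single_eq_same]
  have hμ'2 : ∀ l, μ' l 0 ≤ l := fun l => by simpa using hμ' l
  set U := (Matrix.of fun i j => hasse (μ i) (f j)).det with hUdef
  set V := (Matrix.of fun i j => hasse (μ' i) (g j)).det with hVdef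
  set W : MvPolynomial (Fin (s + 1)) ℤ :=
    (Matrix.of fun i l => hasse (cons (μ' l 0) (μ i)) P).det with hW
  have hWq : map φ W = (Matrix.of fun i l => hasse (cons (μ' l 0) (μ i)) Pq).det := by
    rw [hW, RingHom.map_det]
    congr 1
    ext i l : 2
    simp [map_hasse, hPq]
  have hWt : map φ W = tens U V := by
    rw [hWq, hUdef, hVdef, ← det_tens]
    congr 1
    refine Matrix.ext fun i l => ?_
    simp only [Matrix.of_apply]
    rw [← hfg', map_sum]
    exact Finset.sum_congr rfl fun j _ => by rw [hasse_tens, ← hμ'1]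
  -- sizes
  have hd' : ∀ h, (0 : ℝ) < d h := fun h => by exact_mod_cast hd h
  set E : ℕ := ∑ h, d h with hE
  have hEc : ∑ h, (d h : ℝ) = E := by simp [hE]
  have hd0E : d 0 ≤ E := Finset.single_le_sum (f := d) (fun _ _ => Nat.zero_le _)
    (Finset.mem_univ 0)
  have hP1 := one_le_l1 hP
  have hlog0 : 0 ≤ Real.log (l1 P) := Real.log_nonneg hP1
  set Λ : ℝ := Real.log (l1 P) + E with hΛ
  rw [hEc] at hht
  have hE0 : (0 : ℝ) < E := lt_of_lt_of_le (hd' 0) (by exact_mod_cast hd0E)
  have hΛ0 : 0 < Λ := by positivity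
  have hr' : (0 : ℝ) < r := by exact_mod_cast hr0
  have hWl1 : l1 W ≤ Real.exp (2 * r * Λ) := by
    have h1 : l1 W ≤ r.factorial * (2 ^ E * l1 P) ^ r :=
      l1_det_le _ fun i l => l1_hasse_le _ _ fun ν hν =>
        Finset.sum_le_sum fun h _ => hdeg h ν hν
    have h2 : (r.factorial : ℝ) ≤ Real.exp E ^ r := by
      have h3 : (r.factorial : ℝ) ≤ (r : ℝ) ^ r := by exact_mod_cast Nat.factorial_le_pow r
      refine h3.trans (pow_le_pow_left₀ hr'.le ?_ _)
      have h4 : (r : ℝ) ≤ E + 1 := by exact_mod_cast (by omega : r ≤ E + 1)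
      exact h4.trans (Real.add_one_le_exp _)
    have h3 : (2 : ℝ) ^ E ≤ Real.exp E := by
      rw [← Real.exp_one_pow]
      exact pow_le_pow_left₀ (by norm_num) (by linarith [Real.add_one_le_exp 1]) _
    have h4 : l1 P ≤ Real.exp (2 * Real.log (l1 P)) := by
      conv_lhs => rw [← Real.exp_log (lt_of_lt_of_le one_pos hP1)]
      exact Real.exp_le_exp.mpr (by linarith)
    calc l1 W ≤ Real.exp E ^ r * (Real.exp E * Real.exp (2 * Real.log (l1 P))) ^ r := by
          refine h1.trans (mul_le_mul h2 (pow_le_pow_left₀ (by positivity) ?_ _) (by positivity)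
            (by positivity))
          exact mul_le_mul h3 h4 (by positivity) (by positivity)
      _ = _ := by
          rw [← mul_pow, ← Real.exp_add, ← Real.exp_add, ← Real.exp_nat_mul]
          congr 1
          rw [hΛ]; ring
  have hWdeg : ∀ h, DegLe h (r * d h) W := by
    intro h
    rw [degLe_iff]
    refine idxGe_det _ (fun _ _ => -(d h : ℝ))
      (fun i l => (degLe_iff _ _ _).mp ((hdeg h).hasse _)) fun π => ?_
    simp
  -- lower bound for the index of W
  have hlow : IdxGe (fun h => 1 / (d h : ℝ)) (r * t ^ 2 / 32) (shift x (map φ W)) := by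
    rw [hWq, AlgHom.map_det]
    refine idxGe_det _ (fun _ l => max 0 (t / 2 - (l : ℕ) / (d 0 : ℝ))) (fun i l => ?_)
      fun π => ?_
    · simp only [AlgHom.mapMatrix_apply, Matrix.map_apply, Matrix.of_apply]
      rw [← hasse_shift]
      rcases max_cases 0 (t / 2 - (l : ℕ) / (d 0 : ℝ)) with h | h
      · rw [h.1]
        exact idxGe_of_nonneg (fun h => by positivity) _
      · rw [h.1]
        refine (hI.hasse _).mono ?_
        rw [weight_cons]
        have h1 : (μ' l 0 : ℝ) * (1 / d 0) ≤ (l : ℕ) / (d 0 : ℝ) := by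
          rw [mul_one_div]
          exact div_le_div_of_nonneg_right (by exact_mod_cast hμ'2 l) (hd' 0).le
        have h2 : weight (fun h : Fin s => 1 / (d h.succ : ℝ)) (μ i) ≤ σ := by
          rw [weight_eq_sum]
          calc ∑ h : Fin s, μ i h • (1 / (d h.succ : ℝ))
              ≤ ∑ h : Fin s, (μ i h : ℝ) * (σ / d 0) := by
                refine Finset.sum_le_sum fun h _ => ?_
                rw [nsmul_eq_mul]
                refine mul_le_mul_of_nonneg_left ?_ (by positivity)
                rw [div_le_div_iff₀ (hd' _) (hd' _), one_mul]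
                exact hdd 0 h.succ (Fin.succ_pos h)
            _ = (∑ h : Fin s, μ i h : ℕ) * (σ / d 0) := by
                rw [← Finset.sum_mul]; push_cast; rfl
            _ ≤ d 0 * (σ / d 0) := by
                refine mul_le_mul_of_nonneg_right ?_ (by positivity)
                have := hμ i
                have := i.2
                exact_mod_cast (by omega : ∑ h : Fin s, μ i h ≤ d 0)
            _ = σ := by field_simp [(hd' 0).ne']
        nlinarith
    · refine le_trans (le_of_eq ?_) (sum_max_ge (θ := t / 2) (by positivity) (by linarith)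
        (hd 0) hr)
      ring
  -- upper bound
  obtain ⟨ν₀, hν₀⟩ := MvPolynomial.support_nonempty.mpr hU
  obtain ⟨e₀, he₀⟩ := MvPolynomial.support_nonempty.mpr hV
  have he₀' : e₀ = single 0 (e₀ 0) := Finsupp.ext fun i => by
    rw [Subsingleton.elim i 0, single_eq_same]
  rw [MvPolynomial.mem_support_iff] at hν₀ he₀
  obtain ⟨U', hU'c, hU'l⟩ := exists_slice W (φ := fun ν : Fin s →₀ ℕ => cons (e₀ 0) ν)
    (cons_right_injective _)
  obtain ⟨V', hV'c, hV'l⟩ := exists_slice W (φ := fun e : Fin 1 →₀ ℕ => cons (e 0) ν₀)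
    (fun a c h => Finsupp.ext fun i => by
      rw [Subsingleton.elim i 0]; exact (cons_injective2 h).1)
  have hU'm : map φ U' = C (coeff e₀ V) * U := by
    ext ν
    rw [coeff_map, hU'c, ← coeff_map, hWt, coeff_tens, coeff_C_mul, ← he₀', mul_comm]
  have hV'm : map φ V' = C (coeff ν₀ U) * V := by
    refine MvPolynomial.ext _ _ fun e => ?_
    have he : e = single 0 (e 0) := Finsupp.ext fun i => by
      rw [Subsingleton.elim i 0, single_eq_same]
    rw [coeff_map, hV'c, ← coeff_map, hWt, coeff_tens, coeff_C_mul, ← he]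
  have hU'0 : U' ≠ 0 := by
    intro h
    rw [h, map_zero] at hU'm
    exact mul_ne_zero (by simpa using he₀) hU hU'm.symm
  have hV'0 : V' ≠ 0 := by
    intro h
    rw [h, map_zero] at hV'm
    exact mul_ne_zero (by simpa using hν₀) hV hV'm.symm
  have hlogden : ∀ h, 0 < Real.log (x h).den := by
    intro h
    by_contra hc
    push Not at hc
    have := hht h
    have h2 : σ * d h * Real.log (x h).den ≤ 0 :=
      mul_nonpos_of_nonneg_of_nonpos (by have := hd' h; positivity) hc
    linarith
  have hIU := IH (fun h => r * d h.succ) (fun h => x h.succ) U' hU'0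
    (fun h => Nat.mul_pos hr0 (hd _))
    (fun h h' hh => by
      have h1 := hdd h.succ h'.succ (Fin.succ_lt_succ_iff.mpr hh)
      have h2 := hd' h'.succ
      push_cast
      have : σ * d h'.succ ≤ σ₁ * d h'.succ := by nlinarith
      nlinarith)
    (fun h ν hν => by
      rw [MvPolynomial.mem_support_iff, hU'c] at hν
      simpa using hWdeg h.succ _ (MvPolynomial.mem_support_iff.mpr hν))
    (fun h => by
      have h1 : Real.log (l1 U') ≤ 2 * r * Λ := by
        rw [Real.log_le_iff_le_exp (lt_of_lt_of_le one_pos (one_le_l1 hU'0))]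
        exact hU'l.trans hWl1
      have h2 : ∑ h' : Fin s, ((r * d h'.succ : ℕ) : ℝ) ≤ r * Λ := by
        push_cast
        rw [← Finset.mul_sum]
        refine mul_le_mul_of_nonneg_left ?_ hr'.le
        rw [Fin.sum_univ_succ] at hEc
        linarith [hd' 0]
      have h3 := hht h.succ
      have h4 := hlogden h.succ
      have h5 := hd' h.succ
      have h6 : σ * d h.succ * Real.log (x h.succ).den ≤
          σ₁ / 3 * d h.succ * Real.log (x h.succ).den := by gcongr
      push_cast at h2 ⊢
      nlinarith)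
  obtain ⟨e, he, hel⟩ := roth_one (x 0) hV'0
  unfold IdxGe at hIU
  push Not at hIU
  obtain ⟨ν, hν, hνw⟩ := hIU
  rw [MvPolynomial.mem_support_iff, hU'm, map_mul, shift, aeval_C, algebraMap_eq,
    coeff_C_mul] at hν
  rw [hV'm, map_mul, shift, aeval_C, algebraMap_eq, coeff_C_mul] at he
  have hmem : cons e ν ∈ (shift x (map φ W)).support := by
    rw [MvPolynomial.mem_support_iff, hWt, shift_tens, coeff_tens]
    exact mul_ne_zero (right_ne_zero_of_mul hν) (right_ne_zero_of_mul he)
  have hfin := hlow _ hmem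
  rw [weight_cons] at hfin
  have h1 : weight (fun h : Fin s => 1 / (d h.succ : ℝ)) ν =
      r * weight (fun h : Fin s => 1 / ((r * d h.succ : ℕ) : ℝ)) ν := by
    rw [weight_eq_sum, weight_eq_sum, Finset.mul_sum]
    refine Finset.sum_congr rfl fun h _ => ?_
    have := hd' h.succ
    push_cast
    simp only [nsmul_eq_mul]
    field_simp
  have h2 : (e : ℝ) * (1 / d 0) ≤ 2 * r * σ := by
    have h3 : (e : ℝ) * Real.log (x 0).den ≤ 2 * r * Λ := by
      rw [← Real.log_pow, Real.log_le_iff_le_exp (by have := (x 0).den_pos; positivity)]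
      exact hel.trans (hV'l.trans hWl1)
    have h4 : (e : ℝ) * Real.log (x 0).den ≤ (2 * r * σ * d 0) * Real.log (x 0).den := by
      have := hht 0
      nlinarith
    rw [mul_one_div, div_le_iff₀ (hd' 0)]
    exact le_of_mul_le_mul_right h4 (hlogden 0)
  rw [h1] at hfin
  nlinarith

theorem roth_base (θ : ℝ) : RothSt 1 θ θ := by
  intro d x P hP hd _ _ hht hI
  obtain ⟨e, he, hel⟩ := roth_one (x 0) hP
  have hx : x = fun _ => x 0 := funext fun i => by rw [Subsingleton.elim i 0]
  have h1 := hI (single 0 e) (by rw [MvPolynomial.mem_support_iff, hx]; exact he)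
  have hd' : (0 : ℝ) < d 0 := by exact_mod_cast hd 0
  rw [weight_single, nsmul_eq_mul, mul_one_div, le_div_iff₀ hd'] at h1
  have h2 := hht 0
  rw [Fin.sum_univ_one] at h2
  have h3 : (1 : ℝ) ≤ (x 0).den := by exact_mod_cast (x 0).den_pos
  have h4 := Real.log_le_log (by positivity) hel
  rw [Real.log_pow] at h4
  have h5 := mul_le_mul_of_nonneg_right h1 (Real.log_nonneg h3)
  linarith

theorem roth_two {t : ℝ} (ht0 : 0 < t) (ht1 : t ≤ 1) : RothSt 2 t (t ^ 2 / 192) :=
  roth_step ht0 ht1 (σ₁ := t ^ 2 / 64) (by positivity) (by positivity) (by linarith) le_rfl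
    (roth_base _)

end Pool.Agent.Lib.MP_4ffbf9_nt.QH
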