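import Mathlib
import Pool.Agent.Lib.MP_4ffbf9_nt.H.Step
import Pool.Agent.Lib.MP_4ffbf9_nt.QH.Aux2
import Pool.Agent.Lib.MP_4ffbf9_nt.QH.Roth2
import Pool.Agent.Lib.MP_4ffbf9_nt.QH.Sb

/-!
The zero lemma with explicit constants.
-/

set_option autoImplicit false

namespace Pool.Agent.Lib.MP_4ffbf9_nt.QH

open MvPolynomial Finset Pool.Agent.Subspace Pool.Agent.Lib.MP_4ffbf9_nt.SP
  Pool.Agent.Lib.MP_4ffbf9_nt.H

theorem lemmaZq {e κ β n a b c x y z N μ : ℕ} (he : 1 ≤ e) (hκ : 1 ≤ κ)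
    (hs : Sb β n a b c x y z) (hn : 49152 * e ^ 2 ≤ n)
    (hz : 2 ^ (16777216 * κ * e ^ 2 + 4 * β * e) ≤ z) {V : R2} (hV : V ≠ 0)
    (hD : DegLe 1 N V) (hl : l1 V ≤ 2 ^ (κ * N)) (hμ : 1 ≤ μ) (hN : N ≤ e * μ) :
    ¬ Van (pt x y z) μ (toQ V) := by
  classical
  intro hvan
  set s₁ : ℤ := (a : ℤ) * (x ^ n : ℕ) with hs1
  set s₃ : ℤ := (c : ℤ) * (z ^ n : ℕ) with hs3
  have z0 := hs.hz
  have c0 := hs.hc
  have a0 := hs.ha
  have heq : s₁ + b * y ^ n = s₃ := by rw [hs1, hs3]; exact_mod_cast hs.eq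
  have s30 : s₃ ≠ 0 := by rw [hs3]; positivity
  have z0' : (z : ℤ) ≠ 0 := by positivity
  obtain ⟨R, hR, r0, r1, rl, ry⟩ := exists_trail (n := n) (s := (s₃ : ℚ)) hs.hy z0 hV hD hvan
  have ee : e ≤ e ^ 2 := by nlinarith
  obtain ⟨v, hve⟩ : ∃ v, v = 8 * N + 32 := ⟨_, rfl⟩
  obtain ⟨u, hu⟩ : ∃ u, u = v * n := ⟨_, rfl⟩
  obtain ⟨d, hd⟩ : ∃ d, d = 16 * e * v := ⟨_, rfl⟩
  obtain ⟨D, hD'⟩ : ∃ D, D = 16 * e * u := ⟨_, rfl⟩
  have eu : u ≤ e * u := Nat.le_mul_of_pos_left _ he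
  obtain ⟨K, hK⟩ : ∃ K, K + 3 * u = D := ⟨D - 3 * u, by rw [hD', mul_assoc]; omega⟩
  obtain ⟨F, hF, f0, f1, i1, i3, fl, fy⟩ := aux2 he hκ (by omega : e ≤ n) hμ hN hve.ge hR r0 r1
    (rl.trans hl) hu hd hD' hK
  have n0 : 0 < n := by omega
  have d0 : 0 < d := by rw [hd]; have : 0 < v := by omega
                        positivity
  have hnd : D = n * d := by rw [hD', hd, hu]; ring
  have D0 : 0 < D := by rw [hnd]; positivity
  have dD : d ≤ D := by rw [hnd]; exact Nat.le_mul_of_pos_left _ n0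
  have e' : (1 : ℝ) ≤ e := by exact_mod_cast he
  have κ' : (1 : ℝ) ≤ κ := by exact_mod_cast hκ
  have d' : (0 : ℝ) < d := by exact_mod_cast d0
  have D' : (0 : ℝ) < D := by exact_mod_cast D0
  have n' : (0 : ℝ) < n := by exact_mod_cast n0
  have zr : (0 : ℝ) < z := by exact_mod_cast z0
  have nd' : (D : ℝ) = n * d := by exact_mod_cast hnd
  have l2 := Real.log_two_gt_d9
  have l2' := Real.log_two_lt_d9
  set σ : ℝ := (1 / (16 * e)) ^ 2 / 192 with hσ
  have σe : σ * (49152 * e ^ 2) = 1 := by rw [hσ]; field_simp; norm_num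
  have σ0 : 0 < σ := by positivity
  have β0 : 0 ≤ β * Real.log 2 := by positivity
  have hlz : 205 * κ ≤ σ * (Real.log z - β * Real.log 2) := by
    have t0 : β ≤ 4 * β * e := by nlinarith
    have t1 : (2 : ℝ) ^ (16777216 * κ * e ^ 2 + β) ≤ z := by
      exact_mod_cast (Nat.pow_le_pow_right two_pos (by omega)).trans hz
    have t2 := Real.log_le_log (by positivity) t1
    rw [Real.log_pow] at t2
    push_cast at t2
    have t3 : (1 : ℝ) ≤ κ * e ^ 2 := one_le_mul_of_one_le_of_one_le κ' (one_le_pow₀ e')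
    have t4 : 205 * κ * (49152 * (e : ℝ) ^ 2) ≤ Real.log z - β * Real.log 2 := by nlinarith
    calc (205 * κ : ℝ) = σ * (205 * κ * (49152 * (e : ℝ) ^ 2)) := by
          linear_combination (-205 * κ : ℝ) * σe
      _ ≤ _ := mul_le_mul_of_nonneg_left t4 σ0.le
  have hlog : Real.log (l1 F) + ((d : ℝ) + D) ≤ 205 * κ * D := by
    have t1 := Real.log_le_log (by linarith [one_le_l1 hF]) fl
    rw [Real.log_pow] at t1
    push_cast at t1
    have t2 : (d : ℝ) ≤ D := by exact_mod_cast dD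
    have t3 : (D : ℝ) ≤ κ * D := le_mul_of_one_le_left D'.le κ'
    nlinarith
  have g1 : n * (Real.log z - β * Real.log 2) ≤ Real.log ((s₁ : ℚ) / s₃).den := by
    have t1 := log_den_ge (w := z ^ n) (n := x ^ n) (G := 1) (c := a) (d := c) (by positivity)
      (by positivity) (by positivity) (Nat.Coprime.pow n n hs.cxz).le
    have t2 : Real.log |((a : ℤ) : ℝ)| ≤ n * (β * Real.log 2) := by
      rw [← Real.log_pow, ← Real.log_pow, Int.cast_natCast, Nat.abs_cast]
      exact Real.log_le_log (by exact_mod_cast a0) (by exact_mod_cast hs.a_le)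
    rw [Nat.cast_pow, Real.log_pow, Nat.cast_one, Real.log_one] at t1
    linarith
  have g2 : Real.log z ≤ Real.log (((x : ℤ) : ℚ) / (z : ℤ)).den := by
    simpa using log_den_ge (w := z) (n := x) (G := 1) (c := 1) (d := 1) z0 one_ne_zero one_ne_zero
      hs.cxz.le
  have hR2 := roth_two (t := 1 / (16 * e)) (by positivity)
    (by rw [div_le_one (by positivity)]; linarith) ![d, D]
    ![(s₁ : ℚ) / s₃, ((x : ℤ) : ℚ) / (z : ℤ)] F hF
    (by intro h; fin_cases h; exacts [d0, D0])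
    (by
      intro h h' hh
      fin_cases h <;> fin_cases h'
      · exact absurd hh (lt_irrefl _)
      · have t1 : (49152 * (e : ℝ) ^ 2) ≤ n := by exact_mod_cast hn
        have t2 : 1 ≤ σ * n := σe ▸ mul_le_mul_of_nonneg_left t1 σ0.le
        change (d : ℝ) ≤ σ * D
        rw [nd']; nlinarith
      · exact absurd hh (by decide)
      · exact absurd hh (lt_irrefl _))
    (by intro h; fin_cases h; exacts [f0, f1])
    (by
      intro h
      rw [Fin.sum_univ_two]
      fin_cases h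
      · have t1 := mul_le_mul_of_nonneg_left g1 (mul_pos σ0 d').le
        refine hlog.trans (le_trans ?_ t1)
        calc _ ≤ σ * (Real.log z - β * Real.log 2) * D := mul_le_mul_of_nonneg_right hlz D'.le
          _ = σ * d * (n * (Real.log z - β * Real.log 2)) := by rw [nd']; ring
      · have t1 := mul_le_mul_of_nonneg_left g2 (mul_pos σ0 D').le
        have t2 := mul_pos σ0 D'
        have t3 : 205 * (κ : ℝ) * D ≤ σ * D * Real.log z := by
          nlinarith [mul_le_mul_of_nonneg_right hlz D'.le, mul_nonneg t2.le β0]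
        exact hlog.trans (t3.trans t1))
  unfold IdxGe at hR2
  push Not at hR2
  obtain ⟨ν, hν, hw⟩ := hR2
  rw [Finsupp.weight_eq_sum, Fin.sum_univ_two] at hw
  simp only [Matrix.cons_val_zero, Matrix.cons_val_one, nsmul_eq_mul, mul_one_div] at hw
  have hτ : n * ν 0 + ν 1 ≤ u := by
    have t1 : (D : ℝ) = 16 * e * u := by exact_mod_cast hD'
    have t2 : ((ν 0 : ℝ) / d + ν 1 / D) * D = n * ν 0 + ν 1 := by rw [nd']; field_simp
    have t3 : 1 / (16 * (e : ℝ)) * D = u := by rw [t1]; field_simp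
    have t4 := mul_le_mul_of_nonneg_right hw.le D'.le
    rw [t2, t3] at t4
    exact_mod_cast t4
  set Q := hasse ν F with hQ
  have hQk : DegLe 0 d Q := f0.hasse ν
  have hQD : DegLe 1 D Q := f1.hasse ν
  set M := hv d D s₁ s₃ x z Q with hM
  have s30' : (s₃ : ℚ) ≠ 0 := by exact_mod_cast s30
  have zq : ((z : ℤ) : ℚ) ≠ 0 := by exact_mod_cast z0'
  have hMe : (M : ℚ) = ((z : ℤ) ^ D : ℤ) * ((s₃ : ℚ) ^ d *
      coeff ν (shift ![(s₁ : ℚ) / s₃, ((x : ℤ) : ℚ) / (z : ℤ)] (toQ F))) := by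
    rw [hM, hv_eq s30 z0' s₁ x hQk hQD, coeff_shift, ← map_hasse, eval_map, aeval_def]
    push_cast
    rw [mul_comm ((s₃ : ℚ) ^ d), mul_assoc]
    rfl
  have hM0 : M ≠ 0 := by
    intro h
    rw [h, Int.cast_zero] at hMe
    refine MvPolynomial.mem_support_iff.1 hν ?_
    have := (mul_eq_zero.1 hMe.symm).resolve_left (by exact_mod_cast pow_ne_zero D z0')
    exact (mul_eq_zero.1 this).resolve_left (pow_ne_zero _ s30')
  have hKu : u ≤ K := by rw [hD', mul_assoc] at hK; omega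
  have v1 : x ^ (K - u) ∣ M.natAbs := by
    rw [← Int.natCast_dvd, Nat.cast_pow]
    refine dvd_hv (p := n) _ _ (by rw [hs1, Nat.cast_pow]; exact Dvd.intro_left _ rfl) dvd_rfl
      fun ρ hρ => ?_
    have := i1 _ (mem_support_hasse hρ)
    simp only [Finsupp.add_apply, mul_add] at this
    omega
  have v3 : z ^ K ∣ M.natAbs := by
    rw [← Int.natCast_dvd, Nat.cast_pow]
    refine dvd_hv' (p := n) _ _ (by rw [hs3, Nat.cast_pow]; exact Dvd.intro_left _ rfl) dvd_rfl
      fun ρ hρ => ?_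
    have := i3 _ (mem_support_hasse hρ)
    simp only [Finsupp.add_apply] at this
    exact this.trans (add_le_add (Nat.mul_le_mul_left _ (by omega)) (by omega))
  have v2 : y ^ (11 * u) ∣ M.natAbs := by
    rw [← Int.natCast_dvd, Nat.cast_pow]
    refine Dv.dvd hs.cyz ?_
    rw [hMe]
    have t1 := fy y z s₃ ![(s₁ : ℚ) / s₃, ((x : ℤ) : ℚ) / (z : ℤ)] ?_ (by simpa using ry _) ?_ ν
    · exact ((Dv.int _).mul t1).mono (by omega)
    · rw [map_sub, map_X, map_one, map_sub, shift_X, map_one, add_sub_right_comm, ← C_1, ← map_sub]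
      refine Yv.add (Yv.C ⟨-b, 0, ?_⟩) (Yv.monomial _ (by simpa using Dv.int s₃))
      have : (s₁ : ℚ) + b * y ^ n = s₃ := by exact_mod_cast heq
      simp only [Matrix.cons_val_zero]
      push_cast
      field_simp
      linear_combination -this
    · rw [map_X, shift_X]
      exact Yv.add (Yv.C (by simpa using Dv.div z0 x)) (Yv.X 1)
  have m1 := mul_le_of_dvd (Int.natAbs_pos.mpr hM0) v1 v2 v3
  rw [Nat.Coprime.pow _ _ hs.cxy, Nat.Coprime.pow _ _ hs.cxz, Nat.Coprime.pow _ _ hs.cyz,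
    mul_one, mul_one, mul_one] at m1
  have m2 : |(M : ℝ)| ≤ 2 ^ (d + D) * 2 ^ (203 * κ * D) *
      (((2 ^ β * z) ^ n) ^ d * (2 * z) ^ D * 1 ^ 0) := by
    have t1 : |(s₃ : ℝ)| ≤ (2 ^ β * z) ^ n := by
      rw [hs3, mul_pow]
      push_cast
      rw [abs_of_nonneg (by positivity)]
      exact mul_le_mul_of_nonneg_right (by exact_mod_cast hs.c_le) (by positivity)
    have t2 : |(s₁ : ℝ)| ≤ (2 ^ β * z) ^ n * 1 ^ 0 := by
      rw [pow_zero, mul_one]
      refine le_trans ?_ t1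
      have t3 : (0 : ℤ) ≤ s₁ := by rw [hs1]; positivity
      have t4 : (0 : ℤ) ≤ b * y ^ n := by positivity
      exact_mod_cast abs_le_abs (by omega : s₁ ≤ s₃) (by omega)
    refine (abs_hv_le (m := 0) zero_le_one le_rfl t2 t1 ?_ ?_ hQk hQD fun _ _ => Nat.zero_le _).trans
      (mul_le_mul_of_nonneg_right ?_ (by positivity))
    · rw [Int.cast_natCast, Nat.abs_cast, mul_one]; exact_mod_cast hs.x_le
    · rw [Int.cast_natCast, Nat.abs_cast]; linarith
    · refine (l1_hasse_le ν F (E := d + D) fun ρ hρ => ?_).trans (by gcongr)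
      rw [Fin.sum_univ_two]
      exact add_le_add (f0 ρ hρ) (f1 ρ hρ)
  have m3 : M.natAbs ≤ 2 ^ (d + D) * 2 ^ (203 * κ * D) *
      (((2 ^ β * z) ^ n) ^ d * (2 * z) ^ D) := by
    rw [← Int.cast_abs, Int.abs_eq_natAbs, pow_zero, mul_one] at m2
    exact_mod_cast m2
  obtain ⟨k, rfl⟩ := Nat.exists_eq_add_of_le hKu
  rw [Nat.add_sub_cancel_left] at m1
  have κD : D ≤ κ * D := Nat.le_mul_of_pos_left _ hκ
  have m4 : z ^ (2 * D) * z ^ (4 * u) ≤
      z ^ (2 * D) * (2 ^ (836 * κ * e + 4 * β * e)) ^ (4 * u) := by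
    calc z ^ (2 * D) * z ^ (4 * u) = z ^ k * z ^ (11 * u) * z ^ (u + k) := by
          rw [← pow_add, ← pow_add, ← pow_add]; congr 1; omega
      _ ≤ (2 * x) ^ k * (2 * y) ^ (11 * u) * z ^ (u + k) := by
          gcongr
          exacts [hs.le_x, hs.le_y]
      _ = 2 ^ (k + 11 * u) * (x ^ k * y ^ (11 * u) * z ^ (u + k)) := by
          rw [mul_pow, mul_pow, pow_add]; ring
      _ ≤ 2 ^ (k + 11 * u) * (2 ^ (d + D) * 2 ^ (203 * κ * D) *
          (((2 ^ β * z) ^ n) ^ d * (2 * z) ^ D)) := Nat.mul_le_mul_left _ (m1.trans m3)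
      _ = z ^ (2 * D) * 2 ^ (k + 11 * u + (d + D) + 203 * κ * D + D + β * D) := by
          rw [← pow_mul, ← hnd, mul_pow, mul_pow, ← pow_mul, two_mul D]
          simp only [pow_add]; ring
      _ ≤ _ := by
          rw [← pow_mul]
          refine Nat.mul_le_mul_left _ (Nat.pow_le_pow_right (by norm_num) ?_)
          have t1 : (836 * κ * e + 4 * β * e) * (4 * u) = 209 * (κ * D) + β * D := by
            rw [hD']; ring
          have t2 : 16 * u ≤ D := by rw [hD', mul_assoc]; omega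
          rw [t1, mul_assoc]; omega
  have u0 : 0 < u := by rw [hu]; exact Nat.mul_pos (by omega) n0
  have m5 := (Nat.pow_le_pow_iff_left (by omega)).1 (Nat.le_of_mul_le_mul_left m4 (by positivity))
  have m6 := (Nat.pow_le_pow_iff_right (by norm_num)).1 (hz.trans m5)
  have : 0 < κ * e := Nat.mul_pos hκ he
  nlinarith [Nat.mul_le_mul_left κ ee]

end Pool.Agent.Lib.MP_4ffbf9_nt.QH
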