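import Mathlib
import Pool.Agent.Lib.MP_4ffbf9_nt.SP.Win
import Pool.Agent.Lib.MP_4ffbf9_nt.QH.Zq
import Pool.Agent.Lib.MP_4ffbf9_nt.QH.Van

/-!
The window theorem of the folder SP with explicit dependence on `J`.
-/

set_option autoImplicit false

namespace Pool.Agent.Lib.MP_4ffbf9_nt.QH

open MvPolynomial Pool.Agent.Subspace Pool.Agent.Lib.MP_4ffbf9_nt.SP

theorem size_le {r D n q : ℕ} (h1 : r ≤ D) (h2 : q * n ≤ 9 * D) :
    (r.factorial : ℝ) * (4 ^ D * (2 ^ q) ^ n) ^ r ≤ 2 ^ (12 * (r * D)) := by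
  have a1 : r.factorial ≤ 2 ^ (r * D) := by
    calc r.factorial ≤ r ^ r := Nat.factorial_le_pow r
      _ ≤ (2 ^ D) ^ r := Nat.pow_le_pow_left (h1.trans Nat.lt_two_pow_self.le) r
      _ = 2 ^ (r * D) := by rw [← pow_mul, mul_comm]
  have a2 : (r.factorial : ℝ) ≤ 2 ^ (r * D) := by exact_mod_cast a1
  have a3 : (4 : ℝ) ^ D * (2 ^ q) ^ n ≤ 2 ^ (11 * D) := by
    rw [show (4 : ℝ) = 2 ^ 2 by norm_num, ← pow_mul, ← pow_mul, ← pow_add]
    exact pow_le_pow_right₀ one_le_two (by omega)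
  calc (r.factorial : ℝ) * (4 ^ D * (2 ^ q) ^ n) ^ r ≤ 2 ^ (r * D) * (2 ^ (11 * D)) ^ r := by
        gcongr
    _ = 2 ^ (12 * (r * D)) := by
        rw [← pow_mul, ← pow_add]
        congr 1
        ring

/-- The window theorem with explicit thresholds. -/
theorem windowQ {J β n a b c x y z : ℕ} (hJ : 1 ≤ J) (hn : 10 ^ 17 * J ^ 6 ≤ n)
    (hz : 2 ^ (10 ^ 17 * J ^ 6 + 10 ^ 5 * (β * J ^ 3)) ≤ z) (ha : 0 < a) (hb : 0 < b) (hc : 0 < c)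
    (a2 : a ≤ (2 ^ β) ^ n) (c2 : c ≤ (2 ^ β) ^ n) (cxy : Nat.Coprime x y) (cxz : Nat.Coprime x z)
    (cyz : Nat.Coprime y z) (hx : Near J x z) (hy : Near J y z) :
    a * x ^ n + b * y ^ n ≠ c * z ^ n := by
  intro heq
  have j2 : 1 ≤ J ^ 2 := Nat.one_le_pow 2 J hJ
  have j12 : J ≤ J ^ 2 := by nlinarith
  have j13 : J ≤ J ^ 3 := Nat.le_self_pow (by norm_num) J
  have j26 : J ^ 2 ≤ J ^ 6 := Nat.pow_le_pow_right hJ (by norm_num)
  have b1 : β * J ^ 2 ≤ β * J ^ 3 :=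
    Nat.mul_le_mul_left _ (Nat.pow_le_pow_right hJ (by norm_num))
  have b0 : β ≤ β * J ^ 2 := Nat.le_mul_of_pos_right _ j2
  have pz : ∀ k : ℕ, k ≤ 10 ^ 17 * J ^ 6 + 10 ^ 5 * (β * J ^ 3) → 2 ^ k ≤ z := fun k hk =>
    (Nat.pow_le_pow_right two_pos hk).trans hz
  have pz' : ∀ k : ℕ, k + 1 ≤ 10 ^ 17 * J ^ 6 + 10 ^ 5 * (β * J ^ 3) → (2 : ℝ) ^ k < z :=
    fun k hk => by
    have : 2 ^ k < z := (Nat.pow_lt_pow_right one_lt_two (Nat.lt_succ_self k)).trans_le (pz _ hk)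
    exact_mod_cast this
  have hp : 1 ≤ 2 ^ J := Nat.one_le_two_pow
  have zJ := pz J (by omega)
  obtain ⟨x1, x2⟩ := hx.half hJ zJ
  obtain ⟨y1, y2⟩ := hy.half hJ zJ
  have hs : Sb β n a b c x y z := ⟨heq, ha, hb, hc, by omega, by omega, by omega, a2, c2, cxy,
    cxz, cyz, x2, x1, y2, y1⟩
  have hn1 : 1 ≤ n := by omega
  obtain ⟨P, cc, h⟩ := aux_exists' J hJ n hn1
  have hK : (1 : ℝ) ≤ 2 ^ (8 * (200 * J ^ 2) + 8) := one_le_pow₀ one_le_two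
  have hne := GG_ne' hJ hn1 hK h hs (by
    rw [← pow_add]
    exact pz' _ (by omega))
  have hv := GG_van' hJ hK hn1 h hs (by
    refine lt_of_le_of_lt ?_ (pz' (3200 * J ^ 2 + 15 + (400 * (β * J ^ 2) + 6 * β)) (by omega))
    have e1 : ((400 * J ^ 2 + 7 : ℕ) : ℝ) ≤ 2 ^ (400 * J ^ 2 + 7) := by
      exact_mod_cast Nat.lt_two_pow_self.le
    push_cast at e1
    calc (2 : ℝ) ^ (400 * J ^ 2) * (2 ^ β) ^ (400 * J ^ 2 + 6) * ((400 * J ^ 2 + 7) *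
          (16 ^ (200 * J ^ 2) * 2 ^ (8 * (200 * J ^ 2) + 8)))
        ≤ 2 ^ (400 * J ^ 2) * (2 ^ β) ^ (400 * J ^ 2 + 6) * (2 ^ (400 * J ^ 2 + 7) *
          (16 ^ (200 * J ^ 2) * 2 ^ (8 * (200 * J ^ 2) + 8))) := by gcongr
      _ = _ := by
        rw [show (16 : ℝ) = 2 ^ 4 by norm_num, ← pow_mul, ← pow_mul, ← pow_add, ← pow_add,
          ← pow_add, ← pow_add]
        congr 1
        ring) hx hy
  obtain ⟨V, hV0, hVd, hVl, hVv⟩ := wronsk (one_le_pow₀ hK) P _ _ h.degLe h.l1_le hne hv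
  have n3 : 3 ≤ n := by omega
  have nJ : 407 * J ^ 2 ≤ J * n := by
    have : n ≤ J * n := Nat.le_mul_of_pos_left _ hJ
    omega
  have e6 : (20350 * J ^ 3) ^ 2 = 414122500 * J ^ 6 := by ring
  have e7 : 4 * β * (20350 * J ^ 3) = 81400 * (β * J ^ 3) := by ring
  refine lemmaZq (e := 20350 * J ^ 3) (κ := 12) (μ := 4 * (J * n)) (by omega) (by norm_num) hs
    (by omega) (pz _ (by omega)) hV0 (hVd 1) (hVl.trans (size_le ?_ ?_)) (by omega) ?_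
    (hVv.mono (by omega))
  · have : 3 * (200 * J ^ 2) ≤ n * (200 * J ^ 2) := Nat.mul_le_mul_right _ n3
    omega
  · have e1 : 9 * (n * (200 * J ^ 2)) = 1800 * J ^ 2 * n := by ring
    rw [e1]
    exact Nat.mul_le_mul_right _ (by omega)
  · have e1 : (400 * J ^ 2 + 7) * (n * (200 * J ^ 2)) =
        (20000 * J ^ 3 + 350 * J) * (4 * (J * n)) := by ring
    rw [e1]
    exact Nat.mul_le_mul_right _ (by omega)

end Pool.Agent.Lib.MP_4ffbf9_nt.QH
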