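import Mathlib
import Pool.Agent.Lib.MP_4ffbf9_nt.SP.Fin
import Pool.Agent.Lib.MP_4ffbf9_nt.QH.Win

/-!
The uniform lower bound for the spread of the roots.
-/

set_option autoImplicit false

namespace Pool.Agent.Lib.MP_4ffbf9_nt.QH

open Pool.Agent.Lib.MP_4ffbf9_nt.SP

/-- The choice of `J` and `β`. -/
theorem params {δ l L : ℝ} {n : ℕ} (hδ : 0 < δ) (h0 : 4000 * δ < 1) (hL : 0 ≤ L)
    (h1 : 1 ≤ δ ^ 6 * n) (h2 : 1 ≤ δ ^ 6 * l) (h3 : L ≤ δ ^ 3 * n * l) :
    ∃ J β : ℕ, 1 ≤ J ∧ 2 ≤ 4000 * δ * J ∧ 10 ^ 17 * J ^ 6 ≤ n ∧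
      ((10 ^ 17 * J ^ 6 + 10 ^ 5 * (β * J ^ 3) + 1 : ℕ) : ℝ) ≤ l ∧ 2 * L ≤ β * n := by
  set J := ⌊1 / (1000 * δ)⌋₊ with hJ
  have a0 : (4 : ℝ) ≤ 1 / (1000 * δ) := by
    rw [le_div_iff₀ (by positivity)]; linarith
  have a1 : (J : ℝ) ≤ 1 / (1000 * δ) := Nat.floor_le (by positivity)
  have a2 : 1 / (1000 * δ) < J + 1 := Nat.lt_floor_add_one _
  have J3 : (3 : ℝ) < J := by linarith
  rw [le_div_iff₀ (by positivity)] at a1
  rw [div_lt_iff₀ (by positivity)] at a2
  have n0 : (0 : ℝ) < n := by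
    by_contra h
    nlinarith [pow_pos hδ 6]
  have l0 : 0 < l := by
    by_contra h
    nlinarith [pow_pos hδ 6]
  have b3 : ((J : ℝ) * (1000 * δ)) ^ 3 ≤ 1 := pow_le_one₀ (by positivity) a1
  have b6 : ((J : ℝ) * (1000 * δ)) ^ 6 ≤ 1 := pow_le_one₀ (by positivity) a1
  have c1 : ∀ w : ℝ, 0 < w → 1 ≤ δ ^ 6 * w → 10 ^ 18 * (J : ℝ) ^ 6 ≤ w := fun w w0 hw => by
    calc 10 ^ 18 * (J : ℝ) ^ 6 ≤ 10 ^ 18 * (J : ℝ) ^ 6 * (δ ^ 6 * w) :=
          le_mul_of_one_le_right (by positivity) hw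
      _ = ((J : ℝ) * (1000 * δ)) ^ 6 * w := by ring
      _ ≤ w := mul_le_of_le_one_left w0.le b6
  have J1 : (1 : ℝ) ≤ J := by linarith
  have j36 : (J : ℝ) ^ 3 ≤ J ^ 6 := pow_le_pow_right₀ J1 (by norm_num)
  have j06 : (1 : ℝ) ≤ J ^ 6 := one_le_pow₀ J1
  refine ⟨J, ⌈2 * L / n⌉₊, by exact_mod_cast J1, by nlinarith, ?_, ?_, ?_⟩
  · have := c1 n n0 h1
    have : 10 ^ 17 * (J : ℝ) ^ 6 ≤ n := by linarith
    exact_mod_cast this
  · have d1 : (⌈2 * L / n⌉₊ : ℝ) ≤ 2 * L / n + 1 := (Nat.ceil_lt_add_one (by positivity)).le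
    have d2 : 2 * L / n ≤ 2 * (δ ^ 3 * l) := by
      rw [div_le_iff₀ n0]; linarith
    have d3 : (⌈2 * L / n⌉₊ : ℝ) * J ^ 3 ≤ (2 * (δ ^ 3 * l) + 1) * J ^ 3 := by
      gcongr; linarith
    have d4 : 10 ^ 9 * (δ ^ 3 * l * J ^ 3) ≤ l := by
      calc 10 ^ 9 * (δ ^ 3 * l * J ^ 3) = ((J : ℝ) * (1000 * δ)) ^ 3 * l := by ring
        _ ≤ l := mul_le_of_le_one_left l0.le b3
    have d5 := c1 l l0 h2
    push_cast
    nlinarith
  · have := Nat.le_ceil (2 * L / n)
    rwa [div_le_iff₀ n0] at this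

/-- The uniform window theorem. -/
theorem spreadQ {δ : ℝ} {n a b c x y z H m : ℕ} (hδ : 0 < δ) (ha : 0 < a) (hb : 0 < b)
    (hc : 0 < c) (cxy : Nat.Coprime x y) (cxz : Nat.Coprime x z) (cyz : Nat.Coprime y z)
    (heq : a * x ^ n + b * y ^ n = c * z ^ n) (xH : x ≤ H) (yH : y ≤ H) (zH : z ≤ H) (mx : m ≤ x)
    (my : m ≤ y) (mz : m ≤ z) (hm : m < H) (h1 : 1 ≤ δ ^ 6 * n) (h2 : 1 ≤ δ ^ 6 * Real.log H)
    (h3 : Real.log (2 * a * b * c) ≤ δ ^ 3 * n * Real.log H) :
    (H : ℝ) ^ (1 - 4000 * δ) ≤ (H : ℝ) - m := by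
  have H1 : (1 : ℝ) ≤ H := by exact_mod_cast (by omega : 1 ≤ H)
  have H0 : (0 : ℝ) < H := by linarith
  have s1 : (1 : ℝ) ≤ (H : ℝ) - m := by
    have : ((m + 1 : ℕ) : ℝ) ≤ H := by exact_mod_cast hm
    push_cast at this
    linarith
  rcases le_or_gt 1 (4000 * δ) with h0 | h0
  · exact (Real.rpow_le_one_of_one_le_of_nonpos H1 (by linarith)).trans s1
  by_contra hcon
  rw [not_le] at hcon
  have a' : (1 : ℝ) ≤ a := by exact_mod_cast ha
  have b' : (1 : ℝ) ≤ b := by exact_mod_cast hb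
  have c' : (1 : ℝ) ≤ c := by exact_mod_cast hc
  have p1 : (1 : ℝ) ≤ a * b * c :=
    one_le_mul_of_one_le_of_one_le (one_le_mul_of_one_le_of_one_le a' b') c'
  obtain ⟨J, β, hJ, k1, k2, k3, k4⟩ :=
    params hδ h0 (Real.log_nonneg (by linarith : (1 : ℝ) ≤ 2 * a * b * c)) h1 h2 h3
  have l2 := Real.log_two_gt_d9
  have l2' := Real.log_two_lt_d9
  have big : 2 ^ (10 ^ 17 * J ^ 6 + 10 ^ 5 * (β * J ^ 3) + 1) ≤ H := by
    have : (2 : ℝ) ^ (10 ^ 17 * J ^ 6 + 10 ^ 5 * (β * J ^ 3) + 1) ≤ H := by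
      rw [← Real.log_le_log_iff (by positivity) H0, Real.log_pow]
      exact (mul_le_of_le_one_right (Nat.cast_nonneg _) (by linarith)).trans k3
    exact_mod_cast this
  have j16 : J ≤ J ^ 6 := Nat.le_self_pow (by norm_num) J
  have hJH : 2 ^ J ≤ H := (Nat.pow_le_pow_right two_pos (by omega)).trans big
  have two : (2 : ℝ) ≤ (H : ℝ) ^ (4000 * δ) := by
    refine le_of_pow_le_pow_left₀ (n := J) (by omega) (by positivity) ?_
    rw [← Real.rpow_natCast ((H : ℝ) ^ (4000 * δ)), ← Real.rpow_mul H0.le]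
    refine le_trans (by exact_mod_cast hJH : (2 : ℝ) ^ J ≤ H) ?_
    exact Real.self_le_rpow_of_one_le H1 (by linarith)
  have hm2 : H ≤ 2 * m := by
    have e : (H : ℝ) ^ (4000 * δ) * (H : ℝ) ^ (1 - 4000 * δ) = H := by
      rw [← Real.rpow_add H0]; simp
    have := Real.rpow_pos_of_pos H0 (1 - 4000 * δ)
    have : (H : ℝ) ≤ 2 * m := by nlinarith
    exact_mod_cast this
  have nr : ∀ w : ℕ, w ≤ H → m ≤ w → Near J w z := fun w w1 w2 => by
    refine near_of k1 hJH zH (by omega) (le_trans (abs_le.2 ?_) hcon.le)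
    have a1 : (w : ℝ) ≤ H := by exact_mod_cast w1
    have a2 : (m : ℝ) ≤ w := by exact_mod_cast w2
    have a3 : (z : ℝ) ≤ H := by exact_mod_cast zH
    have a4 : (m : ℝ) ≤ z := by exact_mod_cast mz
    constructor <;> linarith
  have co : ∀ w : ℕ, 0 < w → (w : ℝ) ≤ 2 * a * b * c → w ≤ (2 ^ β) ^ n := fun w w0 hw => by
    have w' : (0 : ℝ) < w := by exact_mod_cast w0
    have : (w : ℝ) ≤ (2 ^ β) ^ n := by
      rw [← Real.log_le_log_iff w' (by positivity), Real.log_pow, Real.log_pow]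
      have t1 := Real.log_le_log w' hw
      have t2 : (0 : ℝ) ≤ β * n := by positivity
      nlinarith
    exact_mod_cast this
  refine windowQ hJ k2 ?_ ha hb hc (co a ha ?_) (co c hc ?_) cxy cxz cyz (nr x xH mx) (nr y yH my)
    heq
  · rw [pow_succ] at big
    omega
  · nlinarith [mul_le_mul b' c' zero_le_one (by linarith)]
  · nlinarith [mul_le_mul a' b' zero_le_one (by linarith)]

/-- The consequence of the bound for two logarithms. -/
theorem bakerQ : ∃ κ : ℝ, 0 < κ ∧ ∀ n a b c x y z : ℕ, 3 ≤ n → 0 < a → 0 < b → 0 < c → 0 < x →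
    0 < y → 0 < z → a * x ^ n + b * y ^ n = c * z ^ n → 2 ≤ max x (max y z) →
    n * (((max x (max y z) : ℕ) : ℝ) - (min x (min y z) : ℕ)) ≤
      κ * Real.log (max x (max y z) : ℕ) * (Real.log (2 * a * b * c) * Real.log n ^ 2) *
        (max x (max y z) : ℕ) := by
  obtain ⟨κ, hκ, h⟩ := bk_logs_close
  refine ⟨18 + 8 * κ, by positivity, fun n a b c x y z hn ha hb hc hx hy hz heq h2 => ?_⟩
  have a' : (1 : ℝ) ≤ a := by exact_mod_cast ha
  have b' : (1 : ℝ) ≤ b := by exact_mod_cast hb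
  have c' : (1 : ℝ) ≤ c := by exact_mod_cast hc
  have l2 := Real.log_two_gt_d9
  have ab := mul_le_mul a' b' zero_le_one (by linarith)
  have bc := mul_le_mul b' c' zero_le_one (by linarith)
  have ac := mul_le_mul a' c' zero_le_one (by linarith)
  set L := Real.log (2 * a * b * c) with hL
  have L0 : Real.log 2 ≤ L := Real.log_le_log two_pos (by nlinarith)
  have co : ∀ w : ℝ, w ≤ 2 * a * b * c → w ≤ Real.exp (2 * L) := fun w hw => by
    refine hw.trans ?_
    rw [← Real.exp_log (show (0 : ℝ) < 2 * a * b * c by positivity)]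
    exact Real.exp_le_exp.2 (by linarith)
  have ea := co a (by nlinarith)
  have eb := co b (by nlinarith)
  have ec := co c (by nlinarith)
  have H2 : (2 : ℝ) ≤ (max x (max y z) : ℕ) := by exact_mod_cast h2
  set l := Real.log (max x (max y z) : ℕ) with hl
  have l0 : Real.log 2 ≤ l := Real.log_le_log two_pos H2
  have hm : ∀ w : ℕ, w ≤ max x (max y z) → (w : ℝ) ≤ Real.exp (2 * l) := fun w hw => by
    refine le_trans (by exact_mod_cast hw : (w : ℝ) ≤ (max x (max y z) : ℕ)) ?_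
    rw [← Real.exp_log (show (0 : ℝ) < (max x (max y z) : ℕ) by linarith)]
    exact Real.exp_le_exp.2 (by linarith)
  have n3 : (3 : ℝ) ≤ n := by exact_mod_cast hn
  have l1 : 1 ≤ Real.log n := by
    rw [Real.le_log_iff_exp_le (by linarith)]
    linarith [Real.exp_one_lt_d9]
  set B := 1 + 2 * (2 * L) + κ * (2 * L) * (2 * l) * Real.log n ^ 2 with hB
  have both : n * |Real.log x - Real.log z| ≤ B ∧ n * |Real.log y - Real.log z| ≤ B := by
    rcases le_total (a * x ^ n) (b * y ^ n) with hle | hle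
    · exact h n a b c x y z (2 * L) (2 * l) hn ha hb hc hx hy hz heq hle (by linarith)
        (by linarith) ea eb ec (hm y (by omega)) (hm z (by omega))
    · exact (h n b a c y x z (2 * L) (2 * l) hn hb ha hc hy hx hz (by omega) hle (by linarith)
        (by linarith) eb ea ec (hm x (by omega)) (hm z (by omega))).symm
  have q1 : 1 ≤ Real.log n ^ 2 := one_le_pow₀ l1
  have L1 : 0 < L := by linarith
  have l3 : 0 < l := by linarith
  have B0 : 0 ≤ B := by positivity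
  have all : ∀ w : ℕ, w = x ∨ w = y ∨ w = z → n * |Real.log w - Real.log z| ≤ B := by
    rintro w (e | e | e) <;> rw [e]
    · exact both.1
    · exact both.2
    · simpa using B0
  have t1 := all (max x (max y z)) (by omega)
  have t2 := all (min x (min y z)) (by omega)
  have m0 : (0 : ℝ) < (min x (min y z) : ℕ) := by exact_mod_cast (by omega : 0 < min x (min y z))
  rw [← hl] at t1
  generalize ((max x (max y z) : ℕ) : ℝ) = H at *
  generalize ((min x (min y z) : ℕ) : ℝ) = m at *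
  have H0 : 0 < H := by linarith
  have t3 : H - m ≤ (l - Real.log m) * H := by
    have := Real.log_le_sub_one_of_pos (div_pos m0 H0)
    rw [Real.log_div m0.ne' H0.ne', ← hl, ← mul_le_mul_iff_left₀ H0, sub_mul (m / H),
      div_mul_cancel₀ _ H0.ne'] at this
    linarith
  have t4 : n * (l - Real.log m) ≤ 2 * B := by
    have u1 := mul_le_mul_of_nonneg_left (le_abs_self (l - Real.log z)) (Nat.cast_nonneg (α := ℝ) n)
    have u2 := mul_le_mul_of_nonneg_left (neg_le_abs (Real.log m - Real.log z))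
      (Nat.cast_nonneg (α := ℝ) n)
    linarith
  have t5 : 2 * B ≤ (18 + 8 * κ) * l * (L * Real.log n ^ 2) := by
    have u1 : L * l ≤ L * l * Real.log n ^ 2 := le_mul_of_one_le_right (by positivity) q1
    have u2 : 1 ≤ 3 * (L * l) := by nlinarith
    have u3 : 4 * L ≤ 6 * (L * l) := by nlinarith
    rw [hB]
    linarith
  calc n * (H - m) ≤ n * ((l - Real.log m) * H) := by gcongr
    _ = n * (l - Real.log m) * H := by ring
    _ ≤ _ := mul_le_mul_of_nonneg_right (t4.trans t5) H0.le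

/-- The main inequality. -/
theorem final : ∃ C : ℝ, 0 < C ∧ ∀ (δ : ℝ) (n a b c x y z : ℕ), 0 < δ → 3 ≤ n → 0 < a → 0 < b →
    0 < c → 0 < x → 0 < y → 0 < z → Nat.Coprime x y → Nat.Coprime x z → Nat.Coprime y z →
    a * x ^ n + b * y ^ n = c * z ^ n → 1 ≤ δ ^ 6 * n →
    1 ≤ δ ^ 6 * Real.log (max x (max y z) : ℕ) →
    Real.log (2 * a * b * c) ≤ δ ^ 3 * n * Real.log (max x (max y z) : ℕ) →
    (1 + n / (Real.log (2 * a * b * c) * Real.log n ^ 2)) *
      ((max x (max y z) : ℕ) : ℝ) ^ (1 - C * δ) ≤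
        ((max x (max y z) : ℕ) : ℝ) - (min x (min y z) : ℕ) := by
  obtain ⟨κ, hκ, hB⟩ := bakerQ
  refine ⟨8000 + (3600 * κ + 1) + 2, by positivity,
    fun δ n a b c x y z hδ hn ha hb hc hx hy hz cxy cxz cyz heq h1 h2 h3 => ?_⟩
  have H2 : 2 ≤ max x (max y z) := by
    by_contra h
    rw [show max x (max y z) = 1 by omega] at h2
    norm_num at h2
  have hm : min x (min y z) < max x (max y z) := by
    by_contra h
    have e1 : x = y := by omega
    rw [← e1] at cxy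
    have := (Nat.coprime_self x).1 cxy
    omega
  have hW := spreadQ hδ ha hb hc cxy cxz cyz heq (H := max x (max y z)) (m := min x (min y z))
    (by omega) (by omega) (by omega) (by omega) (by omega) (by omega) hm h1 h2 h3
  have hK := hB n a b c x y z hn ha hb hc hx hy hz heq H2
  have H2' : (2 : ℝ) ≤ (max x (max y z) : ℕ) := by exact_mod_cast H2
  have p1 : (1 : ℝ) < 2 * a * b * c := by
    have : 0 < a * b * c := by positivity
    exact_mod_cast (by nlinarith : 1 < 2 * a * b * c)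
  have G1 : 0 < Real.log (2 * a * b * c) * Real.log n ^ 2 :=
    mul_pos (Real.log_pos p1) (pow_pos (Real.log_pos (by exact_mod_cast (by omega : 1 < n))) 2)
  have G0 := G1.le
  generalize Real.log (2 * a * b * c) * Real.log n ^ 2 = G at *
  generalize ((max x (max y z) : ℕ) : ℝ) = H at *
  generalize H - ((min x (min y z) : ℕ) : ℝ) = s at *
  have H0 : 0 < H := by linarith
  have s0 : 0 < s := (Real.rpow_pos_of_pos H0 _).trans_le hW
  have l0 : Real.log 2 ≤ Real.log H := Real.log_le_log two_pos H2'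
  have l2 := Real.log_two_gt_d9
  have P0 := Real.rpow_pos_of_pos H0 (4000 * δ)
  have e1 : H ^ (1 - 4000 * δ) * H ^ (4000 * δ) = H := by rw [← Real.rpow_add H0]; simp
  have t1 : H ≤ s * H ^ (4000 * δ) := by
    nth_rewrite 1 [← e1]
    gcongr
  have t2 : n ≤ κ * Real.log H * G * H ^ (4000 * δ) := by
    refine le_of_mul_le_mul_right (hK.trans ?_) s0
    have : 0 ≤ κ * Real.log H * G := mul_nonneg (mul_nonneg hκ.le (by linarith)) G0
    calc κ * Real.log H * G * H ≤ κ * Real.log H * G * (s * H ^ (4000 * δ)) := by gcongr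
      _ = _ := by ring
  have t3 : κ * Real.log H ≤ H ^ ((3600 * κ + 1) * δ) := by
    rw [Real.rpow_def_of_pos H0]
    generalize Real.log H = l at *
    have l1 : 0 < l := by linarith
    refine le_trans ?_ (Real.pow_div_factorial_le_exp _ (by positivity) 6)
    have u1 : 3600 * κ + 1 ≤ (3600 * κ + 1) ^ 6 := le_self_pow₀ (by linarith) (by norm_num)
    have u2 : (1 / 5 : ℝ) ≤ l ^ 4 :=
      le_trans (by norm_num) (pow_le_pow_left₀ (by norm_num) (show (69 / 100 : ℝ) ≤ l by linarith) 4)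
    rw [le_div_iff₀ (by positivity)]
    calc κ * l * (Nat.factorial 6 : ℕ) = 3600 * κ * (1 / 5) * l * 1 := by
          norm_num [Nat.factorial]; ring
      _ ≤ (3600 * κ + 1) ^ 6 * l ^ 4 * l * (δ ^ 6 * l) := by
          gcongr
          linarith
      _ = _ := by ring
  have e2 : H ^ (1 - (8000 + (3600 * κ + 1)) * δ) * (H ^ ((3600 * κ + 1) * δ) * H ^ (4000 * δ)) =
      H ^ (1 - 4000 * δ) := by
    rw [← Real.rpow_add H0, ← Real.rpow_add H0]
    congr 1
    ring
  have P1 := Real.rpow_pos_of_pos H0 (1 - (8000 + (3600 * κ + 1)) * δ)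
  have t4 : n / G * H ^ (1 - (8000 + (3600 * κ + 1)) * δ) ≤ s := by
    rw [div_mul_eq_mul_div, div_le_iff₀' G1]
    calc n * H ^ (1 - (8000 + (3600 * κ + 1)) * δ)
        ≤ H ^ ((3600 * κ + 1) * δ) * G * H ^ (4000 * δ) *
          H ^ (1 - (8000 + (3600 * κ + 1)) * δ) := by
          refine mul_le_mul_of_nonneg_right (t2.trans ?_) P1.le
          gcongr
      _ = G * H ^ (1 - 4000 * δ) := by rw [← e2]; ring
      _ ≤ G * s := by gcongr
  have t5 : H ^ (1 - (8000 + (3600 * κ + 1)) * δ) ≤ s := by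
    refine le_trans (Real.rpow_le_rpow_of_exponent_le (by linarith) ?_) hW
    nlinarith [mul_pos hκ hδ]
  have t6 : 2 ≤ H ^ (2 * δ) := by
    rw [Real.rpow_def_of_pos H0]
    generalize Real.log H = l at *
    have l1 : 0 < l := by linarith
    have u1 : (1 / 2 : ℝ) ≤ l * δ := by
      refine le_of_pow_le_pow_left₀ (n := 6) (by norm_num) (by positivity) ?_
      calc (1 / 2 : ℝ) ^ 6 ≤ (69 / 100) ^ 5 * 1 := by norm_num
        _ ≤ l ^ 5 * (δ ^ 6 * l) := by
          gcongr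
          linarith
        _ = _ := by ring
    linarith [Real.add_one_le_exp (l * (2 * δ))]
  have e3 : H ^ (1 - (8000 + (3600 * κ + 1) + 2) * δ) * H ^ (2 * δ) =
      H ^ (1 - (8000 + (3600 * κ + 1)) * δ) := by
    rw [← Real.rpow_add H0]
    congr 1
    ring
  have P2 := Real.rpow_pos_of_pos H0 (1 - (8000 + (3600 * κ + 1) + 2) * δ)
  have t7 : 0 ≤ 1 + n / G := by positivity
  rw [← e3] at t4 t5
  nlinarith [mul_le_mul_of_nonneg_left t6 (mul_nonneg t7 P2.le)]

end Pool.Agent.Lib.MP_4ffbf9_nt.QH
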