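import Mathlib
import Pool.Agent.Lib.MP_4ffbf9_nt.PR.Final

/-!
Solutions with free cofactors, and the case of bounded values (the proof is that of `PR.bdd`).
-/

set_option autoImplicit false

namespace Pool.Agent.Lib.MP_4ffbf9_nt.QH

open Pool.Agent.Lib.MP_4ffbf9_nt.PR

/-- A solution in products of degree `n` with `R` values each, all values at most `h`. -/
structure Su (A B C R : ℕ) (Q : ℝ) (n h : ℕ) (a : Fin 3 → ℕ) (w m : Fin 3 → Fin R → ℕ) :
    Prop where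
  eq : A * (a 0 * ∏ i, w 0 i ^ m 0 i) + B * (a 1 * ∏ i, w 1 i ^ m 1 i) =
    C * (a 2 * ∏ i, w 2 i ^ m 2 i)
  gcd : GcdOk Q (a 0 * ∏ i, w 0 i ^ m 0 i) (a 1 * ∏ i, w 1 i ^ m 1 i)
  a_pos : ∀ k, 0 < a k
  deg : ∀ k, ∑ i, m k i = n
  w_pos : ∀ k i, 0 < w k i
  w_le : ∀ k i, w k i ≤ h

/-- Bounded values (Ridout type). -/
theorem bdd' (A B C R : ℕ) (Q : ℝ) (hA : 0 < A) (hB : 0 < B) (hC : 0 < C)
    (h1 : ℕ) : ∃ n0 : ℕ, ∀ (n h : ℕ) (a : Fin 3 → ℕ) (w m : Fin 3 → Fin R → ℕ), n0 ≤ n → h ≤ h1 →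
      Su A B C R Q n h a w m → (∀ k, Real.log (a k) ≤ n / 75) →
      ∏ k, (a k * ∏ i, w k i ^ m k i) < 2 ^ n := by
  obtain ⟨T, hT⟩ : ∃ T : ℕ, T = 150 * (R * (h1 + 1)) + 3 := ⟨_, rfl⟩
  have hfin := bdd_fin A B C Q (2 * T * (h1 + 2)) hA hB hC
  obtain ⟨M, hM⟩ := (hfin.image fun X => ∏ k, X k).bddAbove
  refine ⟨2 * T + M, fun n h a w m hn hh hs hla => ?_⟩
  by_contra hcon
  rw [not_lt] at hcon
  set X : Fin 3 → ℕ := fun k => a k * ∏ i, w k i ^ m k i with hXdef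
  have hX : ∀ k, 0 < X k := fun k =>
    Nat.mul_pos (hs.a_pos k) (Finset.prod_pos fun i _ => pow_pos (hs.w_pos k i) _)
  have hXr : ∀ k, (0 : ℝ) < X k := fun k => by exact_mod_cast hX k
  have hT0 : 0 < T := by omega
  have hTr : (0 : ℝ) < T := by exact_mod_cast hT0
  obtain ⟨p, hpdef⟩ : ∃ p : ℕ, p = n / T := ⟨_, rfl⟩
  have hp2 : 2 ≤ p := by
    rw [hpdef, Nat.le_div_iff_mul_le hT0]; omega
  have hpT : p * T ≤ n := by rw [hpdef]; exact Nat.div_mul_le_self n T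
  have hpT2 : n ≤ 2 * (p * T) := by
    have h2 : n < (p + 1) * T := by
      rw [hpdef, mul_comm]; exact Nat.lt_mul_div_succ n hT0
    nlinarith
  have hpr : (0 : ℝ) < p := by exact_mod_cast (by omega : 0 < p)
  have hpTr : (p : ℝ) * T ≤ n := by exact_mod_cast hpT
  have hpT2r : (n : ℝ) ≤ 2 * (p * T) := by exact_mod_cast hpT2
  have hn0 : (0 : ℝ) ≤ n := Nat.cast_nonneg n
  obtain ⟨k0, -, hk0⟩ := Finset.exists_max_image Finset.univ (fun k => Real.log (X k))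
    Finset.univ_nonempty
  set L := Real.log (X k0) with hL
  have hu : ∀ k, Real.log (X k) ≤ L := fun k => hk0 k (Finset.mem_univ k)
  have hLlo : (n : ℝ) / 5 ≤ L := by
    have h2 : ((2 : ℝ) ^ n) ≤ ∏ k, (X k : ℝ) := by exact_mod_cast hcon
    have h3 := Real.log_le_log (by positivity) h2
    rw [Real.log_pow, Real.log_prod (fun k _ => (hXr k).ne'), Fin.sum_univ_three] at h3
    nlinarith [hu 0, hu 1, hu 2, Real.log_two_gt_d9]
  have hwle : ∀ k i, w k i ≤ h1 + 1 := fun k i => by have := hs.w_le k i; omega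
  have hprod : ∀ (k : Fin 3) (e : Fin R → ℕ), (0 : ℝ) < ((∏ i, w k i ^ e i : ℕ) : ℝ) :=
    fun k e => by exact_mod_cast Finset.prod_pos fun i _ => pow_pos (hs.w_pos k i) _
  have hlog : ∀ (k : Fin 3) (e : Fin R → ℕ), Real.log ((a k * ∏ i, w k i ^ e i : ℕ) : ℝ) ≤
      n / 75 + (∑ i, e i : ℕ) * ((h1 : ℝ) + 1) := fun k e => by
    rw [Nat.cast_mul, Real.log_mul (by exact_mod_cast (hs.a_pos k).ne') (hprod k e).ne']
    have h2 := bdd_log (w k) e (hs.w_pos k) (hwle k)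
    rw [Nat.cast_add, Nat.cast_one] at h2
    linarith [hla k]
  have hLhi : L ≤ n * ((h1 : ℝ) + 2) := by
    have h2 := hlog k0 (m k0)
    rw [hs.deg k0] at h2
    have h3 : L ≤ n / 75 + n * ((h1 : ℝ) + 1) := h2
    linarith
  have hmem : ∏ k, X k ≤ M := by
    refine hM ⟨X, ⟨hX, hs.eq, hs.gcd, p, fun k => a k * ∏ i, w k i ^ (m k i % p),
      fun k => ∏ i, w k i ^ (m k i / p), L, hp2, fun k => ?_, hu, ⟨k0, rfl⟩, fun k => ?_,
      ?_, ?_⟩, rfl⟩
    · show a k * ∏ i, w k i ^ m k i =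
        (a k * ∏ i, w k i ^ (m k i % p)) * (∏ i, w k i ^ (m k i / p)) ^ p
      rw [mul_assoc, ← Finset.prod_pow, ← Finset.prod_mul_distrib]
      refine congrArg _ (Finset.prod_congr rfl fun i _ => ?_)
      rw [← pow_mul, ← pow_add, Nat.mod_add_div']
    · have h2 := hlog k fun i => m k i % p
      have h3 : ∑ i, m k i % p ≤ R * p := by
        calc ∑ i, m k i % p ≤ ∑ _i : Fin R, p :=
              Finset.sum_le_sum fun i _ => (Nat.mod_lt _ (by omega)).le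
          _ = R * p := by simp
      have h4 : ((∑ i, m k i % p : ℕ) : ℝ) ≤ R * p := by exact_mod_cast h3
      have h5 : (T : ℝ) = 150 * (R * ((h1 : ℝ) + 1)) + 3 := by exact_mod_cast hT
      have h6 := mul_le_mul_of_nonneg_right h4 (by positivity : (0 : ℝ) ≤ (h1 : ℝ) + 1)
      have h7 : (R : ℝ) * p * ((h1 : ℝ) + 1) ≤ n / 150 := by
        rw [h5] at hpTr
        nlinarith
      refine h2.trans ?_
      linarith
    · rw [le_div_iff₀ hpr]
      have h5 : (3 : ℝ) ≤ T := by exact_mod_cast (by omega : 3 ≤ T)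
      nlinarith
    · rw [div_le_iff₀ hpr]
      have h2 := mul_le_mul_of_nonneg_right hpT2r (by positivity : (0 : ℝ) ≤ (h1 : ℝ) + 2)
      nlinarith
  have h2 : n < 2 ^ n := Nat.lt_two_pow_self
  have h3 : 2 ^ n ≤ ∏ k, X k := hcon
  omega

end Pool.Agent.Lib.MP_4ffbf9_nt.QH
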