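import Mathlib
import Pool.Agent.Lib.MP_4ffbf9_nt.EF.Win
import Pool.Agent.Lib.MP_4ffbf9_nt.QH.Fin
import Pool.Agent.Lib.MP_4ffbf9_nt.QH.UB

/-!
The uniform window theorem for products: exponent `3` for pure powers, some exponent in general.
-/

set_option autoImplicit false

namespace Pool.Agent.Lib.MP_4ffbf9_nt.QH

open Pool.Agent.Lib.MP_4ffbf9_nt.PR

/-- The window theorem with exponent `κ` and constant `C₁`. -/
def Wn (R κ : ℕ) (C₁ : ℝ) : Prop :=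
  ∀ (A B C : ℕ) (Q : ℝ), 0 < A → 0 < B → 0 < C → ∃ n2 : ℕ,
    ∀ (δ : ℝ) (n l h : ℕ) (a : Fin 3 → ℕ) (w m : Fin 3 → Fin R → ℕ), n2 ≤ n → 0 < δ →
      Su A B C R Q n h a w m → (∀ k i, l ≤ w k i) → 1 ≤ δ ^ (2 * κ) * n →
      1 ≤ δ ^ (2 * κ) * Real.log h → (∀ k, Real.log (a k) ≤ δ ^ κ * n * Real.log h) →
      (h : ℝ) ^ (1 - C₁ * δ) ≤ (h : ℝ) - l

theorem two_le_of {p : ℝ} {h : ℕ} (h2 : 1 ≤ p * Real.log h) : 2 ≤ h := by
  by_contra hh
  have : h = 0 ∨ h = 1 := by omega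
  rcases this with rfl | rfl <;> norm_num at h2

theorem log_ge {h : ℕ} (hh : 2 ≤ h) : 1 / 2 ≤ Real.log h := by
  have := Real.log_le_log two_pos (show (2 : ℝ) ≤ h by exact_mod_cast hh)
  linarith [Real.log_two_gt_d9]

theorem lt_of_su {A B C R n l h : ℕ} {Q : ℝ} {a : Fin 3 → ℕ} {w m : Fin 3 → Fin R → ℕ}
    (hA : 0 < A) (hn : A * ⌈Q⌉₊ + 1 ≤ n) (hh : 2 ≤ h) (hs : Su A B C R Q n h a w m)
    (hl : ∀ k i, l ≤ w k i) : l < h := by
  by_contra hcon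
  have e : ∀ k, ∏ i, w k i ^ m k i = h ^ n := fun k => by
    rw [← hs.deg k, ← Finset.prod_pow_eq_pow_sum]
    refine Finset.prod_congr rfl fun i _ => ?_
    have := hl k i
    have := hs.w_le k i
    rw [show w k i = h by omega]
  have hg := hs.gcd
  rw [e, e] at hg
  have h1 := w2_gcd (g := h ^ n) (W := h) (n := n) hA
    (Nat.mul_pos (hs.a_pos 1) (by positivity)) (by omega) (by omega) hg
    ((Dvd.intro_left _ rfl).mul_left _) (Dvd.intro_left _ rfl) dvd_rfl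
  obtain ⟨k, rfl⟩ : ∃ k, n = k + 1 := ⟨n - 1, by omega⟩
  rw [pow_succ] at h1
  have h2 := Nat.le_of_mul_le_mul_right h1 (by omega)
  have h3 : k < h ^ k := Nat.lt_pow_self (by omega)
  omega

theorem sq_le_mul {p : ℝ} {T n : ℕ} (hp : 0 ≤ p) (h1 : 1 ≤ p ^ 2 * n) (hT : T ^ 2 ≤ n) :
    (T : ℝ) ≤ p * n := by
  have h2 : (T : ℝ) ^ 2 ≤ n := by exact_mod_cast hT
  refine le_of_sq_le_sq ?_ (by positivity)
  nlinarith [Nat.cast_nonneg (α := ℝ) n]

theorem wn_one : Wn 1 3 8000 := by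
  intro A B C Q hA hB hC
  obtain ⟨n1, h1⟩ := SP.coprime_roots A B C Q hA hB
  refine ⟨n1 + (A * ⌈Q⌉₊ + 1) + (2 * A * B * C) ^ 2,
    fun δ n l h a w m hn hδ hs hl d1 d2 d3 => ?_⟩
  have hh := two_le_of d2
  have hlt := lt_of_su hA (by omega) hh hs hl
  have e : ∀ k, ∏ i, w k i ^ m k i = w k 0 ^ n := fun k => by
    have := hs.deg k
    rw [Fin.sum_univ_one] at this
    rw [Fin.prod_univ_one, this]
  have heq := hs.eq
  have hg := hs.gcd
  rw [e, e] at hg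
  rw [e, e, e] at heq
  obtain ⟨c1, c2, c3⟩ := h1 n _ _ _ _ _ _ (by omega) (hs.a_pos 0) (hs.w_pos 0 0) heq hg
  have lh := log_ge hh
  have p0 : 0 < δ ^ 3 := by positivity
  have p1 : ((2 * A * B * C : ℕ) : ℝ) ≤ δ ^ 3 * n :=
    sq_le_mul p0.le (by rw [← pow_mul]; exact d1) (by omega)
  have n0 : (0 : ℝ) ≤ n := Nat.cast_nonneg n
  have p6 : 0 < δ ^ 6 := by positivity
  have key := spreadQ (δ := 2 * δ) (H := h) (m := l) (by positivity)
    (Nat.mul_pos hA (hs.a_pos 0)) (Nat.mul_pos hB (hs.a_pos 1)) (Nat.mul_pos hC (hs.a_pos 2))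
    c1 c2 c3 (by simpa only [mul_assoc] using heq) (hs.w_le _ _) (hs.w_le _ _) (hs.w_le _ _)
    (hl _ _) (hl _ _) (hl _ _) hlt
    (by rw [mul_pow]; norm_num at d1 ⊢; nlinarith) (by rw [mul_pow]; norm_num at d2 ⊢; nlinarith)
    (by
      have a0 : ∀ k, (0 : ℝ) < a k := fun k => by exact_mod_cast hs.a_pos k
      have T0 : (0 : ℝ) < (2 * A * B * C : ℕ) := by positivity
      have e1 : (2 : ℝ) * (A * a 0 : ℕ) * (B * a 1 : ℕ) * (C * a 2 : ℕ) =
          (2 * A * B * C : ℕ) * a 0 * a 1 * a 2 := by push_cast; ring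
      rw [e1, Real.log_mul (mul_pos (mul_pos T0 (a0 0)) (a0 1)).ne' (a0 2).ne',
        Real.log_mul (mul_pos T0 (a0 0)).ne' (a0 1).ne', Real.log_mul T0.ne' (a0 0).ne']
      have t1 := Real.log_le_sub_one_of_pos T0
      have t2 := mul_le_mul_of_nonneg_left lh (mul_nonneg p0.le n0)
      have := d3 0
      have := d3 1
      have := d3 2
      nlinarith)
  rwa [show 4000 * (2 * δ) = 8000 * δ by ring] at key

theorem pw {D n h T S t : ℕ} {E : ℝ} (hh : 2 ≤ h) (hD : D ^ 2 ≤ n) (hn : (4 * (T + S)) ^ 2 ≤ n)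
    (hE : 2 * (D * E) ≤ n * Real.log h) (t0 : 0 < t)
    (ht : Real.log t ≤ T + E + S * Real.log h) : t ^ D ≤ h ^ n := by
  have lh := log_ge hh
  have h3 : (D : ℝ) * (4 * (T + S)) ≤ n := by
    have : D * (4 * (T + S)) ≤ n := by
      refine (Nat.pow_le_pow_iff_left two_ne_zero).1 ?_
      rw [mul_pow, sq n]
      exact Nat.mul_le_mul hD hn
    exact_mod_cast this
  have h0 : (0 : ℝ) < h := by exact_mod_cast (by omega : 0 < h)
  have t' : (0 : ℝ) < t := by exact_mod_cast t0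
  have : (t : ℝ) ^ D ≤ (h : ℝ) ^ n := by
    rw [← Real.log_le_log_iff (by positivity) (by positivity), Real.log_pow, Real.log_pow]
    have D0 : (0 : ℝ) ≤ D := Nat.cast_nonneg D
    have u1 := mul_le_mul_of_nonneg_left ht D0
    have u2 := mul_le_mul_of_nonneg_right h3 (by linarith : 0 ≤ Real.log h)
    have u3 := mul_le_mul_of_nonneg_left lh (mul_nonneg D0 (Nat.cast_nonneg (α := ℝ) T))
    have u4 : 0 ≤ (D : ℝ) * S * Real.log h := by positivity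
    nlinarith
  exact_mod_cast this

theorem wn_gen (R : ℕ) : ∃ κ : ℕ, 1 ≤ κ ∧ Wn R κ 8 := by
  obtain ⟨κ, hκ, H⟩ := EF.window_eff (Fin 3 × Fin R)
  refine ⟨κ, hκ, fun A B C Q hA hB hC =>
    ⟨(4 * (B + C + A * ⌈Q⌉₊ + R)) ^ 2 + (A * ⌈Q⌉₊ + 1),
      fun δ n l h a w m hn hδ hs hl d1 d2 d3 => ?_⟩⟩
  have hh := two_le_of d2
  have hlt := lt_of_su hA (by omega) hh hs hl
  have hh1 : (1 : ℝ) ≤ h := by exact_mod_cast (by omega : 1 ≤ h)
  have hh0 : (0 : ℝ) < h := by linarith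
  have lh := log_ge hh
  rcases le_or_gt 1 (8 * δ) with h0 | h0
  · refine (Real.rpow_le_one_of_one_le_of_nonpos hh1 (by linarith)).trans ?_
    have : ((l + 1 : ℕ) : ℝ) ≤ h := by exact_mod_cast hlt
    push_cast at this
    linarith
  by_contra hcon
  rw [not_le] at hcon
  set J := ⌊1 / (2 * δ)⌋₊ with hJd
  have a0 : (4 : ℝ) ≤ 1 / (2 * δ) := by
    rw [le_div_iff₀ (by positivity)]; linarith
  have a1 : (J : ℝ) ≤ 1 / (2 * δ) := Nat.floor_le (by positivity)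
  have a2 : 1 / (2 * δ) < J + 1 := Nat.lt_floor_add_one _
  have J3 : (3 : ℝ) < J := by linarith
  have hJ : 2 ≤ J := by exact_mod_cast (by linarith : (2 : ℝ) ≤ J)
  rw [le_div_iff₀ (by positivity)] at a1
  rw [div_lt_iff₀ (by positivity)] at a2
  have hJ0 : (0 : ℝ) < J := by linarith
  have hJδ : 1 / (J : ℝ) ≤ 8 * δ := by
    rw [div_le_iff₀ hJ0]; nlinarith
  set D := J ^ κ with hD
  have b1 : 2 * ((D : ℝ) * δ ^ κ) ≤ 1 := by
    have u1 : ((J : ℝ) * (2 * δ)) ^ κ ≤ 1 := pow_le_one₀ (by positivity) a1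
    have u2 : (2 : ℝ) ≤ 2 ^ κ := le_self_pow₀ one_le_two (by omega)
    rw [mul_pow, mul_pow, ← Nat.cast_pow, ← hD] at u1
    have u3 : 0 ≤ (D : ℝ) * δ ^ κ := by positivity
    nlinarith
  have b2 : ∀ y : ℝ, 0 ≤ y → 1 ≤ δ ^ (2 * κ) * y → (D : ℝ) ^ 2 ≤ y := fun y y0 hy => by
    have u3 : 0 ≤ (D : ℝ) * δ ^ κ := by positivity
    have u4 : ((D : ℝ) * δ ^ κ) ^ 2 ≤ 1 := pow_le_one₀ u3 (by linarith)
    calc (D : ℝ) ^ 2 ≤ D ^ 2 * (δ ^ (2 * κ) * y) := le_mul_of_one_le_right (by positivity) hy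
      _ = ((D : ℝ) * δ ^ κ) ^ 2 * y := by ring
      _ ≤ y := mul_le_of_le_one_left y0 u4
  have hJn : D ^ 2 ≤ n := by exact_mod_cast b2 n (Nat.cast_nonneg n) d1
  have hJh := b2 _ (by linarith) d2
  have hDD : D ≤ D ^ 2 := Nat.le_self_pow two_ne_zero D
  have n0 : (0 : ℝ) ≤ n * Real.log h := by positivity
  have hp : ∀ t : ℕ, 0 < t → Real.log t ≤ (B + C + A * ⌈Q⌉₊ : ℕ) + δ ^ κ * n * Real.log h +
      R * Real.log h → t ^ D ≤ h ^ n := fun t t0 ht =>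
    pw hh hJn (by omega) (by nlinarith) t0 ht
  have R0 : (0 : ℝ) ≤ R * Real.log h := by positivity
  have E0 : 0 ≤ δ ^ κ * n * Real.log h := by positivity
  have lT : ∀ T : ℕ, 0 < T → T ≤ B + C + A * ⌈Q⌉₊ →
      Real.log T ≤ (B + C + A * ⌈Q⌉₊ : ℕ) := fun T T0 hT => by
    have := Real.log_le_sub_one_of_pos (show (0 : ℝ) < T by exact_mod_cast T0)
    have : (T : ℝ) ≤ (B + C + A * ⌈Q⌉₊ : ℕ) := by exact_mod_cast hT
    linarith
  let e : Fin 3 → (Fin 3 × Fin R →₀ ℕ) := fun k =>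
    Finsupp.equivFunOnFinite.symm fun v => if v.1 = k then m k v.2 else 0
  have he : ∀ k, ∑ v, e k v = n := fun k => by
    simp [e, Fintype.sum_prod_type, Finset.sum_ite_irrel, hs.deg]
  have hm : ∀ k, mon (fun v : Fin 3 × Fin R => w v.1 v.2) (e k) = ∏ i, w k i ^ m k i := fun k => by
    simp [mon, e, Fintype.prod_prod_type, Finset.prod_ite_irrel]
  have hco : ∀ T k, 0 < T → T ≤ B + C + A * ⌈Q⌉₊ → (T * a k) ^ D ≤ h ^ n := fun T k T0 hT => by
    refine hp _ (Nat.mul_pos T0 (hs.a_pos k)) ?_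
    rw [Nat.cast_mul, Real.log_mul (by exact_mod_cast T0.ne') (by exact_mod_cast (hs.a_pos k).ne')]
    linarith [lT T T0 hT, d3 k]
  refine H J n h (fun v => w v.1 v.2) (e 0) (e 1) (e 2) (A * a 0) (B * a 1) (C * a 2) hJ
    (hDD.trans hJn) ?_ (fun v => ?_) (he 0) (he 1) (he 2)
    (Nat.mul_pos hB (hs.a_pos 1)) (Nat.mul_pos hC (hs.a_pos 2)) (hco _ _ hB (by omega))
    (hco _ _ hC (by omega)) ?_ (by rw [hm, hm, hm, mul_assoc, mul_assoc, mul_assoc]; exact hs.eq)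
  · have h1 : (2 : ℝ) ^ D ≤ h := by
      calc (2 : ℝ) ^ D ≤ Real.exp 1 ^ D := by
            gcongr
            linarith [Real.add_one_le_exp 1]
        _ = Real.exp D := by rw [← Real.exp_nat_mul, mul_one]
        _ ≤ h := (Real.le_log_iff_exp_le hh0).1 (le_trans (by exact_mod_cast hDD) hJh)
    exact_mod_cast h1
  · have h1 : |(w v.1 v.2 : ℝ) / h - 1| ≤ (h : ℝ) ^ (-(1 / (J : ℝ))) := by
      have h2 : (w v.1 v.2 : ℝ) ≤ h := by exact_mod_cast hs.w_le v.1 v.2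
      have h4 : (l : ℝ) ≤ w v.1 v.2 := by exact_mod_cast hl v.1 v.2
      have h3 := hcon.le.trans (Real.rpow_le_rpow_of_exponent_le hh1
        (show 1 - 8 * δ ≤ 1 - 1 / (J : ℝ) by linarith))
      rw [sub_eq_add_neg 1, Real.rpow_add hh0, Real.rpow_one] at h3
      rw [div_sub_one hh0.ne', abs_div, abs_of_pos hh0, div_le_iff₀ hh0, abs_sub_comm,
        abs_of_nonneg (by linarith)]
      linarith
    calc _ ≤ ((h : ℝ) ^ (-(1 / (J : ℝ)))) ^ J * h := by gcongr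
      _ = 1 := by
        rw [← Real.rpow_mul_natCast hh0.le, neg_mul, one_div_mul_cancel hJ0.ne',
          Real.rpow_neg_one, inv_mul_cancel₀ hh0.ne']
  · rw [hm, hm]
    have P1 : 0 < ∏ i, w 1 i ^ m 1 i := Finset.prod_pos fun i _ => pow_pos (hs.w_pos 1 i) _
    have G0 := Nat.gcd_pos_of_pos_left (∏ i, w 2 i ^ m 2 i) P1
    refine hp _ G0 ?_
    have g1 := Nat.gcd_dvd_left (∏ i, w 1 i ^ m 1 i) (∏ i, w 2 i ^ m 2 i)
    have g2 := Nat.gcd_dvd_right (∏ i, w 1 i ^ m 1 i) (∏ i, w 2 i ^ m 2 i)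
    have hg := w2_gcd (W := ∏ i, w 1 i) (n := n) hA (Nat.mul_pos (hs.a_pos 1) P1)
      (Finset.prod_pos fun i _ => hs.w_pos 1 i) (by omega) hs.gcd
      ((Nat.dvd_add_left ((g1.mul_left _).mul_left B)).1
        (hs.eq ▸ (g2.mul_left _).mul_left C)) (g1.mul_left _) (g1.trans (by
          rw [← Finset.prod_pow]
          exact Finset.prod_dvd_prod_of_dvd _ _ fun i _ => pow_dvd_pow _
            (hs.deg 1 ▸ Finset.single_le_sum (fun _ _ => Nat.zero_le _) (Finset.mem_univ i))))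
    have hW : ∏ i, w 1 i ≤ h ^ R :=
      (Finset.prod_le_pow_card _ _ h fun i _ => hs.w_le 1 i).trans
        (Nat.pow_le_pow_right (by omega) (by simp))
    have hg' : Nat.gcd (∏ i, w 1 i ^ m 1 i) (∏ i, w 2 i ^ m 2 i) ≤
        (B + C + A * ⌈Q⌉₊) * h ^ R := hg.trans (Nat.mul_le_mul (by omega) hW)
    have T0 : 0 < B + C + A * ⌈Q⌉₊ := by omega
    have u1 := Real.log_le_log (by exact_mod_cast G0) (Nat.cast_le (α := ℝ).2 hg')
    rw [Nat.cast_mul, Nat.cast_pow, Real.log_mul (by exact_mod_cast T0.ne') (by positivity),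
      Real.log_pow] at u1
    linarith [lT _ T0 le_rfl]

end Pool.Agent.Lib.MP_4ffbf9_nt.QH
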