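import Mathlib
import Pool.Agent.Lib.MP_4ffbf9_nt.QH.UW

/-!
Linear forms in logarithms and the window theorem bound the degree.
-/

set_option autoImplicit false

namespace Pool.Agent.Lib.MP_4ffbf9_nt.QH

open Pool.Agent.Lib.MP_4ffbf9_nt.PR

/-- Linear forms in logarithms put all values in one window (proof as in `EF.close_eff`). -/
theorem bk (R : ℕ) : ∃ κ : ℝ, 0 < κ ∧ ∀ (A B C n h : ℕ) (Q L D : ℝ) (a : Fin 3 → ℕ)
    (w m : Fin 3 → Fin R → ℕ), 0 < A → 0 < B → 0 < C → 3 ≤ n → 1 ≤ Real.log h → 1 ≤ L →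
    Su A B C R Q n h a w m → (∀ k, Real.log (a k) + (A + B + C : ℕ) ≤ L) → (∃ k i, w k i = h) →
    (∀ k i j, (w k i : ℝ) ≤ w k j + D) →
    ∀ k i, (h : ℝ) ≤ w k i + 2 * D +
      κ * L * Real.log h ^ (2 * R) * Real.log n ^ 2 / n * h := by
  obtain ⟨κ, hκ, H⟩ := cl_logs R
  refine ⟨2 * (3 + κ), by positivity,
    fun A B C n h Q L D a w m hA hB hC n3 H1 L1 sol hL ⟨k0, i0, hw0⟩ hsp k i => ?_⟩
  have n3' : (3 : ℝ) ≤ n := by exact_mod_cast n3
  have n0 : (0 : ℝ) < n := by linarith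
  have l1 : 1 ≤ Real.log n := by
    rw [Real.le_log_iff_exp_le n0]
    linarith [Real.exp_one_lt_d9]
  have h0 : (0 : ℝ) < h := by exact_mod_cast hw0 ▸ sol.w_pos k0 i0
  have hw : ∀ k i, (w k i : ℝ) ≤ Real.exp (Real.log h) := fun k i => by
    rw [Real.exp_log h0]
    exact Nat.cast_le.2 (sol.w_le k i)
  have ha : ∀ (T : ℕ) (k : Fin 3), T ≤ A + B + C → ((T * a k : ℕ) : ℝ) ≤ Real.exp L :=
    fun T k hT => by
      have d1 : (T : ℝ) ≤ Real.exp (A + B + C : ℕ) :=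
        (Nat.cast_le.2 hT).trans (by linarith [Real.add_one_le_exp ((A + B + C : ℕ) : ℝ)])
      have d2 : (a k : ℝ) = Real.exp (Real.log (a k)) :=
        (Real.exp_log (by exact_mod_cast sol.a_pos k)).symm
      rw [Nat.cast_mul, d2]
      refine (mul_le_mul_of_nonneg_right d1 (Real.exp_pos _).le).trans ?_
      rw [← Real.exp_add, Real.exp_le_exp]
      linarith [hL k]
  have hm : ∀ k i, m k i ≤ n := fun k i =>
    sol.deg k ▸ Finset.single_le_sum (f := m k) (fun _ _ => Nat.zero_le _) (Finset.mem_univ i)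
  set s : ℝ := (3 + κ) * L * Real.log h ^ (2 * R) * Real.log n ^ 2 / n with hs
  have fin : 1 + 2 * L + κ * L * Real.log h ^ (2 * R) * Real.log n ^ 2 ≤ n * s := by
    rw [hs, mul_div_cancel₀ _ n0.ne']
    have u1 : 1 ≤ Real.log h ^ (2 * R) * Real.log n ^ 2 :=
      one_le_mul_of_one_le_of_one_le (one_le_pow₀ H1) (one_le_pow₀ l1)
    nlinarith [mul_le_mul_of_nonneg_left u1 (by linarith : 0 ≤ L)]
  have si : 0 < s := by positivity
  have heq := sol.eq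
  rw [← mul_assoc, ← mul_assoc, ← mul_assoc] at heq
  have pa := Nat.mul_pos hA (sol.a_pos 0)
  have pb := Nat.mul_pos hB (sol.a_pos 1)
  have pc := Nat.mul_pos hC (sol.a_pos 2)
  have both : ∀ k, |∑ i, (m k i : ℝ) * Real.log (w k i) - ∑ i, (m 2 i : ℝ) * Real.log (w 2 i)| ≤
      n * s := by
    have two : |∑ i, (m 0 i : ℝ) * Real.log (w 0 i) - ∑ i, (m 2 i : ℝ) * Real.log (w 2 i)| ≤
        n * s ∧ |∑ i, (m 1 i : ℝ) * Real.log (w 1 i) - ∑ i, (m 2 i : ℝ) * Real.log (w 2 i)| ≤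
        n * s := by
      rcases le_total (A * a 0 * ∏ i, w 0 i ^ m 0 i) (B * a 1 * ∏ i, w 1 i ^ m 1 i) with hle | hle
      · obtain ⟨u, v⟩ := H n _ _ _ _ _ _ _ _ _ _ _ n3 pa pb pc (sol.w_pos 0) (sol.w_pos 1)
          (sol.w_pos 2) (hm 1) (hm 2) L1 H1 (ha A 0 (by omega)) (ha B 1 (by omega))
          (ha C 2 (by omega)) (hw 1) (hw 2) heq hle
        exact ⟨u.trans fin, v.trans fin⟩
      · obtain ⟨u, v⟩ := H n _ _ _ _ _ _ _ _ _ _ _ n3 pb pa pc (sol.w_pos 1) (sol.w_pos 0)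
          (sol.w_pos 2) (hm 0) (hm 2) L1 H1 (ha B 1 (by omega)) (ha A 0 (by omega))
          (ha C 2 (by omega)) (hw 0) (hw 2) ((add_comm _ _).trans heq) hle
        exact ⟨v.trans fin, u.trans fin⟩
    intro k
    match k with
    | 0 => exact two.1
    | 1 => exact two.2
    | 2 =>
      rw [sub_self, abs_zero]
      positivity
  have D0 : 0 ≤ D := by linarith [hsp k i i]
  have wp : (0 : ℝ) < w k i := by exact_mod_cast sol.w_pos k i
  rw [show 2 * (3 + κ) * L * Real.log h ^ (2 * R) * Real.log n ^ 2 / n = 2 * s by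
    rw [hs]; ring]
  rcases le_or_gt (h : ℝ) D with hle | hlt
  · have : 0 ≤ 2 * s * h := by positivity
    linarith
  · have := cl_win (lo := h - D) (hi := w k i + D) (t := 2 * s) (by omega) (sol.w_pos k)
      (sol.deg k0) (sol.deg k) (by linarith) (by linarith)
      (fun j => by have := hsp k0 i0 j; rw [hw0] at this; linarith) (fun j => hsp k j i)
      (by linarith [abs_le.1 (both k0), abs_le.1 (both k)])
    nlinarith [mul_nonneg si.le D0]

theorem exists_root {κ : ℕ} (hκ : 1 ≤ κ) {μ : ℝ} (hμ : 0 < μ) :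
    ∃ δ : ℝ, 0 < δ ∧ δ ^ (2 * κ) * μ = 1 := by
  refine ⟨μ⁻¹ ^ (((2 * κ : ℕ) : ℝ)⁻¹), by positivity, ?_⟩
  rw [Real.rpow_inv_natCast_pow (by positivity) (by omega), inv_mul_cancel₀ hμ.ne']

theorem root_le {κ : ℕ} (hκ : 1 ≤ κ) {d δ n y Y : ℝ} (hd : 0 < d) (hδ : 0 < δ) (y1 : 1 ≤ y)
    (hy : y ≤ Y) (n0 : 0 < n) (h0 : d ^ (2 * κ) * min n y = 1) (h1 : 1 ≤ δ ^ (2 * κ) * n)
    (h2 : 1 ≤ δ ^ (2 * κ) * Y) : d * y ≤ δ * Y := by
  rcases le_total n y with h | h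
  · rw [min_eq_left h] at h0
    have : d ≤ δ := le_of_pow_le_pow_left₀ (n := 2 * κ) (by omega) hδ.le
      (le_of_mul_le_mul_right (h0.le.trans h1) n0)
    gcongr
  · rw [min_eq_right h] at h0
    obtain ⟨k, hk⟩ : ∃ k, 2 * κ = k + 1 := ⟨2 * κ - 1, by omega⟩
    rw [hk] at h0 h2
    refine le_of_pow_le_pow_left₀ (n := k + 1) (by omega) (mul_nonneg hδ.le (by linarith)) ?_
    calc (d * y) ^ (k + 1) = d ^ (k + 1) * y * y ^ k := by ring
      _ = 1 * y ^ k := by rw [h0]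
      _ ≤ δ ^ (k + 1) * Y * Y ^ k := by gcongr
      _ = _ := by ring

theorem poly_le_exp (K : ℝ) (hK : 0 ≤ K) (j : ℕ) : ∃ T : ℝ, ∀ y u : ℝ, T ≤ y → 0 ≤ u → y ≤ u ^ 2 →
    K * y ^ j ≤ Real.exp u := by
  refine ⟨(K * (2 * j + 1).factorial) ^ 2, fun y u hy u0 hu => ?_⟩
  have y0 : 0 ≤ y := le_trans (by positivity) hy
  have h1 : K * (2 * j + 1).factorial ≤ u := le_of_sq_le_sq (hy.trans hu) u0
  refine le_trans ?_ (Real.pow_div_factorial_le_exp _ u0 (2 * j + 1))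
  rw [le_div_iff₀ (by positivity)]
  calc K * y ^ j * (2 * j + 1).factorial = y ^ j * (K * (2 * j + 1).factorial) := by ring
    _ ≤ (u ^ 2) ^ j * u := by gcongr
    _ = _ := by ring

/-- The bound for the degree. -/
theorem nG {R κ : ℕ} {C₁ : ℝ} (hκ : 1 ≤ κ) (hC₁ : 0 < C₁) (hW : Wn R κ C₁) (A B C S : ℕ)
    (Q M ε : ℝ) (hA : 0 < A) (hB : 0 < B) (hC : 0 < C) (hε : 0 < ε) : ∃ n0 : ℕ,
    ∀ (n h : ℕ) (L H δ : ℝ) (a : Fin 3 → ℕ) (w m : Fin 3 → Fin R → ℕ), n0 ≤ n → 1 / 2 ≤ L →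
      Su A B C R Q n h a w m → (∀ k, Real.log (a k) ≤ L + S * Real.log h) →
      2 ^ n ≤ ∏ k, (a k * ∏ i, w k i ^ m k i) → (∃ k i, w k i = h) →
      (∀ k i j, (w k i : ℝ) ≤ w k j + M * (h : ℝ) ^ (1 - ε)) → (h : ℝ) ≤ H → 0 < δ →
      1 ≤ δ ^ (2 * κ) * n → 1 ≤ δ ^ (2 * κ) * Real.log H →
      (n : ℝ) ≤ L * Real.log n ^ 2 * H ^ ((2 * C₁ + 1) * δ) := by
  obtain ⟨κb, hκb, hb⟩ := bk R
  obtain ⟨n2, hW⟩ := hW A B C Q hA hB hC
  set c : ℝ := 2 * (A + B + C : ℕ) + 2 * S + 2 with hc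
  have c0 : 0 < c := by positivity
  obtain ⟨T, hT⟩ := poly_le_exp (2 * κb * c) (by positivity) (2 * R + 1)
  set T' : ℝ := (4 * C₁ / ε) ^ (2 * κ) with hT'
  have TL := Real.tendsto_log_atTop.comp (tendsto_natCast_atTop_atTop (R := ℝ))
  have E1 := ((tendsto_rpow_atTop (half_pos hε)).comp
    (tendsto_natCast_atTop_atTop (R := ℝ))).eventually_ge_atTop (4 * |M|)
  obtain ⟨h1, hh1⟩ := Filter.eventually_atTop.1 (E1.and ((TL.eventually_ge_atTop T).and
    ((TL.eventually_ge_atTop T').and (TL.eventually_ge_atTop 1))))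
  obtain ⟨n4, hbd⟩ := bdd' A B C R Q hA hB hC h1
  refine ⟨n2 + n4 + 150 * (S * h1) + S ^ 2 + ⌈T'⌉₊ + 3 ^ 13,
    fun n h L H δ a w m hn L0 hs hL h2n hatt hsp hH hδ d1 d2 => ?_⟩
  obtain ⟨k0, i0, hw0⟩ := hatt
  have hpos : 0 < h := hw0 ▸ hs.w_pos k0 i0
  have h1' : (1 : ℝ) ≤ h := by exact_mod_cast hpos
  have h0 : (0 : ℝ) < h := by linarith
  have n0 : (0 : ℝ) < n := by exact_mod_cast (by omega : 0 < n)
  have l13 : 13 ≤ Real.log n := by
    have u1 : (3 : ℝ) ^ 13 ≤ n := by exact_mod_cast (by omega : 3 ^ 13 ≤ n)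
    have u2 := Real.log_le_log (by positivity) u1
    have u3 : 1 ≤ Real.log 3 := by
      rw [Real.le_log_iff_exp_le (by norm_num)]
      linarith [Real.exp_one_lt_d9]
    rw [Real.log_pow] at u2
    push_cast at u2
    linarith
  have easy : (n : ℝ) ≤ 150 * L → (n : ℝ) ≤ L * Real.log n ^ 2 * H ^ ((2 * C₁ + 1) * δ) :=
    fun hle => by
      have u1 : 1 ≤ H ^ ((2 * C₁ + 1) * δ) := Real.one_le_rpow (h1'.trans hH) (by positivity)
      have u2 : 150 ≤ Real.log n ^ 2 := by nlinarith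
      calc (n : ℝ) ≤ L * 150 * 1 := by linarith
        _ ≤ _ := by gcongr
  rcases le_or_gt h h1 with hle | hlt
  · refine easy ?_
    by_contra hcon
    refine absurd (hbd n h a w m (by omega) hle hs fun k => ?_) (not_lt.2 h2n)
    have u1 : Real.log h ≤ h1 := by
      have : (h : ℝ) ≤ h1 := by exact_mod_cast hle
      linarith [Real.log_le_sub_one_of_pos h0]
    have u2 : (150 : ℝ) * (S * h1) ≤ n := by exact_mod_cast (by omega : 150 * (S * h1) ≤ n)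
    have u3 := mul_le_mul_of_nonneg_left u1 (Nat.cast_nonneg (α := ℝ) S)
    linarith [hL k]
  obtain ⟨e1, e2, e3, y1⟩ := hh1 h hlt.le
  simp only [Function.comp_apply] at e1 e2 e3 y1
  set y := Real.log h with hy
  have μ0 : 0 < min (n : ℝ) y := lt_min n0 (by linarith)
  obtain ⟨d, d0, hd⟩ := exists_root hκ μ0
  have dn : 1 ≤ d ^ (2 * κ) * n := hd ▸ mul_le_mul_of_nonneg_left (min_le_left _ _) (by positivity)
  have dy : 1 ≤ d ^ (2 * κ) * y := hd ▸ mul_le_mul_of_nonneg_left (min_le_right _ _) (by positivity)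
  have dκ : 0 < d ^ κ := by positivity
  have sq1 : y ^ κ ≤ ((y * d) ^ 2) ^ κ := by
    obtain ⟨k, rfl⟩ : ∃ k, κ = k + 1 := ⟨κ - 1, by omega⟩
    calc y ^ (k + 1) ≤ y ^ (2 * k + 1) * 1 := by
          rw [mul_one]; exact pow_le_pow_right₀ y1 (by omega)
      _ ≤ y ^ (2 * k + 1) * (d ^ (2 * (k + 1)) * y) := by gcongr
      _ = _ := by ring
  have sq2 : y ≤ (y * d) ^ 2 := le_of_pow_le_pow_left₀ (by omega) (by positivity) sq1
  rcases le_or_gt (d ^ κ * n * y) L with hbig | hsm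
  · refine easy ?_
    have u1 : 1 ≤ d ^ κ * y := by
      refine le_of_sq_le_sq ?_ (by positivity)
      rw [mul_pow, ← pow_mul, mul_comm κ]
      nlinarith
    nlinarith
  have hS : (S : ℝ) ≤ d ^ κ * n :=
    sq_le_mul dκ.le (by rw [← pow_mul, mul_comm κ]; exact dn) (by omega)
  have two : ∀ j : ℕ, d ^ j ≤ (2 * d) ^ j := fun j => pow_le_pow_left₀ d0.le (by linarith) j
  have : Nonempty (Fin R) := ⟨i0⟩
  obtain ⟨⟨k1, i1⟩, -, hmin⟩ := Finset.exists_min_image (Finset.univ : Finset (Fin 3 × Fin R))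
    (fun p => w p.1 p.2) Finset.univ_nonempty
  have w1 := hW (2 * d) n (w k1 i1) h a w m (by omega) (by positivity) hs
    (fun k i => hmin (k, i) (Finset.mem_univ _))
    (dn.trans (mul_le_mul_of_nonneg_right (two _) n0.le))
    (dy.trans (mul_le_mul_of_nonneg_right (two _) (by linarith))) fun k => by
      have u2 : (2 : ℝ) ≤ 2 ^ κ := le_self_pow₀ one_le_two (by omega)
      have u3 := mul_le_mul_of_nonneg_right hS (by linarith : 0 ≤ y)
      have u4 : 0 ≤ d ^ κ * n * y := by positivity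
      rw [mul_pow]
      nlinarith [hL k]
  have Ly : 1 / 2 ≤ L * y := by nlinarith
  have w2 := hb A B C n h Q (c * L * y) (M * (h : ℝ) ^ (1 - ε)) a w m hA hB hC (by omega) y1
    (by nlinarith [Nat.cast_nonneg (α := ℝ) (A + B + C), Nat.cast_nonneg (α := ℝ) S]) hs
    (fun k => by
      have u1 := mul_le_mul_of_nonneg_left Ly (Nat.cast_nonneg (α := ℝ) (A + B + C))
      have u2 := mul_le_mul_of_nonneg_left L0 (show (0 : ℝ) ≤ S * y by positivity)
      have u3 : L ≤ L * y := le_mul_of_one_le_right (by linarith) y1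
      rw [hc]
      nlinarith [hL k]) ⟨k0, i0, hw0⟩ hsp k1 i1
  rw [← hy] at w2
  have dε : C₁ * (2 * d) ≤ ε / 2 := by
    have u1 : T' ≤ min (n : ℝ) y := le_min
      ((Nat.le_ceil _).trans (by exact_mod_cast (by omega : ⌈T'⌉₊ ≤ n))) e3
    have u2 : (d * (4 * C₁ / ε)) ^ (2 * κ) ≤ 1 := by
      rw [mul_pow, ← hd]
      gcongr
    have u3 := (pow_le_one_iff_of_nonneg (by positivity) (by omega)).1 u2
    rw [← mul_div_assoc, div_le_one hε] at u3
    linarith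
  have P0 := Real.rpow_pos_of_pos h0 (1 - C₁ * (2 * d))
  have w3 : 4 * (M * (h : ℝ) ^ (1 - ε)) ≤ (h : ℝ) ^ (1 - C₁ * (2 * d)) := by
    calc 4 * (M * (h : ℝ) ^ (1 - ε)) ≤ 4 * |M| * (h : ℝ) ^ (1 - ε) := by
          rw [mul_assoc]; gcongr; exact le_abs_self M
      _ ≤ (h : ℝ) ^ (ε / 2) * (h : ℝ) ^ (1 - ε) := by gcongr
      _ ≤ _ := by
          rw [← Real.rpow_add h0]
          exact Real.rpow_le_rpow_of_exponent_le h1' (by linarith)
  have w4 : (h : ℝ) ^ (1 - C₁ * (2 * d)) ≤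
      2 * (κb * (c * L * y) * y ^ (2 * R) * Real.log n ^ 2 / n * h) := by linarith
  have w5 := hT y (y * d) e2 (by positivity) sq2
  have e4 : (h : ℝ) ^ (1 - C₁ * (2 * d)) * Real.exp (y * (C₁ * (2 * d))) = h := by
    rw [hy, ← Real.rpow_def_of_pos h0, ← Real.rpow_add h0]; simp
  have w6 : (n : ℝ) ≤ L * Real.log n ^ 2 * (Real.exp (y * d) * Real.exp (y * (C₁ * (2 * d)))) := by
    have u1 := mul_le_mul_of_nonneg_right w4 (Real.exp_pos (y * (C₁ * (2 * d)))).le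
    rw [e4] at u1
    have u2 : (n : ℝ) * h ≤ L * Real.log n ^ 2 * (2 * κb * c * y ^ (2 * R + 1) *
        Real.exp (y * (C₁ * (2 * d)))) * h := by
      refine (mul_le_mul_of_nonneg_left u1 n0.le).trans (le_of_eq ?_)
      field_simp
      ring
    refine (le_of_mul_le_mul_right u2 h0).trans ?_
    gcongr
  refine w6.trans (mul_le_mul_of_nonneg_left ?_ (by positivity))
  have r1 := root_le hκ d0 hδ y1 (Real.log_le_log h0 hH) n0 hd d1 d2
  rw [← Real.exp_add, Real.rpow_def_of_pos (h0.trans_le hH), Real.exp_le_exp]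
  nlinarith

end Pool.Agent.Lib.MP_4ffbf9_nt.QH
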