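import Mathlib
import Pool.Agent.Lib.MP_4ffbf9_nt.QH.UC

/-!
The uniform inequality for products with free cofactors.
-/

set_option autoImplicit false

namespace Pool.Agent.Lib.MP_4ffbf9_nt.QH

open Pool.Agent.Lib.MP_4ffbf9_nt.PR

theorem two_le_rpow {κ h : ℕ} {δ : ℝ} (hκ : 1 ≤ κ) (hδ : 0 < δ)
    (d2 : 1 ≤ δ ^ (2 * κ) * Real.log h) : 2 ≤ (h : ℝ) ^ (2 * δ) := by
  have hh := two_le_of d2
  have lh := log_ge hh
  rw [Real.rpow_def_of_pos (by exact_mod_cast (by omega : 0 < h))]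
  generalize Real.log h = y at *
  have u1 : (1 / 2 : ℝ) ≤ y * δ := by
    obtain ⟨k, hk⟩ : ∃ k, 2 * κ = k + 1 := ⟨2 * κ - 1, by omega⟩
    rw [hk] at d2
    refine le_of_pow_le_pow_left₀ (n := k + 1) (by omega) (by positivity) ?_
    calc (1 / 2 : ℝ) ^ (k + 1) ≤ (1 / 2) ^ k * 1 := by
          rw [pow_succ]; gcongr; norm_num
      _ ≤ y ^ k * (δ ^ (k + 1) * y) := by gcongr
      _ = _ := by ring
  linarith [Real.add_one_le_exp (y * (2 * δ))]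

theorem final_of {R κ : ℕ} {C₁ : ℝ} (hκ : 1 ≤ κ) (hC₁ : 0 < C₁) (hW : Wn R κ C₁) :
    ∃ C₀ : ℝ, 0 < C₀ ∧ ∀ (A B C : ℕ) (Q M ε : ℝ), 0 < A → 0 < B → 0 < C → 0 < ε → ∃ n₀ : ℕ,
    ∀ (n l h : ℕ) (δ : ℝ) (W g a : Fin 3 → ℕ) (x : (k : Fin 3) → Fin (g k * n) → ℕ), n₀ ≤ n →
      A * W 0 + B * W 1 = C * W 2 →
      (Nat.gcd (W 0) (W 1) : ℝ) / (∏ p ∈ (Nat.gcd (W 0) (W 1)).primeFactors, (p : ℝ)) ≤ Q →
      2 ^ n ≤ W 0 * W 1 * W 2 →
      (∀ k, W k = a k * ∏ i, x k i ∧ 0 < g k ∧ g k ≤ R ∧ 0 < a k ∧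
        (Finset.univ.image (x k)).card ≤ R ∧
        (∀ i, 0 < x k i ∧ l ≤ x k i ^ g k ∧ x k i ^ g k ≤ h) ∧
        ∀ i j, (x k i : ℝ) ≤ x k j + M * (x k j : ℝ) ^ (1 - ε)) →
      0 < δ → 1 ≤ δ ^ (2 * κ) * n → 1 ≤ δ ^ (2 * κ) * Real.log h →
      Real.log (2 * a 0 * a 1 * a 2) ≤ δ ^ κ * n * Real.log h →
      (1 + n / (Real.log (2 * a 0 * a 1 * a 2) * Real.log n ^ 2)) * (h : ℝ) ^ (1 - C₀ * δ) ≤
        (h : ℝ) - l := by
  refine ⟨C₁ * 4 + (2 * C₁ + 1) * 2 + 4, by positivity, fun A B C Q M ε hA hB hC hε => ?_⟩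
  rcases Nat.eq_zero_or_pos R with rfl | hR
  · exact ⟨0, fun n l h δ W g a x _ _ _ _ hk => by
      obtain ⟨-, h1, h2, -⟩ := hk 0
      omega⟩
  have hR' : (1 : ℝ) ≤ R := by exact_mod_cast hR
  obtain ⟨e, he0, he, he1⟩ : ∃ e : ℝ, 0 < e ∧ e ≤ ε ∧ e ≤ 1 / 2 :=
    ⟨min ε (1 / 2), lt_min hε (by norm_num), min_le_left _ _, min_le_right _ _⟩
  obtain ⟨e', he0', he'⟩ : ∃ e' : ℝ, 0 < e' ∧ e' * R = e :=
    ⟨e / R, by positivity, by field_simp⟩
  obtain ⟨n0, hG⟩ := nG hκ hC₁ hW A B C (R * R) Q (R * |M|) e' hA hB hC he0'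
  obtain ⟨n2, hW⟩ := hW A B C Q hA hB hC
  refine ⟨n0 + n2 + 2 * R + 2 + (R * R) ^ 2,
    fun n l h δ W g a x hn heq hgcd h2n hk hδ d1 d2 d3 => ?_⟩
  choose hWk0 hg hgR ha hcard hx hM using hk
  choose v m r hv hm hr hprod using fun k => group_factors (hg k) (by omega : R < n) (x k) (hcard k)
  choose j hj using hv
  have : Nonempty (Fin R) := ⟨⟨0, hR⟩⟩
  obtain ⟨⟨k0, i0⟩, -, hmax⟩ := Finset.exists_max_image (Finset.univ : Finset (Fin 3 × Fin R))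
    (fun p => v p.1 p.2 ^ g p.1) Finset.univ_nonempty
  set h' := v k0 i0 ^ g k0 with hh'
  have hle : ∀ k i, v k i ^ g k ≤ h' := fun k i => hmax (k, i) (Finset.mem_univ _)
  have hv0 : ∀ k i, 0 < v k i := fun k i => hj k i ▸ (hx k _).1
  have hh0 : 0 < h' := pow_pos (hv0 _ _) _
  have h3 : h' ≤ h := by rw [hh', hj]; exact (hx k0 _).2.2
  have hWk : ∀ k, W k = a k * (∏ i, v k i ^ r k i) * ∏ i, (v k i ^ g k) ^ m k i := fun k => by
    rw [hWk0 k, hprod k, mul_assoc]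
  have hsol : ∀ H, h' ≤ H → Su A B C R Q (n - R) H (fun k => a k * ∏ i, v k i ^ r k i)
      (fun k i => v k i ^ g k) m := fun H hH => by
    refine ⟨?_, ?_, fun k => ?_, hm, fun k i => pow_pos (hv0 k i) _, fun k i => (hle k i).trans hH⟩
    · simpa only [← hWk] using heq
    · simpa only [← hWk, GcdOk] using hgcd
    · exact Nat.mul_pos (ha k) (Finset.prod_pos fun i _ => pow_pos (hv0 k i) _)
  have a1 : ∀ k, (1 : ℝ) ≤ a k := fun k => by exact_mod_cast ha k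
  have p01 := mul_le_mul (a1 0) (a1 1) zero_le_one (by linarith [a1 0])
  have p02 := mul_le_mul (a1 0) (a1 2) zero_le_one (by linarith [a1 0])
  have p12 := mul_le_mul (a1 1) (a1 2) zero_le_one (by linarith [a1 1])
  have aL : ∀ k, (2 : ℝ) * a k ≤ 2 * a 0 * a 1 * a 2 := fun k => by
    match k with
    | 0 => nlinarith [a1 0]
    | 1 => nlinarith [a1 1]
    | 2 => nlinarith [a1 2]
  set L := Real.log (2 * a 0 * a 1 * a 2) with hLd
  have L0 : 1 / 2 ≤ L := by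
    have := Real.log_le_log two_pos (show (2 : ℝ) ≤ 2 * a 0 * a 1 * a 2 by linarith [aL 0, a1 0])
    linarith [Real.log_two_gt_d9]
  have hco : ∀ k, Real.log ((a k * ∏ i, v k i ^ r k i : ℕ) : ℝ) ≤
      L + (R * R : ℕ) * Real.log h' := fun k => by
    have h1 : ∏ i, v k i ^ r k i ≤ h' ^ (R * R) :=
      calc ∏ i, v k i ^ r k i ≤ ∏ i, h' ^ r k i := Finset.prod_le_prod' fun i _ =>
            Nat.pow_le_pow_left ((Nat.le_self_pow (hg k).ne' _).trans (hle k i)) _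
        _ = h' ^ (g k * R) := by rw [Finset.prod_pow_eq_pow_sum, hr]
        _ ≤ _ := Nat.pow_le_pow_right hh0 (Nat.mul_le_mul_right _ (hgR k))
    have h2 : (0 : ℝ) < (∏ i, v k i ^ r k i : ℕ) := by
      exact_mod_cast Finset.prod_pos fun i _ => pow_pos (hv0 k i) _
    rw [Nat.cast_mul, Real.log_mul (by linarith [a1 k]) h2.ne', ← Real.log_pow]
    exact add_le_add (Real.log_le_log (by linarith [a1 k]) (by linarith [aL k, a1 k]))
      (Real.log_le_log h2 (by exact_mod_cast h1))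
  have hh := two_le_of d2
  have lh := log_ge hh
  have H1 : (1 : ℝ) ≤ h := by exact_mod_cast (by omega : 1 ≤ h)
  have H0 : (0 : ℝ) < h := by linarith
  have nn : (n : ℝ) ≤ 2 * (n - R : ℕ) := by exact_mod_cast (by omega : n ≤ 2 * (n - R))
  have n1 : (1 : ℝ) < (n - R : ℕ) := by exact_mod_cast (by omega : 1 < n - R)
  have nn' : ((n - R : ℕ) : ℝ) ≤ n := by exact_mod_cast Nat.sub_le n R
  have sc : ∀ t : ℝ, 2 ≤ t → 1 ≤ (t * δ) ^ (2 * κ) * (n - R : ℕ) ∧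
      1 ≤ (t * δ) ^ (2 * κ) * Real.log h := fun t ht => by
    have u1 : t ≤ t ^ (2 * κ) := le_self_pow₀ (by linarith) (by omega)
    have u2 : 0 < δ ^ (2 * κ) := by positivity
    rw [mul_pow]
    constructor
    · nlinarith [mul_le_mul_of_nonneg_left nn u2.le,
        mul_le_mul_of_nonneg_right (ht.trans u1) (mul_nonneg u2.le (zero_le_one.trans n1.le))]
    · nlinarith [mul_le_mul_of_nonneg_right (ht.trans u1) (zero_le_one.trans d2)]
  have w1 := hW (4 * δ) (n - R) l h _ _ m (by omega) (by positivity) (hsol h h3)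
    (fun k i => hj k i ▸ (hx k _).2.1) (sc 4 (by norm_num)).1 (sc 4 (by norm_num)).2 fun k => by
      have dκ : 0 < δ ^ κ := by positivity
      have u1 : ((R * R : ℕ) : ℝ) ≤ δ ^ κ * n :=
        sq_le_mul dκ.le (by rw [← pow_mul, mul_comm κ]; exact d1) (by omega)
      have u2 : Real.log h' ≤ Real.log h :=
        Real.log_le_log (by exact_mod_cast hh0) (by exact_mod_cast h3)
      have u3 := mul_le_mul u1 u2 (Real.log_natCast_nonneg _) (by positivity)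
      have u4 : (4 : ℝ) ≤ 4 ^ κ := le_self_pow₀ (by norm_num) (by omega)
      have u5 : δ ^ κ * n * Real.log h ≤ δ ^ κ * (2 * (n - R : ℕ)) * Real.log h := by gcongr
      have u6 : 0 ≤ δ ^ κ * (n - R : ℕ) * Real.log h := by positivity
      rw [mul_pow]
      nlinarith [hco k]
  have w2 := hG (n - R) h' L h (2 * δ) _ _ m (by omega) L0 (hsol h' le_rfl) hco (by
      simp only [← hWk]
      rw [Fin.prod_univ_three]
      exact (Nat.pow_le_pow_right (by norm_num) (Nat.sub_le _ _)).trans h2n) ⟨k0, i0, rfl⟩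
    (fun k i i' => pow_window (hg k) (hgR k) (hv0 k i') (hle k i) he (by linarith) he0.le
      he'.le (by rw [hj, hj]; exact hM k _ _)) (by exact_mod_cast h3) (by positivity)
    (sc 2 le_rfl).1 (sc 2 le_rfl).2
  have g0 := Real.log_pos n1
  have g1 : Real.log (n - R : ℕ) ≤ Real.log n := Real.log_le_log (by linarith) nn'
  have G0 : 0 < L * Real.log n ^ 2 := mul_pos (by linarith) (pow_pos (by linarith) 2)
  have P1 : 1 ≤ (h : ℝ) ^ ((2 * C₁ + 1) * (2 * δ)) := Real.one_le_rpow H1 (by positivity)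
  have w3 : n / (L * Real.log n ^ 2) ≤ 2 * (h : ℝ) ^ ((2 * C₁ + 1) * (2 * δ)) := by
    rw [div_le_iff₀ G0]
    have : L * Real.log (n - R : ℕ) ^ 2 * (h : ℝ) ^ ((2 * C₁ + 1) * (2 * δ)) ≤
        L * Real.log n ^ 2 * (h : ℝ) ^ ((2 * C₁ + 1) * (2 * δ)) := by gcongr
    linarith
  have t6 := two_le_rpow hκ hδ d2
  have e3 : (h : ℝ) ^ (2 * δ) * (h : ℝ) ^ (2 * δ) * (h : ℝ) ^ ((2 * C₁ + 1) * (2 * δ)) *
      (h : ℝ) ^ (1 - (C₁ * 4 + (2 * C₁ + 1) * 2 + 4) * δ) = (h : ℝ) ^ (1 - C₁ * (4 * δ)) := by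
    rw [← Real.rpow_add H0, ← Real.rpow_add H0, ← Real.rpow_add H0]
    congr 1
    ring
  refine le_trans ?_ w1
  rw [← e3]
  refine mul_le_mul_of_nonneg_right ?_ (Real.rpow_nonneg H0.le _)
  have t7 : 2 * 2 ≤ (h : ℝ) ^ (2 * δ) * (h : ℝ) ^ (2 * δ) := by gcongr
  nlinarith

theorem exists_wn : ∃ κ : ℕ → ℕ, κ 1 = 3 ∧ ∀ R, 1 ≤ κ R ∧ ∃ C₁ : ℝ, 0 < C₁ ∧ Wn R (κ R) C₁ := by
  choose κ h1 h2 using wn_gen
  refine ⟨fun R => if R = 1 then 3 else κ R, by simp, fun R => ?_⟩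
  by_cases h : R = 1
  · subst h
    exact ⟨by simp, 8000, by norm_num, by simpa using wn_one⟩
  · simp only [h, if_false]
    exact ⟨h1 R, 8, by norm_num, h2 R⟩

end Pool.Agent.Lib.MP_4ffbf9_nt.QH
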